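import Pool.Agent.Helper67.CP.Defs

set_option linter.unusedSectionVars false

namespace Pool.Agent.Helper67.CP

open scoped InnerProductSpace ComplexConjugate
open OComplex

/-- The angle between two complex numbers with positive cross product, through their arguments. -/
theorem angle_eq_arg (z w : ℂ) (h : 0 < (conj z * w).im) :
    InnerProductGeometry.angle z w =
      Complex.arg w - Complex.arg z + (if 0 ≤ z.im ∧ w.im < 0 then 2 * Real.pi else 0) := by
  have hz : z ≠ 0 := by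
    rintro rfl
    simp at h
  have hw : w ≠ 0 := by
    rintro rfl
    simp at h
  have hzn : 0 < ‖z‖ := norm_pos_iff.2 hz
  have hwn : 0 < ‖w‖ := norm_pos_iff.2 hw
  have hcr : 0 < z.re * w.im - z.im * w.re := by
    have : (conj z * w).im = z.re * w.im - z.im * w.re := by
      simp [Complex.mul_im]; ring
    linarith
  have hcz : Real.cos (Complex.arg z) = z.re / ‖z‖ := Complex.cos_arg hz
  have hsz : Real.sin (Complex.arg z) = z.im / ‖z‖ := Complex.sin_arg z
  have hcw : Real.cos (Complex.arg w) = w.re / ‖w‖ := Complex.cos_arg hw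
  have hsw : Real.sin (Complex.arg w) = w.im / ‖w‖ := Complex.sin_arg w
  set φ := Complex.arg w - Complex.arg z + (if 0 ≤ z.im ∧ w.im < 0 then 2 * Real.pi else 0)
    with hφ
  have hsinφ : Real.sin φ = Real.sin (Complex.arg w - Complex.arg z) := by
    rw [hφ]
    split_ifs
    · rw [Real.sin_add_two_pi]
    · rw [add_zero]
  have hcosφ : Real.cos φ = Real.cos (Complex.arg w - Complex.arg z) := by
    rw [hφ]
    split_ifs
    · rw [Real.cos_add_two_pi]
    · rw [add_zero]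
  have hsin : 0 < Real.sin φ := by
    rw [hsinφ, Real.sin_sub, hcz, hsz, hcw, hsw]
    have : w.im / ‖w‖ * (z.re / ‖z‖) - w.re / ‖w‖ * (z.im / ‖z‖) =
        (z.re * w.im - z.im * w.re) / (‖z‖ * ‖w‖) := by
      field_simp
    rw [this]
    positivity
  have hcos : Real.cos φ = ⟪z, w⟫_ℝ / (‖z‖ * ‖w‖) := by
    rw [hcosφ, Real.cos_sub, hcz, hsz, hcw, hsw]
    have : ⟪z, w⟫_ℝ = w.re * z.re + w.im * z.im := by
      rw [Complex.inner]
      simp [Complex.mul_re]
    rw [this]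
    field_simp
  have h1 := Complex.neg_pi_lt_arg z
  have h2 := Complex.arg_le_pi z
  have h3 := Complex.neg_pi_lt_arg w
  have h4 := Complex.arg_le_pi w
  have hpi := Real.pi_pos
  have hrange : 0 ≤ φ ∧ φ ≤ Real.pi := by
    have key : ∀ x : ℝ, 0 < Real.sin x → -Real.pi ≤ x → x ≤ 2 * Real.pi → 0 ≤ x ∧ x ≤ Real.pi := by
      intro x hx hx1 hx2
      refine ⟨?_, ?_⟩
      · by_contra hneg
        push Not at hneg
        have := Real.sin_nonpos_of_nonpos_of_neg_pi_le hneg.le hx1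
        linarith
      · by_contra hneg
        push Not at hneg
        have : Real.sin (x - 2 * Real.pi) ≤ 0 :=
          Real.sin_nonpos_of_nonpos_of_neg_pi_le (by linarith) (by linarith)
        rw [Real.sin_sub_two_pi] at this
        linarith
    apply key φ hsin
    · rw [hφ]
      split_ifs with hc
      · have := Complex.arg_nonneg_iff.2 hc.1
        linarith
      · rcases lt_or_ge z.im 0 with hz' | hz'
        · have := Complex.arg_neg_iff.2 hz'
          linarith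
        · have hw' : 0 ≤ w.im := by
            by_contra hcon
            exact hc ⟨hz', not_le.1 hcon⟩
          have := Complex.arg_nonneg_iff.2 hw'
          linarith
    · rw [hφ]
      split_ifs with hc
      · have h5 := Complex.arg_nonneg_iff.2 hc.1
        have h6 := Complex.arg_neg_iff.2 hc.2
        linarith
      · linarith
  unfold InnerProductGeometry.angle
  rw [← hcos, Real.arccos_cos hrange.1 hrange.2]

section Sum

variable {V : Type} [Fintype V] [DecidableEq V]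

/-- Around an interior vertex of a surface, the sums over the first and over the second
neighbours agree. -/
theorem sum_link {K : OComplex V} (hK : K.IsSurface) {v : V} (hv : K.IsInterior v) (A : V → ℝ) :
    ∑ f ∈ K.faces with f.1 = v, A f.2.1 = ∑ f ∈ K.faces with f.1 = v, A f.2.2 := by
  have inj1 : Set.InjOn (fun f : V × V × V => f.2.1)
      ((K.faces.filter fun f => f.1 = v : Finset (V × V × V)) : Set (V × V × V)) := by
    rintro ⟨a, b, c⟩ hf ⟨a', b', c'⟩ hg h
    simp only [Finset.coe_filter, Set.mem_ofPred_eq] at hf hg h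
    obtain ⟨hf, rfl⟩ := hf
    obtain ⟨hg, rfl⟩ := hg
    subst h
    rw [hK.uniq _ _ _ _ hf hg]
  have inj2 : Set.InjOn (fun f : V × V × V => f.2.2)
      ((K.faces.filter fun f => f.1 = v : Finset (V × V × V)) : Set (V × V × V)) := by
    rintro ⟨a, b, c⟩ hf ⟨a', b', c'⟩ hg h
    simp only [Finset.coe_filter, Set.mem_ofPred_eq] at hf hg h
    obtain ⟨hf, rfl⟩ := hf
    obtain ⟨hg, rfl⟩ := hg
    subst h
    rw [hK.uniq _ _ _ _ (hK.rot _ _ _ (hK.rot _ _ _ hf)) (hK.rot _ _ _ (hK.rot _ _ _ hg))]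
  have himg : (K.faces.filter fun f => f.1 = v).image (fun f => f.2.1) =
      (K.faces.filter fun f => f.1 = v).image (fun f => f.2.2) := by
    ext u
    simp only [Finset.mem_image, Finset.mem_filter, Prod.exists]
    constructor
    · rintro ⟨a, b, c, ⟨hf, rfl⟩, rfl⟩
      obtain ⟨w, hw⟩ := (hv b (Or.inl ⟨c, hf⟩)).2
      exact ⟨a, w, b, ⟨hK.rot _ _ _ hw, rfl⟩, rfl⟩
    · rintro ⟨a, b, c, ⟨hf, rfl⟩, rfl⟩
      have h1 := hK.rot _ _ _ (hK.rot _ _ _ hf)
      obtain ⟨w, hw⟩ := (hv c (Or.inr ⟨b, h1⟩)).1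
      exact ⟨a, c, w, ⟨hw, rfl⟩, rfl⟩
  rw [← Finset.sum_image (f := A) inj1, ← Finset.sum_image (f := A) inj2, himg]

/-- The total angle around an interior vertex, for directions given by complex numbers. -/
theorem sum_angle {K : OComplex V} (hK : K.IsSurface) {v : V} (hv : K.IsInterior v) (Z : V → ℂ)
    (hZ : ∀ f ∈ K.faces, f.1 = v → 0 < (conj (Z f.2.1) * Z f.2.2).im) :
    ∑ f ∈ K.faces with f.1 = v, InnerProductGeometry.angle (Z f.2.1) (Z f.2.2) =
      2 * Real.pi * ((K.faces.filter fun f => f.1 = v).filter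
        fun f => 0 ≤ (Z f.2.1).im ∧ (Z f.2.2).im < 0).card := by
  have h1 : ∑ f ∈ K.faces with f.1 = v, InnerProductGeometry.angle (Z f.2.1) (Z f.2.2) =
      ∑ f ∈ K.faces with f.1 = v, (Complex.arg (Z f.2.2) - Complex.arg (Z f.2.1) +
        (if 0 ≤ (Z f.2.1).im ∧ (Z f.2.2).im < 0 then 2 * Real.pi else 0)) := by
    refine Finset.sum_congr rfl fun f hf => ?_
    rw [Finset.mem_filter] at hf
    exact angle_eq_arg _ _ (hZ f hf.1 hf.2)
  rw [h1, Finset.sum_add_distrib, Finset.sum_sub_distrib,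
    sum_link hK hv (fun u => Complex.arg (Z u)), sub_self, zero_add, ← Finset.sum_filter,
    Finset.sum_const, nsmul_eq_mul]
  ring

end Sum

/-! ### Spherical angles -/

/-- The direction of `x` seen from `n`, as a complex number; `e` is a tangent vector at `n`. -/
noncomputable def dir (n e x : EuclideanSpace ℝ (Fin 3)) : ℂ := ⟨⟪e, x⟫_ℝ, det3 n e x⟩

theorem det3_eq (a b c : EuclideanSpace ℝ (Fin 3)) : det3 a b c =
    a 0 * (b 1 * c 2 - b 2 * c 1) - a 1 * (b 0 * c 2 - b 2 * c 0) +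
      a 2 * (b 0 * c 1 - b 1 * c 0) := by
  unfold det3
  rw [Matrix.det_fin_three]
  simp
  ring

theorem inner3_eq (a b : EuclideanSpace ℝ (Fin 3)) :
    ⟪a, b⟫_ℝ = a 0 * b 0 + a 1 * b 1 + a 2 * b 2 := by
  rw [EuclideanSpace.inner_eq_star_dotProduct]
  simp [dotProduct, Fin.sum_univ_three]
  ring

theorem sphAngle_eq {n e : EuclideanSpace ℝ (Fin 3)} (hn : ‖n‖ = 1) (hne : ⟪n, e⟫_ℝ = 0)
    (he : e ≠ 0) (x y : EuclideanSpace ℝ (Fin 3)) :
    sphAngle n x y = InnerProductGeometry.angle (dir n e x) (dir n e y) := by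
  have hn2 : ⟪n, n⟫_ℝ = 1 := by rw [real_inner_self_eq_norm_sq, hn]; norm_num
  have he2 : 0 < ⟪e, e⟫_ℝ := by
    rw [real_inner_self_eq_norm_sq]
    have := norm_pos_iff.2 he
    positivity
  have hin : ∀ a b : EuclideanSpace ℝ (Fin 3),
      ⟪e, e⟫_ℝ * ⟪a - ⟪n, a⟫_ℝ • n, b - ⟪n, b⟫_ℝ • n⟫_ℝ = ⟪dir n e a, dir n e b⟫_ℝ := by
    intro a b
    have h1 : ⟪a - ⟪n, a⟫_ℝ • n, b - ⟪n, b⟫_ℝ • n⟫_ℝ = ⟪a, b⟫_ℝ - ⟪n, a⟫_ℝ * ⟪n, b⟫_ℝ := by
      rw [inner_sub_left, inner_sub_right, inner_sub_right, inner_smul_left, inner_smul_right,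
        inner_smul_left, inner_smul_right, hn2, real_inner_comm n a]
      simp
      ring
    have h2 : ⟪dir n e a, dir n e b⟫_ℝ = ⟪e, a⟫_ℝ * ⟪e, b⟫_ℝ + det3 n e a * det3 n e b := by
      rw [Complex.inner]
      simp [dir, Complex.mul_re]
      ring
    rw [h1, h2, det3_eq, det3_eq]
    rw [inner3_eq] at hn2 hne
    simp only [inner3_eq]
    linear_combination (-((e 0 * e 0 + e 1 * e 1 + e 2 * e 2) *
      (a 0 * b 0 + a 1 * b 1 + a 2 * b 2)) + (e 0 * b 0 + e 1 * b 1 + e 2 * b 2) *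
      (e 0 * a 0 + e 1 * a 1 + e 2 * a 2)) * hn2 + (-((e 0 * b 0 + e 1 * b 1 + e 2 * b 2) *
      (a 0 * n 0 + a 1 * n 1 + a 2 * n 2)) - (n 0 * b 0 + n 1 * b 1 + n 2 * b 2) *
      (a 0 * e 0 + a 1 * e 1 + a 2 * e 2) + (n 0 * e 0 + n 1 * e 1 + n 2 * e 2) *
      (a 0 * b 0 + a 1 * b 1 + a 2 * b 2)) * hne
  have hnorm : ∀ a : EuclideanSpace ℝ (Fin 3),
      ‖dir n e a‖ = Real.sqrt ⟪e, e⟫_ℝ * ‖a - ⟪n, a⟫_ℝ • n‖ := by
    intro a
    have h := hin a a
    rw [real_inner_self_eq_norm_sq (a - ⟪n, a⟫_ℝ • n), real_inner_self_eq_norm_sq (dir n e a)] at h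
    rw [← Real.sqrt_sq (norm_nonneg (dir n e a)), ← h, Real.sqrt_mul he2.le,
      Real.sqrt_sq (norm_nonneg _)]
  unfold sphAngle InnerProductGeometry.angle
  congr 1
  rw [← hin, hnorm, hnorm]
  have hs : Real.sqrt ⟪e, e⟫_ℝ * Real.sqrt ⟪e, e⟫_ℝ = ⟪e, e⟫_ℝ := Real.mul_self_sqrt he2.le
  have : Real.sqrt ⟪e, e⟫_ℝ * ‖x - ⟪n, x⟫_ℝ • n‖ * (Real.sqrt ⟪e, e⟫_ℝ * ‖y - ⟪n, y⟫_ℝ • n‖) =
      ⟪e, e⟫_ℝ * (‖x - ⟪n, x⟫_ℝ • n‖ * ‖y - ⟪n, y⟫_ℝ • n‖) := by
    rw [mul_mul_mul_comm, hs]
  rw [this, mul_div_mul_left _ _ he2.ne']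

theorem dir_cross {n e : EuclideanSpace ℝ (Fin 3)} (hne : ⟪n, e⟫_ℝ = 0)
    (x y : EuclideanSpace ℝ (Fin 3)) :
    (conj (dir n e x) * dir n e y).im = ⟪e, e⟫_ℝ * det3 n x y := by
  have h2 : (conj (dir n e x) * dir n e y).im = ⟪e, x⟫_ℝ * det3 n e y - det3 n e x * ⟪e, y⟫_ℝ := by
    simp [dir, Complex.mul_im]
    ring
  rw [h2, det3_eq, det3_eq, det3_eq]
  rw [inner3_eq] at hne
  simp only [inner3_eq]
  linear_combination (-(e 0 * (x 1 * y 2 - x 2 * y 1) - e 1 * (x 0 * y 2 - x 2 * y 0) +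
      e 2 * (x 0 * y 1 - x 1 * y 0))) * hne

section SphSum

variable {V : Type} [Fintype V] [DecidableEq V]

/-- The total angle of a packing of the sphere at a vertex, by counting sign changes. -/
theorem sphAngleSum_eq {L : OComplex V} (hL : L.IsSurface) {v : V} (hv : L.IsInterior v)
    {P : V → SphCircle} (hP : IsSphPacking L P) (e : EuclideanSpace ℝ (Fin 3))
    (hne : ⟪(P v).center, e⟫_ℝ = 0) (he : e ≠ 0) (k : ℕ)
    (hk : ((L.faces.filter fun f => f.1 = v).filter
        fun f => 0 ≤ det3 (P v).center e (P f.2.1).center ∧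
          det3 (P v).center e (P f.2.2).center < 0).card = 1 + k) :
    sphAngleSum L P v = 2 * Real.pi * (1 + k) := by
  have he2 : 0 < ⟪e, e⟫_ℝ := by
    rw [real_inner_self_eq_norm_sq]
    have := norm_pos_iff.2 he
    positivity
  unfold sphAngleSum
  have h1 : ∑ f ∈ L.faces with f.1 = v,
      sphAngle (P f.1).center (P f.2.1).center (P f.2.2).center =
      ∑ f ∈ L.faces with f.1 = v, InnerProductGeometry.angle
        ((fun u => dir (P v).center e (P u).center) f.2.1)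
        ((fun u => dir (P v).center e (P u).center) f.2.2) := by
    refine Finset.sum_congr rfl fun f hf => ?_
    rw [Finset.mem_filter] at hf
    rw [hf.2]
    exact sphAngle_eq (P v).norm_center hne he _ _
  have h2 := sum_angle hL hv (fun u => dir (P v).center e (P u).center) (by
    rintro ⟨a, b, c⟩ hf rfl
    simp only
    rw [dir_cross hne]
    exact mul_pos he2 (hP _ _ _ hf).2.2.2)
  have h3 : ((L.faces.filter fun f => f.1 = v).filter
      fun f => 0 ≤ ((fun u => dir (P v).center e (P u).center) f.2.1).im ∧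
        ((fun u => dir (P v).center e (P u).center) f.2.2).im < 0).card = 1 + k := by
    rw [← hk]
    rfl
  rw [h1, h2, h3]
  push_cast
  ring

end SphSum

end Pool.Agent.Helper67.CP
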