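import Pool.Agent.Helper67.CP.Defs

set_option linter.unusedSectionVars false

namespace Pool.Agent.Helper67.CP

open OComplex

section General

variable {V : Type} [Fintype V] [DecidableEq V] (K : OComplex V)

theorem adj_iff (u v : V) : K.Adj u v ↔
    ∃ f ∈ K.faces, (f.1 = u ∧ f.2.1 = v) ∨ (f.1 = v ∧ f.2.1 = u) := by
  constructor
  · rintro (⟨w, h⟩ | ⟨w, h⟩)
    · exact ⟨_, h, Or.inl ⟨rfl, rfl⟩⟩
    · exact ⟨_, h, Or.inr ⟨rfl, rfl⟩⟩
  · rintro ⟨⟨a, b, c⟩, h, ⟨rfl, rfl⟩ | ⟨rfl, rfl⟩⟩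
    · exact Or.inl ⟨c, h⟩
    · exact Or.inr ⟨c, h⟩

theorem isInterior_iff (v : V) : K.IsInterior v ↔
    ∀ f ∈ K.faces, (f.1 = v ∨ f.2.1 = v) → ∃ g ∈ K.faces, g.1 = f.2.1 ∧ g.2.1 = f.1 := by
  constructor
  · rintro h ⟨a, b, c⟩ hf (rfl | rfl)
    · obtain ⟨w, hw⟩ := (h b (Or.inl ⟨c, hf⟩)).2
      exact ⟨_, hw, rfl, rfl⟩
    · obtain ⟨w, hw⟩ := (h a (Or.inr ⟨c, hf⟩)).1
      exact ⟨_, hw, rfl, rfl⟩
  · intro h u hu
    rcases hu with ⟨w, hw⟩ | ⟨w, hw⟩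
    · obtain ⟨⟨a, b, c⟩, hg, h1, h2⟩ := h _ hw (Or.inl rfl)
      simp only at h1 h2
      subst h1 h2
      exact ⟨⟨w, hw⟩, ⟨c, hg⟩⟩
    · obtain ⟨⟨a, b, c⟩, hg, h1, h2⟩ := h _ hw (Or.inr rfl)
      simp only at h1 h2
      subst h1 h2
      exact ⟨⟨c, hg⟩, ⟨w, hw⟩⟩

/-- Transport of surfaces along a bijection of the vertices. -/
theorem isSurface_transport {W : Type} [Fintype W] [DecidableEq W] (L : OComplex W)
    (e : W ≃ V) (he : ∀ u v w, (u, v, w) ∈ L.faces ↔ (e u, e v, e w) ∈ K.faces)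
    (hK : K.IsSurface) : L.IsSurface := by
  have hadj : ∀ u v, L.Adj u v ↔ K.Adj (e u) (e v) := by
    intro u v
    constructor
    · rintro (⟨w, h⟩ | ⟨w, h⟩)
      · exact Or.inl ⟨_, (he _ _ _).1 h⟩
      · exact Or.inr ⟨_, (he _ _ _).1 h⟩
    · rintro (⟨w, h⟩ | ⟨w, h⟩)
      · exact Or.inl ⟨e.symm w, (he _ _ _).2 (by rwa [e.apply_symm_apply])⟩
      · exact Or.inr ⟨e.symm w, (he _ _ _).2 (by rwa [e.apply_symm_apply])⟩
  refine ⟨fun u v w h => (he _ _ _).2 (hK.rot _ _ _ ((he _ _ _).1 h)),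
    fun u v w h huv => hK.ne _ _ _ ((he _ _ _).1 h) (congrArg e huv),
    fun u v w w' h h' => e.injective (hK.uniq _ _ _ _ ((he _ _ _).1 h) ((he _ _ _).1 h')),
    fun u v w h h' => hK.simplicial _ _ _ ((he _ _ _).1 h) ((he _ _ _).1 h'), fun v => ?_,
    fun u v => ?_⟩
  · obtain ⟨l, l1, l2, l3, l4⟩ := hK.link (e v)
    refine ⟨l.map e.symm, by simpa using l1, l2.map e.symm.injective, fun u => ?_, ?_⟩
    · rw [hadj, ← l3, List.mem_map]
      constructor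
      · rintro ⟨a, ha, rfl⟩
        rwa [e.apply_symm_apply]
      · intro h
        exact ⟨_, h, e.symm_apply_apply u⟩
    · rw [List.isChain_map]
      refine l4.imp fun a b hab => ?_
      rw [he, e.apply_symm_apply, e.apply_symm_apply]
      exact hab
  · have := hK.connected (e u) (e v)
    have key : ∀ a b, Relation.ReflTransGen K.Adj a b →
        Relation.ReflTransGen L.Adj (e.symm a) (e.symm b) := by
      intro a b hab
      induction hab with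
      | refl => exact Relation.ReflTransGen.refl
      | tail _ hbc ih =>
        refine ih.tail ?_
        rw [hadj, e.apply_symm_apply, e.apply_symm_apply]
        exact hbc
    have h2 := key _ _ this
    rwa [e.symm_apply_apply, e.symm_apply_apply] at h2

theorem isInterior_transport {W : Type} [Fintype W] [DecidableEq W] (L : OComplex W)
    (e : W ≃ V) (he : ∀ u v w, (u, v, w) ∈ L.faces ↔ (e u, e v, e w) ∈ K.faces) (v : W)
    (hv : K.IsInterior (e v)) : L.IsInterior v := by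
  intro u hu
  have hu' : K.Adj (e v) (e u) := by
    rcases hu with ⟨w, h⟩ | ⟨w, h⟩
    · exact Or.inl ⟨_, (he _ _ _).1 h⟩
    · exact Or.inr ⟨_, (he _ _ _).1 h⟩
  obtain ⟨⟨w, hw⟩, ⟨w', hw'⟩⟩ := hv _ hu'
  exact ⟨⟨e.symm w, (he _ _ _).2 (by rwa [e.apply_symm_apply])⟩,
    ⟨e.symm w', (he _ _ _).2 (by rwa [e.apply_symm_apply])⟩⟩

theorem euler_transport {W : Type} [Fintype W] [DecidableEq W] (L : OComplex W)
    (e : W ≃ V) (he : L.faces.image (fun f => (e f.1, e f.2.1, e f.2.2)) = K.faces) :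
    L.euler = K.euler := by
  have inj : Function.Injective (fun f : W × W × W => (e f.1, e f.2.1, e f.2.2)) := by
    rintro ⟨a, b, c⟩ ⟨a', b', c'⟩ h
    simp only [Prod.mk.injEq, e.injective.eq_iff] at h
    obtain ⟨h1, h2, h3⟩ := h
    rw [h1, h2, h3]
  have hcard : L.faces.card = K.faces.card := by
    rw [← he, Finset.card_image_of_injective _ inj]
  have hedge : L.edges.card = K.edges.card := by
    have : K.edges = L.edges.image (Sym2.map e) := by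
      unfold OComplex.edges
      rw [← he, Finset.image_image, Finset.image_image]
      rfl
    rw [this, Finset.card_image_of_injective _ (Sym2.map.injective e.injective)]
  unfold OComplex.euler
  rw [hcard, hedge, Fintype.card_congr e]

end General

/-- The complex on `Fin (n + 1)` with the given list of positively oriented triples. -/
def ofList (n : ℕ) (l : List (ℕ × ℕ × ℕ)) : OComplex (Fin (n + 1)) where
  faces := (l.map fun f => (Fin.ofNat (n + 1) f.1, Fin.ofNat (n + 1) f.2.1,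
    Fin.ofNat (n + 1) f.2.2)).toFinset

theorem mem_ofList {n : ℕ} {l : List (ℕ × ℕ × ℕ)}
    (hl : ∀ f ∈ l, f.1 < n + 1 ∧ f.2.1 < n + 1 ∧ f.2.2 < n + 1) (u v w : Fin (n + 1)) :
    (u, v, w) ∈ (ofList n l).faces ↔ (u.1, v.1, w.1) ∈ l := by
  unfold ofList
  rw [List.mem_toFinset, List.mem_map]
  constructor
  · rintro ⟨⟨a, b, c⟩, hf, h⟩
    obtain ⟨h1, h2, h3⟩ := hl _ hf
    simp only [Prod.mk.injEq] at h
    obtain ⟨rfl, rfl, rfl⟩ := h
    simp only [Fin.ofNat]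
    rw [Nat.mod_eq_of_lt h1, Nat.mod_eq_of_lt h2, Nat.mod_eq_of_lt h3]
    exact hf
  · intro h
    refine ⟨_, h, ?_⟩
    have key : ∀ a : Fin (n + 1), Fin.ofNat (n + 1) a.1 = a := fun a =>
      Fin.ext (Nat.mod_eq_of_lt a.2)
    simp only [key]

theorem isInterior_ofList {n : ℕ} {l : List (ℕ × ℕ × ℕ)}
    (hl : ∀ f ∈ l, f.1 < n + 1 ∧ f.2.1 < n + 1 ∧ f.2.2 < n + 1) (v : Fin (n + 1)) :
    (ofList n l).IsInterior v ↔
    ∀ f ∈ l, (f.1 = v.1 ∨ f.2.1 = v.1) → ∃ g ∈ l, g.1 = f.2.1 ∧ g.2.1 = f.1 := by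
  rw [isInterior_iff]
  constructor
  · rintro h ⟨a, b, c⟩ hf hv
    obtain ⟨h1, h2, h3⟩ := hl _ hf
    have hmem : ((⟨a, h1⟩ : Fin (n + 1)), (⟨b, h2⟩ : Fin (n + 1)), (⟨c, h3⟩ : Fin (n + 1))) ∈
        (ofList n l).faces := (mem_ofList hl _ _ _).2 hf
    obtain ⟨⟨x, y, z⟩, hg, hx, hy⟩ := h _ hmem (by simpa [Fin.ext_iff] using hv)
    refine ⟨(x.1, y.1, z.1), (mem_ofList hl _ _ _).1 hg, ?_, ?_⟩
    · simpa [Fin.ext_iff] using hx
    · simpa [Fin.ext_iff] using hy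
  · rintro h ⟨a, b, c⟩ hf hv
    obtain ⟨⟨x, y, z⟩, hg, hx, hy⟩ := h _ ((mem_ofList hl _ _ _).1 hf)
      (by simpa [Fin.ext_iff] using hv)
    obtain ⟨h1, h2, h3⟩ := hl _ hg
    refine ⟨((⟨x, h1⟩ : Fin (n + 1)), (⟨y, h2⟩ : Fin (n + 1)), (⟨z, h3⟩ : Fin (n + 1))),
      (mem_ofList hl _ _ _).2 hg, ?_, ?_⟩
    · simpa [Fin.ext_iff] using hx
    · simpa [Fin.ext_iff] using hy

theorem isSurface_ofList {n : ℕ} {l : List (ℕ × ℕ × ℕ)}
    (h0 : ∀ f ∈ l, f.1 < n + 1 ∧ f.2.1 < n + 1 ∧ f.2.2 < n + 1)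
    (h1 : ∀ f ∈ l, (f.2.1, f.2.2, f.1) ∈ l)
    (h2 : ∀ f ∈ l, f.1 ≠ f.2.1)
    (h3 : ∀ f ∈ l, ∀ g ∈ l, f.1 = g.1 → f.2.1 = g.2.1 → f.2.2 = g.2.2)
    (h4 : ∀ f ∈ l, (f.2.1, f.1, f.2.2) ∉ l) (lk : Fin (n + 1) → List (Fin (n + 1)))
    (h5 : ∀ v, 2 ≤ (lk v).length ∧ (lk v).Nodup ∧
      (lk v).IsChain fun x y => (v.1, x.1, y.1) ∈ l)
    (h6 : ∀ f ∈ l, Fin.ofNat (n + 1) f.2.1 ∈ lk (Fin.ofNat (n + 1) f.1) ∧
      Fin.ofNat (n + 1) f.1 ∈ lk (Fin.ofNat (n + 1) f.2.1))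
    (h7 : ∀ v, ∀ u ∈ lk v, ∃ f ∈ l, (f.1 = v.1 ∧ f.2.1 = u.1) ∨ (f.1 = u.1 ∧ f.2.1 = v.1))
    (root : Fin (n + 1)) (par : Fin (n + 1) → Fin (n + 1)) (N : ℕ)
    (h8 : ∀ v, v = root ∨ par v ∈ lk v)
    (h9 : ∀ v, par^[N] v = root) (h10 : par root = root) : (ofList n l).IsSurface := by
  have ofN : ∀ a : Fin (n + 1), Fin.ofNat (n + 1) a.1 = a := by
    intro a
    exact Fin.ext (Nat.mod_eq_of_lt a.2)
  have hlk : ∀ v u, u ∈ lk v ↔ (ofList n l).Adj v u := by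
    intro v u
    constructor
    · intro hu
      obtain ⟨⟨a, b, c⟩, hf, hv⟩ := h7 v u hu
      obtain ⟨g1, g2, g3⟩ := h0 _ hf
      rcases hv with ⟨ha, hb⟩ | ⟨ha, hb⟩
      · simp only at ha hb
        subst ha hb
        exact Or.inl ⟨⟨c, g3⟩, (mem_ofList h0 _ _ _).2 hf⟩
      · simp only at ha hb
        subst ha hb
        exact Or.inr ⟨⟨c, g3⟩, (mem_ofList h0 _ _ _).2 hf⟩
    · rintro (⟨w, h⟩ | ⟨w, h⟩)
      · have := (h6 _ ((mem_ofList h0 _ _ _).1 h)).1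
        simpa only [ofN] using this
      · have := (h6 _ ((mem_ofList h0 _ _ _).1 h)).2
        simpa only [ofN] using this
  have symm : ∀ u v, (ofList n l).Adj u v → (ofList n l).Adj v u := by
    rintro u v (h | h)
    · exact Or.inr h
    · exact Or.inl h
  have hpar : ∀ v, Relation.ReflTransGen (ofList n l).Adj v (par v) := by
    intro v
    rcases h8 v with h | h
    · rw [h, h10]
    · exact Relation.ReflTransGen.single ((hlk _ _).1 h)
  have hparn : ∀ k v, Relation.ReflTransGen (ofList n l).Adj v (par^[k] v) := by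
    intro k
    induction k with
    | zero => intro v; exact Relation.ReflTransGen.refl
    | succ k ih =>
      intro v
      rw [Function.iterate_succ_apply]
      exact (hpar v).trans (ih (par v))
  have hroot : ∀ v, Relation.ReflTransGen (ofList n l).Adj v root := fun v => by
    have := hparn N v
    rwa [h9] at this
  have rsymm : ∀ u v, Relation.ReflTransGen (ofList n l).Adj u v →
      Relation.ReflTransGen (ofList n l).Adj v u := by
    intro u v h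
    induction h with
    | refl => exact Relation.ReflTransGen.refl
    | tail _ hbc ih => exact (Relation.ReflTransGen.single (symm _ _ hbc)).trans ih
  refine ⟨fun u v w h => (mem_ofList h0 _ _ _).2 (h1 _ ((mem_ofList h0 _ _ _).1 h)),
    fun u v w h huv => h2 _ ((mem_ofList h0 _ _ _).1 h) (congrArg Fin.val huv),
    fun u v w w' h h' => Fin.ext (h3 _ ((mem_ofList h0 _ _ _).1 h) _
      ((mem_ofList h0 _ _ _).1 h') rfl rfl),
    fun u v w h h' => h4 _ ((mem_ofList h0 _ _ _).1 h) ((mem_ofList h0 _ _ _).1 h'),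
    fun v => ⟨lk v, (h5 v).1, (h5 v).2.1, fun u => hlk v u, ?_⟩,
    fun u v => (hroot u).trans (rsymm _ _ (hroot v))⟩
  exact (h5 v).2.2.imp fun a b hab => (mem_ofList h0 _ _ _).2 hab

/-- The disc: 0 N, 1 S, 2 x0, 3 x1, 4 x2, 5 y0, 6 y1, 7 y2, 8 m0, 9 m1, 10 m2, 11 b1, 12 b2. -/
def list13 : List (ℕ × ℕ × ℕ) :=
  [(0, 2, 3), (2, 3, 0), (3, 0, 2), (1, 6, 5), (6, 5, 1), (5, 1, 6), (11, 2, 8), (2, 8, 11),
   (8, 11, 2), (11, 8, 5), (8, 5, 11), (5, 11, 8), (0, 3, 4), (3, 4, 0), (4, 0, 3), (1, 7, 6),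
   (7, 6, 1), (6, 1, 7), (11, 3, 2), (3, 2, 11), (2, 11, 3), (11, 5, 6), (5, 6, 11), (6, 11, 5),
   (11, 9, 3), (9, 3, 11), (3, 11, 9), (11, 6, 9), (6, 9, 11), (9, 11, 6), (12, 3, 9),
   (3, 9, 12), (9, 12, 3), (12, 9, 6), (9, 6, 12), (6, 12, 9), (12, 4, 3), (4, 3, 12),
   (3, 12, 4), (12, 6, 7), (6, 7, 12), (7, 12, 6), (12, 10, 4), (10, 4, 12), (4, 12, 10),
   (12, 7, 10), (7, 10, 12), (10, 12, 7)]

def K13 : OComplex (Fin 13) := ofList 12 list13

theorem list13_lt : ∀ f ∈ list13, f.1 < 12 + 1 ∧ f.2.1 < 12 + 1 ∧ f.2.2 < 12 + 1 := by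
  decide +kernel

theorem K13_interior (v : Fin 13) : K13.IsInterior v ↔ v ∈ [3, 6, 9, 11, 12] := by
  unfold K13
  rw [isInterior_ofList list13_lt]
  revert v
  decide +kernel

theorem K13_euler : K13.euler = 1 := by
  decide +kernel

/-- The links of the vertices of `K13`. -/
def lk13 : Fin 13 → List (Fin 13) :=
  ![[2, 3, 4], [7, 6, 5], [8, 11, 3, 0], [4, 0, 2, 11, 9, 12], [0, 3, 12, 10],
    [1, 6, 11, 8], [5, 1, 7, 12, 9, 11], [10, 12, 6, 1], [5, 11, 2], [12, 3, 11, 6], [4, 12, 7],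
    [9, 3, 2, 8, 5, 6], [10, 4, 3, 9, 6, 7]]

def par13 : Fin 13 → Fin 13 := ![3, 6, 3, 9, 3, 6, 9, 6, 11, 9, 12, 9, 9]

theorem K13_surface : K13.IsSurface :=
  isSurface_ofList (by decide +kernel) (by decide +kernel) (by decide +kernel)
    (by decide +kernel) (by decide +kernel) lk13 (by decide +kernel) (by decide +kernel)
    (by decide +kernel) 9 par13 3 (by decide +kernel) (by decide +kernel) (by decide +kernel)

theorem K13_disc : K13.IsClosedDisc :=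
  ⟨K13_surface, ⟨0, by rw [K13_interior]; decide⟩, K13_euler⟩

end Pool.Agent.Helper67.CP
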