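import Pool.Agent.Helper67.CP.Comb

set_option linter.unusedSectionVars false

namespace Pool.Agent.Helper67.CP

open OComplex

/-- The sphere: 0 N, 1 S, 2..5 x0..x3, 6..9 y0..y3, 10..13 m0..m3, 14..17 b0..b3. -/
def list18 : List (ℕ × ℕ × ℕ) :=
  [(0, 2, 3), (2, 3, 0), (3, 0, 2), (0, 3, 4), (3, 4, 0), (4, 0, 3), (0, 4, 5), (4, 5, 0),
   (5, 0, 4), (0, 5, 2), (5, 2, 0), (2, 0, 5), (1, 7, 6), (7, 6, 1), (6, 1, 7), (1, 8, 7),
   (8, 7, 1), (7, 1, 8), (1, 9, 8), (9, 8, 1), (8, 1, 9), (1, 6, 9), (6, 9, 1), (9, 1, 6),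
   (14, 2, 5), (2, 5, 14), (5, 14, 2), (15, 3, 2), (3, 2, 15), (2, 15, 3), (16, 4, 3),
   (4, 3, 16), (3, 16, 4), (17, 5, 4), (5, 4, 17), (4, 17, 5), (14, 9, 6), (9, 6, 14),
   (6, 14, 9), (15, 6, 7), (6, 7, 15), (7, 15, 6), (16, 7, 8), (7, 8, 16), (8, 16, 7),
   (17, 8, 9), (8, 9, 17), (9, 17, 8), (14, 10, 2), (10, 2, 14), (2, 14, 10), (15, 11, 3),
   (11, 3, 15), (3, 15, 11), (16, 12, 4), (12, 4, 16), (4, 16, 12), (17, 13, 5), (13, 5, 17),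
   (5, 17, 13), (14, 6, 10), (6, 10, 14), (10, 14, 6), (15, 7, 11), (7, 11, 15), (11, 15, 7),
   (16, 8, 12), (8, 12, 16), (12, 16, 8), (17, 9, 13), (9, 13, 17), (13, 17, 9), (15, 2, 10),
   (2, 10, 15), (10, 15, 2), (16, 3, 11), (3, 11, 16), (11, 16, 3), (17, 4, 12), (4, 12, 17),
   (12, 17, 4), (14, 5, 13), (5, 13, 14), (13, 14, 5), (15, 10, 6), (10, 6, 15), (6, 15, 10),
   (16, 11, 7), (11, 7, 16), (7, 16, 11), (17, 12, 8), (12, 8, 17), (8, 17, 12), (14, 13, 9),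
   (13, 9, 14), (9, 14, 13)]

def L18 : OComplex (Fin 18) := ofList 17 list18

theorem list18_lt : ∀ f ∈ list18, f.1 < 17 + 1 ∧ f.2.1 < 17 + 1 ∧ f.2.2 < 17 + 1 := by
  decide +kernel

theorem L18_interior (v : Fin 18) : L18.IsInterior v := by
  unfold L18
  rw [isInterior_ofList list18_lt]
  revert v
  decide +kernel

theorem L18_euler : L18.euler = 2 := by
  decide +kernel

/-- The links of the vertices of `L18`. -/
def lk18 : Fin 18 → List (Fin 18) :=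
  ![[2, 3, 4, 5], [9, 8, 7, 6],
    [3, 0, 5, 14, 10, 15], [4, 0, 2, 15, 11, 16], [5, 0, 3, 16, 12, 17], [2, 0, 4, 17, 13, 14],
    [15, 10, 14, 9, 1, 7], [16, 11, 15, 6, 1, 8], [17, 12, 16, 7, 1, 9], [14, 13, 17, 8, 1, 6],
    [15, 2, 14, 6], [16, 3, 15, 7], [17, 4, 16, 8], [14, 5, 17, 9],
    [10, 2, 5, 13, 9, 6], [11, 3, 2, 10, 6, 7], [12, 4, 3, 11, 7, 8], [13, 5, 4, 12, 8, 9]]

def par18 : Fin 18 → Fin 18 := ![2, 6, 0, 0, 0, 0, 10, 15, 16, 14, 2, 3, 4, 5, 2, 3, 4, 5]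

theorem L18_surface : L18.IsSurface :=
  isSurface_ofList (by decide +kernel) (by decide +kernel) (by decide +kernel)
    (by decide +kernel) (by decide +kernel) lk18 (by decide +kernel) (by decide +kernel)
    (by decide +kernel) 0 (fun v => if v = 0 then 0 else par18 v) 6 (by decide +kernel)
    (by decide +kernel) (by decide +kernel)


end Pool.Agent.Helper67.CP
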