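import Pool.Agent.Helper67.CP.Comb2

set_option linter.unusedSectionVars false

namespace Pool.Agent.Helper67.CP

open OComplex

/-- Images of the vertices of `K13` in `L18`. -/
def tA : Fin 13 → Fin 18 := ![0, 1, 2, 3, 4, 6, 7, 8, 10, 11, 12, 15, 16]

/-- Images of the mirror vertices of `K13` in `L18`. -/
def tB : Fin 13 → Fin 18 := ![0, 1, 2, 5, 4, 6, 9, 8, 10, 13, 12, 14, 17]

/-- The vertices of the double of `K13` as vertices of `L18`. -/
def code : K13.DVert → Fin 18
  | Sum.inl v => tA v
  | Sum.inr v => tB v.1

theorem code_star (v : Fin 13) : code (K13.star v) = tB v := by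
  unfold OComplex.star
  split_ifs with h
  · rfl
  · rw [K13_interior] at h
    show tA v = tB v
    revert v
    decide +kernel

theorem code_inj : Function.Injective code := by
  have h1 : ∀ a b : Fin 13, tA a = tA b → a = b := by decide +kernel
  have h2 : ∀ a b : Fin 13, b ∈ ([3, 6, 9, 11, 12] : List (Fin 13)) → tA a ≠ tB b := by
    decide +kernel
  have h3 : ∀ a b : Fin 13, tB a = tB b → a = b := by decide +kernel
  rintro (a | ⟨a, ha⟩) (b | ⟨b, hb⟩) hab
  · exact congrArg Sum.inl (h1 _ _ hab)
  · exact absurd hab (h2 _ _ ((K13_interior _).1 hb))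
  · exact absurd hab.symm (h2 _ _ ((K13_interior _).1 ha))
  · exact congrArg Sum.inr (Subtype.ext (h3 _ _ hab))

theorem code_surj : Function.Surjective code := by
  have h : ∀ x : Fin 18, (∃ a, tA a = x) ∨ (∃ a, tB a = x) := by decide +kernel
  intro x
  rcases h x with ⟨a, ha⟩ | ⟨a, ha⟩
  · exact ⟨Sum.inl a, ha⟩
  · exact ⟨K13.star a, by rw [code_star, ha]⟩

/-- The identification of the vertices of the double with those of `L18`. -/
noncomputable def codeE : K13.DVert ≃ Fin 18 := Equiv.ofBijective code ⟨code_inj, code_surj⟩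

theorem codeE_apply (v : K13.DVert) : codeE v = code v := rfl


theorem double_image_aux : K13.faces.image (fun f => (tA f.1, tA f.2.1, tA f.2.2)) ∪
      K13.faces.image (fun f => (tB f.1, tB f.2.2, tB f.2.1)) = L18.faces := by
  decide +kernel

theorem double_faces (K : OComplex (Fin 13)) : K.double.faces =
    K.faces.image (fun f => ((Sum.inl f.1 : K.DVert), (Sum.inl f.2.1 : K.DVert),
      (Sum.inl f.2.2 : K.DVert))) ∪
    K.faces.image (fun f => (K.star f.1, K.star f.2.2, K.star f.2.1)) := rfl

theorem double_image :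
    K13.double.faces.image (fun f => (codeE f.1, codeE f.2.1, codeE f.2.2)) = L18.faces := by
  rw [← double_image_aux, double_faces, Finset.image_union, Finset.image_image,
    Finset.image_image]
  refine congrArg₂ (· ∪ ·) (Finset.image_congr fun f _ => ?_) (Finset.image_congr fun f _ => ?_)
  · exact Prod.ext rfl (Prod.ext rfl rfl)
  · exact Prod.ext (code_star _) (Prod.ext (code_star _) (code_star _))

theorem codeE_mem (u v w : K13.DVert) : (u, v, w) ∈ K13.double.faces ↔
    (codeE u, codeE v, codeE w) ∈ L18.faces := by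
  rw [← double_image, Finset.mem_image]
  constructor
  · intro h
    exact ⟨_, h, rfl⟩
  · rintro ⟨⟨a, b, c⟩, hf, h⟩
    simp only [Prod.mk.injEq, codeE.injective.eq_iff] at h
    obtain ⟨rfl, rfl, rfl⟩ := h
    exact hf

theorem double_sphere : K13.double.IsSphere := by
  refine ⟨?_, fun v => ?_, ?_⟩
  · exact isSurface_transport L18 _ codeE codeE_mem L18_surface
  · exact isInterior_transport L18 _ codeE codeE_mem v (L18_interior _)
  · rw [euler_transport L18 _ codeE double_image]
    exact L18_euler

/-- The rotation by a quarter turn about the axis `N S`. -/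
def rot18 : Fin 18 → Fin 18 := ![0, 1, 3, 4, 5, 2, 7, 8, 9, 6, 11, 12, 13, 10, 15, 16, 17, 14]

theorem rot18_inj : Function.Injective rot18 := by
  have h : ∀ a b : Fin 18, rot18 a = rot18 b → a = b := by decide +kernel
  exact fun a b => h a b

theorem rot18_bij : Function.Bijective rot18 := Finite.injective_iff_bijective.1 rot18_inj

noncomputable def rotE : Fin 18 ≃ Fin 18 := Equiv.ofBijective rot18 rot18_bij

theorem rot_image_aux : L18.faces.image (fun f => (rot18 f.1, rot18 f.2.1, rot18 f.2.2)) =
    L18.faces := by
  decide +kernel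

theorem rot_image : L18.faces.image (fun f => (rotE f.1, rotE f.2.1, rotE f.2.2)) =
    L18.faces := rot_image_aux

end Pool.Agent.Helper67.CP
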