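import Pool.Agent.Helper67.CP.Disc13

namespace Pool.Agent.Helper67.CP

/-- The disc packing from a solution of its two polynomial equations. -/
theorem ddat_of (x a : ℝ) (x1 : 0.76374 < x) (x2 : x < 0.76375) (a1 : 0.7498 < a) (a2 : a < 0.75)
    (g1 : 0.5622 < a ^ 2) (g2 : a ^ 2 < 0.5624)
    (H1 : a ^ 4 - 2 * a ^ 2 - 2 * x * a ^ 2 + 9 * x ^ 2 - 6 * x + 1 = 0)
    (H2 : a ^ 4 - 2 * x * (1 + x) * a ^ 2 + 4 * x ^ 3 - x ^ 2 = 0) : Nonempty DDat := by
  obtain ⟨N, hN⟩ : ∃ N, N = a ^ 2 * (1 - x) + 2 * x ^ 2 - x := ⟨_, rfl⟩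
  obtain ⟨D, hD⟩ : ∃ D, D = a + a ^ 2 + 1 - x := ⟨_, rfl⟩
  have xx1 : 0.5832 < x ^ 2 := by nlinarith
  have xx2 : x ^ 2 < 0.5834 := by nlinarith
  have hN1 : 0.53 < N := by
    rw [hN]
    nlinarith
  have hN2 : N < 0.54 := by
    rw [hN]
    nlinarith
  have xa1 : 0.57 < x * a := by nlinarith
  have xa2 : x * a < 0.575 := by nlinarith
  have hE3 : 0 < x * a + N := by linarith
  have hE2 : 0 < x + a := by linarith
  have hE1 : 0 < 1 + a := by linarith
  have hDp : 0 < D := by linarith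
  have k1 : 1.1 < x * a + N := by linarith
  have k2 : x * a + N < 1.115 := by linarith
  have k3 : 1.5135 < x + a := by linarith
  have k4 : x + a < 1.5138 := by linarith
  have k5 : 1.1 * 1.5135 < (x * a + N) * (x + a) := mul_lt_mul'' k1 k3 (by norm_num) (by norm_num)
  have k6 : (x * a + N) * (x + a) < 1.115 * 1.5138 := mul_lt_mul'' k2 k4 hE3.le hE2.le
  have k7 : 1.5135 * 1.7498 < (x + a) * (1 + a) :=
    mul_lt_mul'' k3 (by linarith) (by norm_num) (by norm_num)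
  have k8 : (x + a) * (1 + a) < 1.5138 * 1.75 := mul_lt_mul'' k4 (by linarith) hE2.le hE1.le
  have k9 : 0.7498 * 0.23625 < a * (1 - x) :=
    mul_lt_mul'' a1 (by linarith) (by norm_num) (by norm_num)
  have k10 : a * (1 - x) < 0.75 * 0.23626 :=
    mul_lt_mul'' a2 (by linarith) (by linarith) (by linarith)
  have k11 : 0.7498 * 0.23625 * 0.20134 < a * (1 - x) * (x - a ^ 2) :=
    mul_lt_mul'' k9 (by linarith) (by norm_num) (by norm_num)
  have k12 : a * (1 - x) * (x - a ^ 2) < 0.75 * 0.23626 * 0.20155 :=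
    mul_lt_mul'' k10 (by linarith) (by nlinarith) (by linarith)
  have k13 : 0 < a ^ 2 + 1 - 2 * x := by linarith
  have k14 : x ^ 2 * (a ^ 2 + 1 - 2 * x) < 0.5834 * 0.035 :=
    mul_lt_mul'' xx2 (by linarith) (by positivity) k13.le
  have hp : 0 < (x * a + N) * (x + a) := by positivity
  have hq : 0 < (x + a) * (1 + a) := by positivity
  have hT1 : ((3 * x - 1 - a ^ 2) / D) ^ 2 + ((a ^ 2 + x - 1) / D) ^ 2 = (1 - a / D) ^ 2 := by
    have : 1 - a / D = (a ^ 2 + 1 - x) / D := by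
      field_simp
      rw [hD]
      ring
    rw [this, div_pow, div_pow, div_pow, ← add_div]
    congr 1
    linear_combination H1
  norm_num at x1 x2 a1 a2 g1 g2 xx1 xx2 hN1 hN2 xa1 xa2 k1 k2 k3 k4 k5 k6 k7 k8 k9 k10 k11 k12 k14
  refine ⟨{ cN := 1 / (1 + a), rN := a / (1 + a), cM := a / (x + a), rM := x / (x + a),
            r := (x - a) / (x + a), cx := (x - a ^ 2) / ((x + a) * (1 + a)),
            rx := a * (1 - x) / ((x + a) * (1 + a)),
            cb := a * (1 - x) * (x - a ^ 2) / ((x * a + N) * (x + a)),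
            rb := x ^ 2 * (a ^ 2 + 1 - 2 * x) / ((x * a + N) * (x + a)),
            R := a / D, X := (3 * x - 1 - a ^ 2) / D, Y := (a ^ 2 + x - 1) / D,
            e1 := ?_, e2 := ?_, e3 := ?_, e4 := ?_, e5 := ?_, e6 := ?_, T1 := hT1, T2 := ?_,
            T3 := ?_, T4 := ?_, T5 := ?_, T6 := ?_, p1 := ?_, p2 := ?_, p3 := ?_, p4 := ?_,
            p5 := ?_, p6 := ?_, p6' := ?_, p7 := ?_, p7' := ?_, p8 := ?_, p8' := ?_, p9 := ?_,
            p9' := ?_, p10 := ?_, p10' := ?_, p11 := ?_, p12 := ?_, p13 := ?_ }⟩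
  · field_simp
  · field_simp
    ring
  · field_simp
  · field_simp
    ring
  · field_simp
    ring
  · field_simp
    rw [hN]
    ring
  · have h : 2 * (1 / (1 + a)) * ((a ^ 2 + x - 1) / D) + (1 / (1 + a)) ^ 2 - (a / (1 + a)) ^ 2 -
        2 * (a / (1 + a)) * (a / D) + 1 - 2 * (a / D) = 0 := by
      field_simp
      rw [hD]
      ring
    linear_combination hT1 + h
  · have h : 2 * (a / (x + a)) * ((3 * x - 1 - a ^ 2) / D) + (a / (x + a)) ^ 2 -
        (x / (x + a)) ^ 2 - 2 * (x / (x + a)) * (a / D) + 1 - 2 * (a / D) = 0 := by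
      field_simp
      rw [hD]
      ring
    linear_combination hT1 + h
  · have h : 2 * ((x - a ^ 2) / ((x + a) * (1 + a))) * ((a ^ 2 + x - 1) / D) +
        ((x - a ^ 2) / ((x + a) * (1 + a))) ^ 2 - (a * (1 - x) / ((x + a) * (1 + a))) ^ 2 -
        2 * (a / D) * (a * (1 - x) / ((x + a) * (1 + a))) + 1 - 2 * (a / D) = 0 := by
      field_simp
      rw [hD]
      ring
    linear_combination hT1 + h
  · have h : -2 * (a * (1 - x) * (x - a ^ 2) / ((x * a + N) * (x + a))) *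
        ((3 * x - 1 - a ^ 2) / D) +
        (a * (1 - x) * (x - a ^ 2) / ((x * a + N) * (x + a))) ^ 2 -
        (x ^ 2 * (a ^ 2 + 1 - 2 * x) / ((x * a + N) * (x + a))) ^ 2 -
        2 * (a / D) * (x ^ 2 * (a ^ 2 + 1 - 2 * x) / ((x * a + N) * (x + a))) + 1 -
        2 * (a / D) = 0 := by
      field_simp
      rw [hD, hN]
      ring
    linear_combination hT1 + h
  · have h1 : (a * (1 - x) * (x - a ^ 2) / ((x * a + N) * (x + a))) ^ 2 -
        (x ^ 2 * (a ^ 2 + 1 - 2 * x) / ((x * a + N) * (x + a))) ^ 2 =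
        (x - a) / (x + a) * ((x * a - N) / (x * a + N)) := by
      field_simp
      rw [hN]
      ring
    have h2 : ((x - a ^ 2) / ((x + a) * (1 + a))) ^ 2 -
        (a * (1 - x) / ((x + a) * (1 + a))) ^ 2 = (x - a) / (x + a) * ((1 - a) / (1 + a)) := by
      field_simp
      ring
    have h3 : (x - a) / (x + a) * ((x * a - N) / (x * a + N)) +
        (x - a) / (x + a) * ((1 - a) / (1 + a)) -
        2 * (x ^ 2 * (a ^ 2 + 1 - 2 * x) / ((x * a + N) * (x + a))) *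
          (a * (1 - x) / ((x + a) * (1 + a))) =
        2 * a * (1 - x) * (a ^ 4 - 2 * x * (1 + x) * a ^ 2 + 4 * x ^ 3 - x ^ 2) /
          ((x + a) ^ 2 * (x * a + N) * (1 + a)) := by
      field_simp
      rw [hN]
      ring
    rw [H2, mul_zero, zero_div] at h3
    linear_combination h1 + h2 + h3
  · positivity
  · positivity
  · exact div_pos (by linarith) hE2
  · exact div_pos (mul_pos (by linarith) (by linarith)) hq
  · exact div_pos (mul_pos (by positivity) k13) hp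
  · rw [lt_div_iff₀ hDp, hD]
    linarith
  · rw [div_lt_iff₀ hDp, hD]
    linarith
  · rw [lt_div_iff₀ hDp, hD]
    linarith
  · rw [div_lt_iff₀ hDp, hD]
    linarith
  · rw [lt_div_iff₀ hDp, hD]
    linarith
  · rw [div_lt_iff₀ hDp, hD]
    linarith
  · rw [lt_div_iff₀ hq]
    linarith
  · rw [div_lt_iff₀ hq]
    linarith
  · rw [lt_div_iff₀ hp]
    linarith
  · rw [div_lt_iff₀ hp]
    linarith
  · rw [lt_div_iff₀ hE1]
    linarith
  · rw [div_lt_iff₀ hq]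
    linarith
  · rw [div_lt_iff₀ hp]
    linarith

theorem exists_ddat : Nonempty DDat := by
  obtain ⟨x, ⟨x1, x2⟩, hx⟩ : ∃ x ∈ Set.Ioo (0.76374 : ℝ) 0.76375,
      36 * x ^ 6 - 80 * x ^ 5 + 112 * x ^ 4 - 124 * x ^ 3 + 72 * x ^ 2 - 16 * x + 1 = 0 := by
    have hc : ContinuousOn (fun x : ℝ => 36 * x ^ 6 - 80 * x ^ 5 + 112 * x ^ 4 - 124 * x ^ 3 +
        72 * x ^ 2 - 16 * x + 1) (Set.Icc (0.76374 : ℝ) 0.76375) := by fun_prop
    have h := intermediate_value_Ioo' (by norm_num : (0.76374 : ℝ) ≤ 0.76375) hc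
    have h0 : (0 : ℝ) ∈ Set.Ioo
        ((fun x : ℝ => 36 * x ^ 6 - 80 * x ^ 5 + 112 * x ^ 4 - 124 * x ^ 3 +
          72 * x ^ 2 - 16 * x + 1) 0.76375)
        ((fun x : ℝ => 36 * x ^ 6 - 80 * x ^ 5 + 112 * x ^ 4 - 124 * x ^ 3 +
          72 * x ^ 2 - 16 * x + 1) 0.76374) := by
      constructor <;> norm_num
    obtain ⟨x, hx, hx'⟩ := h h0
    exact ⟨x, hx, hx'⟩
  obtain ⟨G, hG⟩ : ∃ G : ℝ, G = (1 - 6 * x + 10 * x ^ 2 - 4 * x ^ 3) / (2 * (1 - x ^ 2)) :=
    ⟨_, rfl⟩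
  have hx2 : x ^ 2 < 1 := by nlinarith
  have hd : 0 < 2 * (1 - x ^ 2) := by linarith
  have hd' : (1 - x ^ 2) ≠ 0 := by linarith
  have hE : 2 * (1 - x ^ 2) * G = 1 - 6 * x + 10 * x ^ 2 - 4 * x ^ 3 := by
    rw [hG]
    field_simp
  have g1 : 0.56221 < G := by
    rw [hG, lt_div_iff₀ hd]
    norm_num at x1 x2 ⊢
    nlinarith [mul_pos (sub_pos.2 x1) (sub_pos.2 x2)]
  have g2 : G < 0.5624 := by
    rw [hG, div_lt_iff₀ hd]
    norm_num at x1 x2 ⊢
    nlinarith [mul_pos (sub_pos.2 x1) (sub_pos.2 x2)]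
  have hG0 : 0 ≤ G := by linarith
  have ha : Real.sqrt G ^ 2 = G := Real.sq_sqrt hG0
  have a1 : 0.7498 < Real.sqrt G := Real.lt_sqrt_of_sq_lt (by norm_num at g1 ⊢; linarith)
  have a2 : Real.sqrt G < 0.75 := by
    rw [Real.sqrt_lt' (by norm_num)]
    norm_num at g2 ⊢
    linarith
  have ha4 : Real.sqrt G ^ 4 = G ^ 2 := by
    rw [show (4 : ℕ) = 2 * 2 from rfl, pow_mul, ha]
  have H1 : G ^ 2 - 2 * G - 2 * x * G + 9 * x ^ 2 - 6 * x + 1 = 0 := by
    have h4 : 4 * (1 - x ^ 2) ^ 2 * (G ^ 2 - 2 * G - 2 * x * G + 9 * x ^ 2 - 6 * x + 1) = 0 := by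
      have : 4 * (1 - x ^ 2) ^ 2 * (G ^ 2 - 2 * G - 2 * x * G + 9 * x ^ 2 - 6 * x + 1) =
          (2 * (1 - x ^ 2) * G) ^ 2 - 4 * (1 - x ^ 2) * (1 + x) * (2 * (1 - x ^ 2) * G) +
          4 * (1 - x ^ 2) ^ 2 * (9 * x ^ 2 - 6 * x + 1) := by ring
      rw [this, hE]
      linear_combination hx
    rcases mul_eq_zero.1 h4 with h5 | h5
    · exfalso
      have : 0 < 4 * (1 - x ^ 2) ^ 2 := by positivity
      linarith
    · exact h5
  have H2 : G ^ 2 - 2 * x * (1 + x) * G + 4 * x ^ 3 - x ^ 2 = 0 := by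
    linear_combination H1 + hE
  refine ddat_of x (Real.sqrt G) x1 x2 a1 a2 ?_ ?_ ?_ ?_
  · rw [ha]; linarith
  · rw [ha]; exact g2
  · rw [ha4, ha]; linarith
  · rw [ha4, ha]; linarith

end Pool.Agent.Helper67.CP
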