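import Pool.Agent.Helper67.CP.Sphere18

namespace Pool.Agent.Helper67.CP

/-- Explicit coordinates over the field generated by `q = √41`, `s` and `p`. -/
noncomputable def datOf (q s p : ℝ) (hq : q ^ 2 = 41) (hs : s ^ 2 = 16 / 25 + 4 / 25 * q)
    (hp : p ^ 2 = 116 / 25 + 4 / 25 * q) (q1 : 6.4031 < q) (q2 : q < 6.4032)
    (s1 : 1.29015 < s) (s2 : s < 1.29016) (p1 : 0 < p) (r1 : 8.26095 < q * s)
    (r2 : q * s < 8.26116) : Dat where
  n0 := (-2) * s + (1 / 2) * q * s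
  n1 := (-1) * s * p + (1 / 4) * q * s * p
  μ := (-11 / 8) * p + (13 / 16) * s * p + (-1 / 8) * q * p + (3 / 16) * q * s * p
  δ := (5 / 2) + (-11 / 4) * s + (1 / 2) * q + (-1 / 4) * q * s
  m := (5 / 2) + (11 / 4) * s + (1 / 2) * q + (1 / 4) * q * s
  M := (11 / 8) * p + (13 / 16) * s * p + (1 / 8) * q * p + (3 / 16) * q * s * p
  e := (-1 / 2) * p + (1 / 4) * s * p + (1 / 8) * q * p + (-1 / 16) * q * s * p
  f := (5 / 8) * p + (1 / 4) * s * p + (-1 / 16) * q * s * p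
  g := (3 / 4) + (1 / 8) * s + (-1 / 4) * q + (1 / 8) * q * s
  h := (13 / 16) * p + (13 / 32) * s * p + (3 / 16) * q * p + (3 / 32) * q * s * p
  i := (13 / 16) * p + (-13 / 32) * s * p + (3 / 16) * q * p + (-3 / 32) * q * s * p
  l := (3) * s + (1 / 2) * q * s
  u := (5 / 8) * p + (-1 / 4) * s * p + (1 / 16) * q * s * p
  v := (-1 / 2) * p + (-1 / 4) * s * p + (1 / 8) * q * p + (1 / 16) * q * s * p
  κ := (-3 / 4) + (1 / 8) * s + (1 / 4) * q + (1 / 8) * q * s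
  hN := by
    linear_combination ((9 / 625) + (1 / 625) * q ^ 2) * hq + ((16 / 25) + (-4 / 25) * q + (-1 / 25) * q ^ 2 + (1 / 100) * q ^ 3) * hs + ((1) * s ^ 2 + (-1 / 2) * q * s ^ 2 + (1 / 16) * q ^ 2 * s ^ 2) * hp
  hμ := by
    linear_combination ((331 / 10000) + (-33 / 400) * s + (3 / 100) * q + (-3 / 400) * q * s + (9 / 10000) * q ^ 2) * hq + ((-7199 / 1600) + (231 / 1600) * q + (239 / 1600) * q ^ 2 + (9 / 1600) * q ^ 3) * hs + ((121 / 64) + (-143 / 64) * s + (169 / 256) * s ^ 2 + (11 / 32) * q + (-23 / 32) * q * s + (39 / 128) * q * s ^ 2 + (1 / 64) * q ^ 2 + (-3 / 64) * q ^ 2 * s + (9 / 256) * q ^ 2 * s ^ 2) * hp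
  hM := by
    linear_combination ((331 / 10000) + (33 / 400) * s + (3 / 100) * q + (3 / 400) * q * s + (9 / 10000) * q ^ 2) * hq + ((-7199 / 1600) + (231 / 1600) * q + (239 / 1600) * q ^ 2 + (9 / 1600) * q ^ 3) * hs + ((121 / 64) + (143 / 64) * s + (169 / 256) * s ^ 2 + (11 / 32) * q + (23 / 32) * q * s + (39 / 128) * q * s ^ 2 + (1 / 64) * q ^ 2 + (3 / 64) * q ^ 2 * s + (9 / 256) * q ^ 2 * s ^ 2) * hp
  he := by
    linear_combination ((-27 / 625) + (-1 / 400) * s + (1 / 200) * q + (-1 / 400) * q * s + (1 / 5000) * q ^ 2) * hq + ((903 / 1600) + (-241 / 800) * q + (17 / 1600) * q ^ 2 + (1 / 800) * q ^ 3) * hs + ((41 / 64) + (1 / 16) * s + (1 / 8) * s ^ 2 + (-1 / 8) * q + (3 / 64) * q * s + (-1 / 16) * q * s ^ 2 + (1 / 64) * q ^ 2 + (-1 / 64) * q ^ 2 * s + (1 / 128) * q ^ 2 * s ^ 2) * hp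
  hh := by
    linear_combination ((-169 / 20000) + (-1 / 100) * q + (9 / 20000) * q ^ 2) * hq + ((-23899 / 3200) + (-7169 / 3200) * q + (-461 / 3200) * q ^ 2 + (9 / 3200) * q ^ 3) * hs + ((169 / 128) + (169 / 512) * s ^ 2 + (39 / 64) * q + (39 / 256) * q * s ^ 2 + (9 / 128) * q ^ 2 + (9 / 512) * q ^ 2 * s ^ 2) * hp
  hu := by
    linear_combination ((-27 / 625) + (1 / 400) * s + (1 / 200) * q + (1 / 400) * q * s + (1 / 5000) * q ^ 2) * hq + ((903 / 1600) + (-241 / 800) * q + (17 / 1600) * q ^ 2 + (1 / 800) * q ^ 3) * hs + ((41 / 64) + (-1 / 16) * s + (1 / 8) * s ^ 2 + (-1 / 8) * q + (-3 / 64) * q * s + (-1 / 16) * q * s ^ 2 + (1 / 64) * q ^ 2 + (1 / 64) * q ^ 2 * s + (1 / 128) * q ^ 2 * s ^ 2) * hp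
  t1 := by
    linear_combination ((29 / 625) + (-1 / 50) * s + (1 / 200) * q * s + (-1 / 2500) * q ^ 2) * hq + ((-141 / 100) + (141 / 400) * q + (1 / 100) * q ^ 2 + (-1 / 400) * q ^ 3) * hs + ((1 / 2) * s + (-1 / 4) * s ^ 2 + (-1 / 4) * q * s + (1 / 8) * q * s ^ 2 + (1 / 32) * q ^ 2 * s + (-1 / 64) * q ^ 2 * s ^ 2) * hp
  t2 := by
    linear_combination ((-29 / 625) + (-1 / 50) * s + (1 / 200) * q * s + (1 / 2500) * q ^ 2) * hq + ((141 / 100) + (-141 / 400) * q + (-1 / 100) * q ^ 2 + (1 / 400) * q ^ 3) * hs + ((1 / 2) * s + (1 / 4) * s ^ 2 + (-1 / 4) * q * s + (-1 / 8) * q * s ^ 2 + (1 / 32) * q ^ 2 * s + (1 / 64) * q ^ 2 * s ^ 2) * hp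
  t3 := by
    linear_combination ((141 / 10000) + (1 / 400) * q + (-1 / 10000) * q ^ 2) * hq + ((-439 / 1600) + (133 / 800) * q + (1 / 400) * q ^ 2 + (-1 / 1600) * q ^ 3) * hs + ((1 / 4) + (-1 / 16) * s ^ 2 + (-1 / 8) * q + (1 / 32) * q * s ^ 2 + (1 / 64) * q ^ 2 + (-1 / 256) * q ^ 2 * s ^ 2) * hp
  t4 := by
    linear_combination ((-1373 / 20000) + (97 / 1600) * s + (-1 / 200) * q + (-3 / 1600) * q * s + (3 / 20000) * q ^ 2) * hq + ((-677 / 800) + (-1423 / 3200) * q + (-7 / 200) * q ^ 2 + (3 / 3200) * q ^ 3) * hs + ((65 / 128) + (-13 / 256) * s + (-13 / 128) * s ^ 2 + (15 / 128) * q + (-1 / 16) * q * s + (1 / 512) * q * s ^ 2 + (-3 / 256) * q ^ 2 * s + (3 / 512) * q ^ 2 * s ^ 2) * hp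
  t5 := by
    linear_combination ((-1373 / 20000) + (-97 / 1600) * s + (-1 / 200) * q + (3 / 1600) * q * s + (3 / 20000) * q ^ 2) * hq + ((-677 / 800) + (-1423 / 3200) * q + (-7 / 200) * q ^ 2 + (3 / 3200) * q ^ 3) * hs + ((65 / 128) + (13 / 256) * s + (-13 / 128) * s ^ 2 + (15 / 128) * q + (1 / 16) * q * s + (1 / 512) * q * s ^ 2 + (3 / 256) * q ^ 2 * s + (3 / 512) * q ^ 2 * s ^ 2) * hp
  t6 := by
    linear_combination ((919 / 20000) + (9 / 200) * s + (-1 / 400) * q + (3 / 400) * q * s + (-9 / 20000) * q ^ 2) * hq + ((21499 / 3200) + (4369 / 3200) * q + (61 / 3200) * q ^ 2 + (-9 / 3200) * q ^ 3) * hs + ((-143 / 128) + (39 / 32) * s + (-169 / 512) * s ^ 2 + (-23 / 64) * q + (31 / 64) * q * s + (-39 / 256) * q * s ^ 2 + (-3 / 128) * q ^ 2 + (3 / 64) * q ^ 2 * s + (-9 / 512) * q ^ 2 * s ^ 2) * hp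
  t7 := by
    linear_combination ((-919 / 20000) + (9 / 200) * s + (1 / 400) * q + (3 / 400) * q * s + (9 / 20000) * q ^ 2) * hq + ((-21499 / 3200) + (-4369 / 3200) * q + (-61 / 3200) * q ^ 2 + (9 / 3200) * q ^ 3) * hs + ((143 / 128) + (39 / 32) * s + (169 / 512) * s ^ 2 + (23 / 64) * q + (31 / 64) * q * s + (39 / 256) * q * s ^ 2 + (3 / 128) * q ^ 2 + (3 / 64) * q ^ 2 * s + (9 / 512) * q ^ 2 * s ^ 2) * hp
  t8 := by
    linear_combination ((1473 / 10000) + (-49 / 800) * s + (-1 / 200) * q + (1 / 800) * q * s + (-3 / 10000) * q ^ 2) * hq + ((1029 / 800) + (623 / 1600) * q + (-19 / 800) * q ^ 2 + (-3 / 1600) * q ^ 3) * hs + ((-55 / 64) + (21 / 128) * s + (13 / 64) * s ^ 2 + (-5 / 64) * q + (11 / 64) * q * s + (-1 / 256) * q * s ^ 2 + (1 / 128) * q ^ 2 * s + (-3 / 256) * q ^ 2 * s ^ 2) * hp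
  t9 := by
    linear_combination ((-1473 / 10000) + (-49 / 800) * s + (1 / 200) * q + (1 / 800) * q * s + (3 / 10000) * q ^ 2) * hq + ((-1029 / 800) + (-623 / 1600) * q + (19 / 800) * q ^ 2 + (3 / 1600) * q ^ 3) * hs + ((55 / 64) + (21 / 128) * s + (-13 / 64) * s ^ 2 + (5 / 64) * q + (11 / 64) * q * s + (1 / 256) * q * s ^ 2 + (1 / 128) * q ^ 2 * s + (3 / 256) * q ^ 2 * s ^ 2) * hp
  p1 := by
    have h0 : 0 < (-1) * s + (1 / 4) * q * s := by linarith
    have h1 := mul_pos p1 h0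
    linarith
  p2 := by
    have h0 : 0 < (-11 / 8) + (13 / 16) * s + (-1 / 8) * q + (3 / 16) * q * s := by linarith
    have h1 := mul_pos p1 h0
    linarith
  p3 := by
    have h0 : 0 < (11 / 8) + (13 / 16) * s + (1 / 8) * q + (3 / 16) * q * s := by linarith
    have h1 := mul_pos p1 h0
    linarith
  p4 := by
    have h0 : 0 < (-1 / 2) + (1 / 4) * s + (1 / 8) * q + (-1 / 16) * q * s := by linarith
    have h1 := mul_pos p1 h0
    linarith
  p5 := by
    have h0 : 0 < (5 / 8) + (1 / 4) * s + (-1 / 16) * q * s := by linarith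
    have h1 := mul_pos p1 h0
    linarith
  p6 := by
    have h0 : 0 < (13 / 16) + (13 / 32) * s + (3 / 16) * q + (3 / 32) * q * s := by linarith
    have h1 := mul_pos p1 h0
    linarith
  p7 := by
    have h0 : 0 < (13 / 16) + (-13 / 32) * s + (3 / 16) * q + (-3 / 32) * q * s := by linarith
    have h1 := mul_pos p1 h0
    linarith
  p8 := by
    have h0 : 0 < (5 / 8) + (-1 / 4) * s + (1 / 16) * q * s := by linarith
    have h1 := mul_pos p1 h0
    linarith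
  p9 := by
    have h0 : 0 < (-1 / 2) + (-1 / 4) * s + (1 / 8) * q + (1 / 16) * q * s := by linarith
    have h1 := mul_pos p1 h0
    linarith
  d1 := by linarith
  d2 := by linarith
  d3 := by linarith
  d4 := by linarith
  d5 := by linarith
  d6 := by linarith
  d7 := by linarith
  d8 := by linarith
  d9 := by linarith
  hdet := by
    have a1 : 0 < (13 / 16) + (-13 / 32) * s + (3 / 16) * q + (-3 / 32) * q * s := by linarith
    have a2 : (13 / 16) + (-13 / 32) * s + (3 / 16) * q + (-3 / 32) * q * s < 1 := by linarith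
    have b1 : 0 < (5 / 8) + (-1 / 4) * s + (1 / 16) * q * s := by linarith
    have b2 : (5 / 8) + (-1 / 4) * s + (1 / 16) * q * s < 0.83 := by linarith
    have c1 : 0 < (-1 / 2) + (1 / 4) * s + (1 / 8) * q + (-1 / 16) * q * s := by linarith
    have c2 : (-1 / 2) + (1 / 4) * s + (1 / 8) * q + (-1 / 16) * q * s < 0.11 := by linarith
    have d1 : 1 < (13 / 16) + (13 / 32) * s + (3 / 16) * q + (3 / 32) * q * s := by linarith
    have e1 : 0.4 < (-1 / 2) + (-1 / 4) * s + (1 / 8) * q + (1 / 16) * q * s := by linarith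
    have f1 : 0.4 < (5 / 8) + (1 / 4) * s + (-1 / 16) * q * s := by linarith
    have k1 : ((13 / 16) + (-13 / 32) * s + (3 / 16) * q + (-3 / 32) * q * s) * ((5 / 8) + (-1 / 4) * s + (1 / 16) * q * s) < 1 * 0.83 :=
      mul_lt_mul'' a2 b2 a1.le b1.le
    have k2 : ((13 / 16) + (-13 / 32) * s + (3 / 16) * q + (-3 / 32) * q * s) * ((5 / 8) + (-1 / 4) * s + (1 / 16) * q * s) * ((-1 / 2) + (1 / 4) * s + (1 / 8) * q + (-1 / 16) * q * s) < 1 * 0.83 * 0.11 :=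
      mul_lt_mul'' k1 c2 (mul_pos a1 b1).le c1.le
    have k3 : 1 * 0.4 < ((13 / 16) + (13 / 32) * s + (3 / 16) * q + (3 / 32) * q * s) * ((-1 / 2) + (-1 / 4) * s + (1 / 8) * q + (1 / 16) * q * s) :=
      mul_lt_mul'' d1 e1 (by norm_num) (by norm_num)
    have k4 : 1 * 0.4 * 0.4 < ((13 / 16) + (13 / 32) * s + (3 / 16) * q + (3 / 32) * q * s) * ((-1 / 2) + (-1 / 4) * s + (1 / 8) * q + (1 / 16) * q * s) * ((5 / 8) + (1 / 4) * s + (-1 / 16) * q * s) :=
      mul_lt_mul'' k3 f1 (by norm_num) (by norm_num)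
    have k5 : ((13 / 16) + (-13 / 32) * s + (3 / 16) * q + (-3 / 32) * q * s) * ((5 / 8) + (-1 / 4) * s + (1 / 16) * q * s) * ((-1 / 2) + (1 / 4) * s + (1 / 8) * q + (-1 / 16) * q * s) < ((13 / 16) + (13 / 32) * s + (3 / 16) * q + (3 / 32) * q * s) * ((-1 / 2) + (-1 / 4) * s + (1 / 8) * q + (1 / 16) * q * s) * ((5 / 8) + (1 / 4) * s + (-1 / 16) * q * s) := by
      norm_num at k2 k4
      linarith
    have k6 := mul_lt_mul_of_pos_left k5 (pow_pos p1 3)
    linarith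
  b1 := by linarith
  b2 := by linarith
  b3 := by linarith
  b4 := by linarith
  b5 := by linarith

end Pool.Agent.Helper67.CP
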