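import Mathlib

/-!
# Circle packings of the sphere and of the disc for triangulated surfaces

Combinatorial closed discs and spheres, doubles, circle packings of the sphere `P` and of the
hyperbolic plane `D` (Poincare disc), branch sets, branch structures, Dubejko's edge-path
condition, Moebius images.
-/

namespace Pool.Agent.Helper67.CP

open scoped InnerProductSpace ComplexConjugate

/-! ## Combinatorial surfaces -/

/-- Combinatorial data of an oriented finite simplicial 2-complex on the vertex set `V`:
`(u, v, w) ∈ faces` says that `u, v, w` span a face and that `u → v → w → u` is its positive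
orientation (so that every face occurs as three triples, the rotations of each other; this and
the other requirements are in `IsSurface`). -/
structure OComplex (V : Type) where
  /-- the positively oriented faces -/
  faces : Finset (V × V × V)

namespace OComplex

section Surface

variable {V : Type} [Fintype V] [DecidableEq V] (K : OComplex V)

/-- `u` and `v` are joined by an edge. -/
def Adj (u v : V) : Prop := (∃ w, (u, v, w) ∈ K.faces) ∨ (∃ w, (v, u, w) ∈ K.faces)

/-- `v` is an interior vertex: every edge at `v` has a face on either side. -/
def IsInterior (v : V) : Prop :=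
  ∀ u, K.Adj v u → (∃ w, (v, u, w) ∈ K.faces) ∧ (∃ w, (u, v, w) ∈ K.faces)

instance : DecidablePred K.IsInterior := fun v => by
  unfold IsInterior Adj; infer_instance

/-- The set of (unoriented) edges. -/
def edges : Finset (Sym2 V) := K.faces.image fun f => s(f.1, f.2.1)

/-- The Euler characteristic `#vertices - #edges + #faces` (each face is three triples). -/
def euler : ℤ := Fintype.card V - K.edges.card + K.faces.card / 3

/-- `K` is a connected, coherently oriented simplicial surface (with or without boundary) using
all vertices of `V`. -/
structure IsSurface : Prop where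
  /-- a rotation of a positively oriented face is the same face -/
  rot : ∀ u v w, (u, v, w) ∈ K.faces → (v, w, u) ∈ K.faces
  /-- the vertices of a face are distinct -/
  ne : ∀ u v w, (u, v, w) ∈ K.faces → u ≠ v
  /-- an oriented edge lies in at most one positively oriented face -/
  uniq : ∀ u v w w', (u, v, w) ∈ K.faces → (u, v, w') ∈ K.faces → w = w'
  /-- two different faces have different vertex sets -/
  simplicial : ∀ u v w, (u, v, w) ∈ K.faces → (v, u, w) ∉ K.faces
  /-- the link of each vertex is an arc or a circle: its vertices, listed without repetition, are
  consecutively joined by the faces at `v` -/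
  link : ∀ v, ∃ l : List V, 2 ≤ l.length ∧ l.Nodup ∧ (∀ u, u ∈ l ↔ K.Adj v u) ∧
    l.IsChain fun x y => (v, x, y) ∈ K.faces
  /-- any two vertices are joined by an edge path -/
  connected : ∀ u v, Relation.ReflTransGen K.Adj u v

/-- Combinatorial closed disc: a connected oriented surface with non-empty boundary and Euler
characteristic `1`. -/
def IsClosedDisc : Prop := K.IsSurface ∧ (∃ v, ¬ K.IsInterior v) ∧ K.euler = 1

/-- Combinatorial sphere: a connected oriented surface without boundary and with Euler
characteristic `2`. -/
def IsSphere : Prop := K.IsSurface ∧ (∀ v, K.IsInterior v) ∧ K.euler = 2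

/-- The vertex set of the double of `K`: the vertices of `K` and a second copy of the interior
ones. -/
abbrev DVert : Type := V ⊕ {v : V // K.IsInterior v}

/-- The vertex `v*` of the second copy of `K`; boundary vertices are common to both copies. -/
def star (v : V) : K.DVert := if h : K.IsInterior v then Sum.inr ⟨v, h⟩ else Sum.inl v

/-- The double of `K`: `K` glued to an orientation-reversed copy along the boundary. -/
def double : OComplex K.DVert where
  faces := K.faces.image (fun f => (Sum.inl f.1, Sum.inl f.2.1, Sum.inl f.2.2)) ∪
    K.faces.image (fun f => (K.star f.1, K.star f.2.2, K.star f.2.1))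

/-- The multiset `β ∪ β*` on the double. -/
def doubleMul (β : Multiset V) : Multiset K.DVert := β.map Sum.inl + β.map K.star

/-- `γ 0, …, γ (k+2)` is a simple closed edge path (with `k + 3` edges), positively oriented, and
`S` is the set of faces it encloses: the boundary of `S` is the path. -/
structure Encloses {k : ℕ} (γ : Fin (k + 3) → V) (S : Finset (V × V × V)) : Prop where
  inj : Function.Injective γ
  sub : S ⊆ K.faces
  rot : ∀ u v w, (u, v, w) ∈ S → (v, w, u) ∈ S
  bdry : ∀ u v, ((∃ w, (u, v, w) ∈ S) ∧ ¬ ∃ w, (v, u, w) ∈ S) ↔
    ∃ i : Fin (k + 3), γ i = u ∧ γ (i + 1) = v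

open Classical in
/-- Dubejko's combinatorial condition: every simple closed edge path of `K` which encloses `ℓ`
points of `β` (counted with multiplicity) has at least `2 ℓ + 3` edges. -/
def Dubejko (β : Multiset V) : Prop :=
  ∀ (k : ℕ) (γ : Fin (k + 3) → V) (S : Finset (V × V × V)), K.Encloses γ S →
    2 * β.countP (fun v => v ∉ Set.range γ ∧ ∃ u w, (v, u, w) ∈ S) + 3 ≤ k + 3

end Surface

end OComplex

/-! ## Circle packings of the sphere -/

/-- A circle on the unit sphere of `ℝ³`, with a chosen side: the points at angular distance
`radius` from `center`. -/
structure SphCircle where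
  /-- the spherical centre -/
  center : EuclideanSpace ℝ (Fin 3)
  /-- the spherical radius -/
  radius : ℝ
  norm_center : ‖center‖ = 1
  radius_pos : 0 < radius
  radius_lt : radius < Real.pi

/-- The determinant of three vectors of `ℝ³`. -/
noncomputable def det3 (a b c : EuclideanSpace ℝ (Fin 3)) : ℝ :=
  Matrix.det !![a 0, a 1, a 2; b 0, b 1, b 2; c 0, c 1, c 2]

/-- External tangency: the distance of the centres is the sum of the radii. -/
def SphCircle.Tangent (c d : SphCircle) : Prop :=
  InnerProductGeometry.angle c.center d.center = c.radius + d.radius

/-- The angle at `a` of the spherical triangle `a b c`. -/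
noncomputable def sphAngle (a b c : EuclideanSpace ℝ (Fin 3)) : ℝ :=
  InnerProductGeometry.angle (b - ⟪a, b⟫_ℝ • a) (c - ⟪a, c⟫_ℝ • a)

section Sphere

variable {V : Type} [DecidableEq V]

/-- `P` is a circle packing of the sphere for `L`: the three circles of each face are mutually
(externally) tangent and their centres form a positively oriented spherical triangle. -/
def IsSphPacking (L : OComplex V) (P : V → SphCircle) : Prop :=
  ∀ u v w, (u, v, w) ∈ L.faces →
    (P u).Tangent (P v) ∧ (P v).Tangent (P w) ∧ (P w).Tangent (P u) ∧
      0 < det3 (P u).center (P v).center (P w).center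

/-- The sum of the face angles at the centre of the circle of `v`. -/
noncomputable def sphAngleSum (L : OComplex V) (P : V → SphCircle) (v : V) : ℝ :=
  ∑ f ∈ L.faces with f.1 = v, sphAngle (P f.1).center (P f.2.1).center (P f.2.2).center

/-- The branch set of `P` is the multiset `β` (of interior vertices). -/
def SphBranchSet [Fintype V] (L : OComplex V) (P : V → SphCircle) (β : Multiset V) : Prop :=
  (∀ v ∈ β, L.IsInterior v) ∧
    ∀ v, L.IsInterior v → sphAngleSum L P v = 2 * Real.pi * (1 + β.count v)

/-- The identification of the Riemann sphere with the unit sphere (stereographic projection from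
the south pole; it preserves orientation). -/
noncomputable def stereo : OnePoint ℂ → EuclideanSpace ℝ (Fin 3)
  | none => !₂[0, 0, -1]
  | some z => !₂[2 * z.re / (1 + ‖z‖ ^ 2), 2 * z.im / (1 + ‖z‖ ^ 2),
      (1 - ‖z‖ ^ 2) / (1 + ‖z‖ ^ 2)]

/-- The circle as a subset of the Riemann sphere. -/
def SphCircle.toSet (c : SphCircle) : Set (OnePoint ℂ) :=
  {z | InnerProductGeometry.angle c.center (stereo z) = c.radius}

/-- `Q` is the image `φ(P)` of `P` under the Moebius map `φ` of the Riemann sphere given by
some `A ∈ GL₂(ℂ)`. -/
def IsMoebiusImage (P Q : V → SphCircle) : Prop :=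
  ∃ A : GL (Fin 2) ℂ, ∀ v, (fun z : OnePoint ℂ => A • z) '' (P v).toSet = (Q v).toSet

/-- The packings of the sphere for `L` with branch set `β` are essentially unique: any two of
them are Moebius images of each other. -/
def EssentiallyUnique [Fintype V] (L : OComplex V) (β : Multiset V) : Prop :=
  ∀ P Q : V → SphCircle, IsSphPacking L P → SphBranchSet L P β →
    IsSphPacking L Q → SphBranchSet L Q β → IsMoebiusImage P Q

end Sphere

/-! ## Circle packings of the disc -/

/-- A circle or a horocycle of the hyperbolic plane (Poincare disc): a Euclidean circle inside
the closed unit disc. -/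
structure DiscCircle where
  /-- the Euclidean centre -/
  center : ℂ
  /-- the Euclidean radius -/
  radius : ℝ
  radius_pos : 0 < radius
  radius_lt : radius < 1
  inside : ‖center‖ + radius ≤ 1

namespace DiscCircle

/-- A horocycle: the circle touches the unit circle. -/
def IsHorocycle (c : DiscCircle) : Prop := ‖c.center‖ + c.radius = 1

/-- External tangency. -/
def Tangent (c d : DiscCircle) : Prop := dist c.center d.center = c.radius + d.radius

/-- The point of tangency of two tangent circles. -/
noncomputable def touch (c d : DiscCircle) : ℂ :=
  c.center + ((c.radius / (c.radius + d.radius) : ℝ) : ℂ) * (d.center - c.center)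

/-- `h` is the hyperbolic centre of `c`: the pseudo-hyperbolic distance
`|z - h| / |1 - conj h * z|` is the same for all points `z` of `c`. -/
def IsHypCenter (c : DiscCircle) (h : ℂ) : Prop :=
  ‖h‖ < 1 ∧ ∃ s : ℝ, ∀ z : ℂ, ‖z - c.center‖ = c.radius → ‖z - h‖ = s * ‖1 - conj h * z‖

end DiscCircle

/-- The hyperbolic angle at `h` between the geodesics from `h` through `p` and through `q`: the
isometry `z ↦ (z - h) / (1 - conj h * z)` of the disc takes `h` to `0`, where the geodesics are
Euclidean rays and the angle is Euclidean. -/
noncomputable def hypAngle (h p q : ℂ) : ℝ :=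
  InnerProductGeometry.angle ((p - h) / (1 - conj h * p)) ((q - h) / (1 - conj h * q))

section Disc

variable {V : Type} [DecidableEq V]

/-- `P` is a circle packing of the disc for `K`: the three circles of each face are mutually
tangent and form a positively oriented triple. -/
def IsDiscPacking (K : OComplex V) (P : V → DiscCircle) : Prop :=
  ∀ u v w, (u, v, w) ∈ K.faces →
    (P u).Tangent (P v) ∧ (P v).Tangent (P w) ∧ (P w).Tangent (P u) ∧
      0 < (conj ((P v).center - (P u).center) * ((P w).center - (P u).center)).im

/-- The branch set of `P` is the multiset `β` of interior vertices: at an interior vertex `v` the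
face angles at the hyperbolic centre `h` of the circle of `v` sum to `2 π (1 + k)` with `k` the
multiplicity of `v` (the side of a face triangle from `h` to the centre of the circle of a
neighbour passes through the point of tangency of the two circles). -/
def DiscBranchSet [Fintype V] (K : OComplex V) (P : V → DiscCircle) (β : Multiset V) : Prop :=
  (∀ v ∈ β, K.IsInterior v) ∧
    ∀ v, K.IsInterior v → ∃ h, (P v).IsHypCenter h ∧
      ∑ f ∈ K.faces with f.1 = v, hypAngle h ((P v).touch (P f.2.1)) ((P v).touch (P f.2.2)) =
        2 * Real.pi * (1 + β.count v)

/-- `β` is a branch structure for `K`: `K` has a packing in the disc with branch set `β` and all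
boundary circles horocycles. -/
def IsBranchStructure [Fintype V] (K : OComplex V) (β : Multiset V) : Prop :=
  ∃ P : V → DiscCircle, IsDiscPacking K P ∧ DiscBranchSet K P β ∧
    ∀ v, ¬ K.IsInterior v → (P v).IsHorocycle

end Disc

end Pool.Agent.Helper67.CP
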