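import Pool.Agent.Helper67.CP.DiscSum
import Pool.Agent.Helper67.CP.Comb

namespace Pool.Agent.Helper67.CP

open scoped InnerProductSpace ComplexConjugate
open OComplex

/-- The coordinates of the circles of the packing of the disc. -/
structure DDat where
  (cN rN cM rM r cx rx cb rb R X Y : ℝ)
  e1 : cN + rN = 1
  e2 : cM + rM = 1
  e3 : rM - cM = r
  e4 : cN - cx = rN + rx
  e5 : cx = r + rx
  e6 : cb = r + rb
  T1 : X ^ 2 + Y ^ 2 = (1 - R) ^ 2
  T2 : X ^ 2 + (cN + Y) ^ 2 = (rN + R) ^ 2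
  T3 : (X + cM) ^ 2 + Y ^ 2 = (rM + R) ^ 2
  T4 : X ^ 2 + (Y + cx) ^ 2 = (R + rx) ^ 2
  T5 : (X - cb) ^ 2 + Y ^ 2 = (R + rb) ^ 2
  T6 : cb ^ 2 + cx ^ 2 = (rb + rx) ^ 2
  p1 : 0 < rN
  p2 : 0 < cM
  p3 : 0 < r
  p4 : 0 < rx
  p5 : 0 < rb
  p6 : 0.48 < R
  p6' : R < 0.49
  p7 : 0.46 < X
  p7' : X < 0.48
  p8 : 0.2 < Y
  p8' : Y < 0.22
  p9 : 0.07 < cx
  p9' : cx < 0.08
  p10 : 0.02 < cb
  p10' : cb < 0.022
  p11 : 0.5 < cN
  p12 : rx < 0.08
  p13 : rb < 0.022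

namespace DDat

variable (d : DDat)

def px : ℕ → ℝ
  | 2 => -d.X | 4 => d.X | 5 => -d.X | 7 => d.X | 8 => d.cM | 10 => -d.cM
  | 11 => -d.cb | 12 => d.cb | _ => 0

def py : ℕ → ℝ
  | 0 => d.cN | 1 => -d.cN | 2 => -d.Y | 3 => d.cx | 4 => -d.Y | 5 => d.Y
  | 6 => -d.cx | 7 => d.Y | _ => 0

def pr : ℕ → ℝ
  | 0 => d.rN | 1 => d.rN | 2 => d.R | 3 => d.rx | 4 => d.R | 5 => d.R
  | 6 => d.rx | 7 => d.R | 8 => d.rM | 9 => d.r | 10 => d.rM | 11 => d.rb | 12 => d.rb | _ => 1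

theorem pr_pos (k : Fin 13) : 0 < d.pr k := by
  have h1 := d.p1
  have h2 := d.p2
  have h3 := d.p3
  have h4 := d.p4
  have h5 := d.p5
  have h6 := d.p6
  have h7 := d.e3
  fin_cases k <;> simp only [pr] <;> linarith

theorem pr_lt (k : Fin 13) : d.pr k < 1 := by
  have h1 := d.p1
  have h2 := d.p2
  have h3 := d.p3
  have h4 := d.p4
  have h5 := d.p5
  have h6 := d.p6'
  have h7 := d.e3
  have h8 := d.e1
  have h9 := d.e2
  have h10 := d.p11
  have h11 := d.p12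
  have h12 := d.p13
  have h13 := d.e6
  have h14 := d.p10'
  fin_cases k <;> simp only [pr] <;> linarith

/-- The boundary circles are horocycles. -/
theorem horo (k : Fin 13) (hk : k ∉ ([3, 6, 9, 11, 12] : List (Fin 13))) :
    d.px k ^ 2 + d.py k ^ 2 = (1 - d.pr k) ^ 2 := by
  have h1 := d.e1
  have h2 := d.e2
  have h3 : d.cN = 1 - d.rN := by linarith
  have h4 : d.cM = 1 - d.rM := by linarith
  have h5 := d.T1
  fin_cases k <;> simp only [px, py, pr] <;> first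
    | (exfalso; exact hk (by decide))
    | (rw [h3]; ring)
    | (rw [h4]; ring)
    | linarith

theorem inter (k : Fin 13) (hk : k ∈ ([3, 6, 9, 11, 12] : List (Fin 13))) :
    d.px k ^ 2 + d.py k ^ 2 < (1 - d.pr k) ^ 2 := by
  have h1 := d.p9
  have h2 := d.p9'
  have h3 := d.p10
  have h4 := d.p10'
  have h5 := d.p12
  have h6 := d.p13
  have h7 := d.e5
  have h8 := d.p3
  have h9 := d.p4
  have h10 := d.p5
  fin_cases k <;> simp only [px, py, pr] <;> first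
    | nlinarith
    | (exfalso; revert hk; decide)

theorem norm_eq (k : Fin 13) : ‖(⟨d.px k, d.py k⟩ : ℂ)‖ = Real.sqrt (d.px k ^ 2 + d.py k ^ 2) := by
  rw [Complex.norm_eq_sqrt_sq_add_sq]

/-- The packing of the disc for `K13`. -/
noncomputable def P13 (k : Fin 13) : DiscCircle where
  center := ⟨d.px k, d.py k⟩
  radius := d.pr k
  radius_pos := d.pr_pos k
  radius_lt := d.pr_lt k
  inside := by
    have h1 := d.pr_lt k
    rw [norm_eq]
    have h2 : Real.sqrt (d.px k ^ 2 + d.py k ^ 2) ≤ 1 - d.pr k := by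
      rw [Real.sqrt_le_left (by linarith)]
      by_cases hk : k ∈ ([3, 6, 9, 11, 12] : List (Fin 13))
      · exact (d.inter k hk).le
      · exact (d.horo k hk).le
    linarith

theorem horocycle (k : Fin 13) (hk : k ∉ ([3, 6, 9, 11, 12] : List (Fin 13))) :
    (d.P13 k).IsHorocycle := by
  have h1 := d.pr_lt k
  show ‖(⟨d.px k, d.py k⟩ : ℂ)‖ + d.pr k = 1
  rw [norm_eq, d.horo k hk, Real.sqrt_sq (by linarith)]
  ring

theorem inside_lt (k : Fin 13) (hk : k ∈ ([3, 6, 9, 11, 12] : List (Fin 13))) :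
    ‖(d.P13 k).center‖ + (d.P13 k).radius < 1 := by
  have h1 := d.pr_lt k
  show ‖(⟨d.px k, d.py k⟩ : ℂ)‖ + d.pr k < 1
  rw [norm_eq]
  have h2 : Real.sqrt (d.px k ^ 2 + d.py k ^ 2) < 1 - d.pr k := by
    rw [Real.sqrt_lt' (by linarith)]
    exact d.inter k hk
  linarith

theorem dist_ok : ∀ f ∈ list13, (d.px f.1 - d.px f.2.1) ^ 2 + (d.py f.1 - d.py f.2.1) ^ 2 =
    (d.pr f.1 + d.pr f.2.1) ^ 2 := by
  have s1 : (d.cN - d.cx) ^ 2 = (d.rN + d.rx) ^ 2 := by rw [d.e4]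
  have s2 : d.cx ^ 2 = (d.r + d.rx) ^ 2 := by rw [d.e5]
  have s3 : d.cb ^ 2 = (d.r + d.rb) ^ 2 := by rw [d.e6]
  have s4 : (d.cb + d.cM) ^ 2 = (d.rb + d.rM) ^ 2 := by
    have : d.cb + d.cM = d.rb + d.rM := by
      have h1 := d.e6
      have h2 := d.e3
      linarith
    rw [this]
  have t2 := d.T2
  have t3 := d.T3
  have t4 := d.T4
  have t5 := d.T5
  have t6 := d.T6
  intro f hf
  unfold list13 at hf
  fin_cases hf <;> simp only [px, py, pr] <;> linarith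

theorem orient_ok : ∀ f ∈ list13, 0 < (d.px f.2.1 - d.px f.1) * (d.py f.2.2 - d.py f.1) -
    (d.py f.2.1 - d.py f.1) * (d.px f.2.2 - d.px f.1) := by
  have h1 := d.p9
  have h2 := d.p9'
  have h3 := d.p10
  have h4 := d.p10'
  have h5 := d.p7
  have h6 := d.p8'
  have h7 := d.p11
  have h8 := d.p8
  have h9 := d.p2
  have o1 : 0 < d.X * (d.cN - d.cx) := mul_pos (by linarith) (by linarith)
  have o2 : 0 < d.Y * (d.cM + d.cb) := mul_pos (by linarith) (by linarith)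
  have o3 : 0 < d.cx * (d.X - d.cb) - d.cb * d.Y := by nlinarith
  have o4 : 0 < d.cb * d.cx := mul_pos (by linarith) (by linarith)
  intro f hf
  unfold list13 at hf
  fin_cases hf <;> simp only [px, py] <;> linarith

/-- The quantity `crs` in coordinates. -/
def cr (v u w : ℕ) : ℝ :=
  (1 - (d.px v ^ 2 + d.py v ^ 2) - d.pr v ^ 2) *
    ((d.px v * d.py w - d.py v * d.px w) *
        (d.px v * d.px u + d.py v * d.py u - (d.px v ^ 2 + d.py v ^ 2)) -
      (d.px v * d.py u - d.py v * d.px u) *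
        (d.px v * d.px w + d.py v * d.py w - (d.px v ^ 2 + d.py v ^ 2))) -
  2 * (d.px v ^ 2 + d.py v ^ 2) * d.pr v *
    ((d.px v * d.py w - d.py v * d.px w) * (d.pr v + d.pr u) -
      (d.px v * d.py u - d.py v * d.px u) * (d.pr v + d.pr w))

theorem cr_ok : ∀ f ∈ list13, f.1 ∈ [3, 6, 11, 12] → 0 < d.cr f.1 f.2.1 f.2.2 := by
  have h1 := d.p9
  have h2 := d.p9'
  have h3 := d.p10
  have h4 := d.p10'
  have h5 := d.p7
  have h6 := d.p8'
  have h7 := d.p11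
  have h8 := d.p8
  have h9 := d.p2
  have h10 := d.p3
  have h11 := d.p4
  have h12 := d.p5
  have h13 := d.p12
  have h14 := d.p13
  have h15 := d.e5
  have h16 := d.e6
  have h17 := d.p7'
  have h18 := d.p1
  have h19 := d.e1
  have h20 := d.p6'
  have h21 := d.p6
  have h22 := d.e3
  have hX : 0 < d.X := by linarith
  have hY : 0 < d.Y := by linarith
  have hcx : 0 < d.cx := by linarith
  have hcb : 0 < d.cb := by linarith
  have hR : 0 < d.R := by linarith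
  have hrM : 0 < d.rM := by linarith
  have w1 : 0.9 < 1 - d.cb ^ 2 - d.rb ^ 2 := by nlinarith
  have w2 : 0.9 < 1 - d.cx ^ 2 - d.rx ^ 2 := by nlinarith
  have A1 : 0 < d.cb * d.cx * d.cb ^ 2 * ((1 - d.cb ^ 2 - d.rb ^ 2) + 2 * d.rb * (d.rb + d.r)) := by
    have : 0 < (1 - d.cb ^ 2 - d.rb ^ 2) + 2 * d.rb * (d.rb + d.r) := by
      have : 0 < 2 * d.rb * (d.rb + d.r) := by positivity
      linarith
    positivity
  have A3 : 0 < d.cb * d.Y * ((1 - d.cb ^ 2 - d.rb ^ 2) * d.cb * (d.cM + d.cb) +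
      2 * d.cb ^ 2 * d.rb * (d.rb + d.rM)) := by
    have k1 : 0 < (1 - d.cb ^ 2 - d.rb ^ 2) * d.cb * (d.cM + d.cb) :=
      mul_pos (mul_pos (by linarith) hcb) (by linarith)
    have k2 : 0 < 2 * d.cb ^ 2 * d.rb * (d.rb + d.rM) := by positivity
    have := add_pos k1 k2
    positivity
  have B3 : 0 < d.cx * d.cb * d.cx ^ 2 * ((1 - d.cx ^ 2 - d.rx ^ 2) + 2 * d.rx * (d.rx + d.r)) := by
    have : 0 < (1 - d.cx ^ 2 - d.rx ^ 2) + 2 * d.rx * (d.rx + d.r) := by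
      have : 0 < 2 * d.rx * (d.rx + d.r) := by positivity
      linarith
    positivity
  have A2 : 0 < d.cb ^ 2 * ((1 - d.cb ^ 2 - d.rb ^ 2) * (d.cx * (d.X - d.cb) - d.cb * d.Y) -
      2 * d.cb * d.rb * (d.Y * (d.rb + d.rx) + d.cx * (d.rb + d.R))) := by
    have k0 : 0.02 < d.cx * (d.X - d.cb) - d.cb * d.Y := by nlinarith
    have k1 : 0.9 * 0.02 < (1 - d.cb ^ 2 - d.rb ^ 2) * (d.cx * (d.X - d.cb) - d.cb * d.Y) :=
      mul_lt_mul'' w1 k0 (by norm_num) (by norm_num)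
    have k2 : d.Y * (d.rb + d.rx) < 0.22 * (0.022 + 0.08) :=
      mul_lt_mul'' h6 (by linarith) hY.le (by positivity)
    have k3 : d.cx * (d.rb + d.R) < 0.08 * (0.022 + 0.49) :=
      mul_lt_mul'' h2 (by linarith) hcx.le (by positivity)
    have k4 : 2 * d.cb * d.rb < 2 * 0.022 * 0.022 := by
      have := mul_lt_mul'' h4 h14 hcb.le h12.le
      linarith
    have k5 : 2 * d.cb * d.rb * (d.Y * (d.rb + d.rx) + d.cx * (d.rb + d.R)) <
        2 * 0.022 * 0.022 * (0.22 * (0.022 + 0.08) + 0.08 * (0.022 + 0.49)) :=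
      mul_lt_mul'' k4 (by linarith) (by positivity) (by positivity)
    have k6 : 0 < (1 - d.cb ^ 2 - d.rb ^ 2) * (d.cx * (d.X - d.cb) - d.cb * d.Y) -
      2 * d.cb * d.rb * (d.Y * (d.rb + d.rx) + d.cx * (d.rb + d.R)) := by
      norm_num at k1 k5 ⊢
      linarith
    positivity
  have B1 : 0 < d.cx ^ 2 * d.X * ((1 - d.cx ^ 2 - d.rx ^ 2) * (d.cN - d.cx) -
      2 * d.cx * d.rx * (d.rx + d.rN)) := by
    have k0 : 0.42 < d.cN - d.cx := by linarith
    have k1 : 0.9 * 0.42 < (1 - d.cx ^ 2 - d.rx ^ 2) * (d.cN - d.cx) :=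
      mul_lt_mul'' w2 k0 (by norm_num) (by norm_num)
    have k4 : 2 * d.cx * d.rx < 2 * 0.08 * 0.08 := by
      have := mul_lt_mul'' h2 h13 hcx.le h11.le
      linarith
    have k5 : 2 * d.cx * d.rx * (d.rx + d.rN) < 2 * 0.08 * 0.08 * (0.08 + 0.5) :=
      mul_lt_mul'' k4 (by linarith) (by positivity) (by positivity)
    have k6 : 0 < (1 - d.cx ^ 2 - d.rx ^ 2) * (d.cN - d.cx) -
      2 * d.cx * d.rx * (d.rx + d.rN) := by
      norm_num at k1 k5 ⊢
      linarith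
    positivity
  have B2 : 0 < d.cx ^ 2 * ((1 - d.cx ^ 2 - d.rx ^ 2) * (d.cx * d.X - d.cb * (d.Y + d.cx)) -
      2 * d.cx * d.rx * (d.cb * (d.rx + d.R) - d.X * (d.rx + d.rb))) := by
    have k0 : 0.02 < d.cx * d.X - d.cb * (d.Y + d.cx) := by nlinarith
    have k1 : 0.9 * 0.02 < (1 - d.cx ^ 2 - d.rx ^ 2) * (d.cx * d.X - d.cb * (d.Y + d.cx)) :=
      mul_lt_mul'' w2 k0 (by norm_num) (by norm_num)
    have k2 : d.cb * (d.rx + d.R) < 0.022 * (0.08 + 0.49) :=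
      mul_lt_mul'' h4 (by linarith) hcb.le (by positivity)
    have k3 : 0 < d.X * (d.rx + d.rb) := by positivity
    have k4 : 2 * d.cx * d.rx < 2 * 0.08 * 0.08 := by
      have := mul_lt_mul'' h2 h13 hcx.le h11.le
      linarith
    have k4' : 0 < 2 * d.cx * d.rx := by positivity
    have k5 : 2 * d.cx * d.rx * (d.cb * (d.rx + d.R)) <
        2 * 0.08 * 0.08 * (0.022 * (0.08 + 0.49)) :=
      mul_lt_mul'' k4 k2 (by positivity) (by positivity)
    have k5' : 0 < 2 * d.cx * d.rx * (d.X * (d.rx + d.rb)) := by positivity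
    have k6 : 0 < (1 - d.cx ^ 2 - d.rx ^ 2) * (d.cx * d.X - d.cb * (d.Y + d.cx)) -
      2 * d.cx * d.rx * (d.cb * (d.rx + d.R) - d.X * (d.rx + d.rb)) := by
      norm_num at k1 k5 ⊢
      linarith
    positivity
  clear h1 h2 h3 h4 h5 h6 h7 h8 h9 h10 h11 h12 h13 h14 h15 h16 h17 h18 h19 h20 h21 h22
  intro f hf
  unfold list13 at hf
  fin_cases hf <;> intro hm <;> first
    | (exfalso; revert hm; decide)
    | (simp only [cr, px, py, pr]; linarith)

/-- The pairs for which the cross product is negative. -/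
def neg13 : List (ℕ × ℕ) :=
  [(3, 4), (3, 12), (6, 5), (6, 11), (9, 6), (11, 3), (11, 5), (12, 4), (12, 6)]

theorem sg_ok : ∀ f ∈ list13, f.1 ∈ [3, 6, 11, 12] →
    ((f.1, f.2.1) ∈ neg13 ∧ d.px f.1 * d.py f.2.1 - d.py f.1 * d.px f.2.1 < 0) ∨
    ((f.1, f.2.1) ∉ neg13 ∧ 0 ≤ d.px f.1 * d.py f.2.1 - d.py f.1 * d.px f.2.1) := by
  have h1 := d.p9
  have h3 := d.p10
  have h5 := d.p7
  have h8 := d.p8
  have hX : 0 < d.X := by linarith
  have hY : 0 < d.Y := by linarith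
  have hcx : 0 < d.cx := by linarith
  have hcb : 0 < d.cb := by linarith
  have k1 := mul_pos hcx hX
  have k2 := mul_pos hcx hcb
  have k3 := mul_pos hcb hY
  intro f hf
  unfold list13 at hf
  fin_cases hf <;> intro hm <;> first
    | (exfalso; revert hm; decide)
    | (refine Or.inl ⟨by decide, ?_⟩; simp only [px, py]; linarith)
    | (refine Or.inr ⟨by decide, ?_⟩; simp only [px, py]; linarith)

end DDat

end Pool.Agent.Helper67.CP
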