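import Pool.Agent.Helper67.CP.Disc13

namespace Pool.Agent.Helper67.CP

open scoped InnerProductSpace ComplexConjugate
open OComplex

theorem mem13' (u v w : Fin 13) : (u, v, w) ∈ K13.faces ↔ (u.1, v.1, w.1) ∈ list13 :=
  mem_ofList list13_lt u v w

namespace DDat

variable (d : DDat)

theorem tang13 {u v w : Fin 13} (h : (u, v, w) ∈ K13.faces) :
    (d.P13 u).Tangent (d.P13 v) := by
  have hf := (mem13' _ _ _).1 h
  have h1 := d.dist_ok _ hf
  have h2 := d.pr_pos u
  have h3 := d.pr_pos v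
  unfold DiscCircle.Tangent
  show dist (⟨d.px u, d.py u⟩ : ℂ) ⟨d.px v, d.py v⟩ = d.pr u + d.pr v
  rw [Complex.dist_eq_re_im]
  simp only at h1 ⊢
  rw [h1, Real.sqrt_sq (by linarith)]

theorem packing13 : IsDiscPacking K13 d.P13 := by
  intro u v w h
  have h2 := K13_surface.rot _ _ _ h
  have h3 := K13_surface.rot _ _ _ h2
  refine ⟨d.tang13 h, d.tang13 h2, d.tang13 h3, ?_⟩
  have hf := (mem13' _ _ _).1 h
  have h4 := d.orient_ok _ hf
  have h5 : (conj ((d.P13 v).center - (d.P13 u).center) *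
      ((d.P13 w).center - (d.P13 u).center)).im =
      (d.px v - d.px u) * (d.py w - d.py u) - (d.py v - d.py u) * (d.px w - d.px u) := by
    show (conj ((⟨d.px v, d.py v⟩ : ℂ) - ⟨d.px u, d.py u⟩) *
      ((⟨d.px w, d.py w⟩ : ℂ) - ⟨d.px u, d.py u⟩)).im = _
    simp [Complex.mul_im]
    ring
  rw [h5]
  exact h4

theorem normsq (k : Fin 13) : ‖(d.P13 k).center‖ ^ 2 = d.px k ^ 2 + d.py k ^ 2 := by
  rw [Complex.sq_norm, Complex.normSq_apply]
  show d.px k * d.px k + d.py k * d.py k = _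
  ring

theorem cross13 (k c : Fin 13) : (conj (d.P13 k).center * (d.P13 c).center).im =
    d.px k * d.py c - d.py k * d.px c := by
  show (conj (⟨d.px k, d.py k⟩ : ℂ) * ⟨d.px c, d.py c⟩).im = _
  simp [Complex.mul_im]
  ring

theorem dot13 (k c : Fin 13) : (conj (d.P13 k).center * (d.P13 c).center).re =
    d.px k * d.px c + d.py k * d.py c := by
  show (conj (⟨d.px k, d.py k⟩ : ℂ) * ⟨d.px c, d.py c⟩).re = _
  simp [Complex.mul_re]

theorem crs13 (v u w : Fin 13) : crs (d.P13 v) (d.P13 u) (d.P13 w) = d.cr v u w := by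
  unfold crs
  rw [normsq, cross13, cross13, dot13, dot13]
  rfl

/-- The branching of the disc packing. -/
def br13 (v : Fin 13) : ℕ := if 11 ≤ v.1 then 1 else 0

theorem count13 : ∀ v : Fin 13, v ∈ ([3, 6, 11, 12] : List (Fin 13)) →
    ((K13.faces.filter fun f => f.1 = v).filter
    fun f => (f.1.1, f.2.1.1) ∉ neg13 ∧ (f.1.1, f.2.2.1) ∈ neg13).card = 1 + br13 v := by
  decide +kernel

theorem count9 : ((K13.faces.filter fun f => f.1 = 9).filter
    fun f => f.2.1 ∈ ([12, 3, 11] : List (Fin 13)) ∧ f.2.2 ∈ ([6] : List (Fin 13))).card =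
      1 + 0 := by
  decide +kernel

theorem list13_next : ∀ f ∈ list13, f.1 ∈ [3, 6, 11, 12] →
    ∃ g ∈ list13, g.1 = f.1 ∧ g.2.1 = f.2.2 := by
  decide +kernel

theorem sign13 {a b c : Fin 13} (h : (a, b, c) ∈ K13.faces)
    (ha : a.1 ∈ [3, 6, 11, 12]) :
    (0 ≤ (conj (d.P13 a).center * (d.P13 b).center).im ∧
      (conj (d.P13 a).center * (d.P13 c).center).im < 0) ↔
    ((a.1, b.1) ∉ neg13 ∧ (a.1, c.1) ∈ neg13) := by
  have hf := (mem13' _ _ _).1 h
  obtain ⟨g, hg, hg1, hg2⟩ := list13_next _ hf ha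
  have h1 := d.sg_ok _ hf ha
  have h2 := d.sg_ok _ hg (by rw [hg1]; exact ha)
  rw [hg1, hg2] at h2
  simp only at h1 h2
  rw [cross13, cross13]
  rcases h1 with ⟨h1, h1'⟩ | ⟨h1, h1'⟩
  · exact ⟨fun h => absurd h.1 (not_le.2 h1'), fun h => absurd h1 h.1⟩
  · rcases h2 with ⟨h2, h2'⟩ | ⟨h2, h2'⟩
    · exact ⟨fun _ => ⟨h1, h2⟩, fun _ => ⟨h1', h2'⟩⟩
    · exact ⟨fun h => absurd h.2 (not_lt.2 h2'), fun h => absurd h.2 h2⟩

theorem cnt_beta : ∀ v : Fin 13, ({11, 12} : Multiset (Fin 13)).count v = br13 v := by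
  decide +kernel

theorem angle13 (v : Fin 13) (hv : v ∈ ([3, 6, 11, 12] : List (Fin 13))) :
    ∃ h, (d.P13 v).IsHypCenter h ∧ ∑ f ∈ K13.faces with f.1 = v,
      hypAngle h ((d.P13 v).touch (d.P13 f.2.1)) ((d.P13 v).touch (d.P13 f.2.2)) =
        2 * Real.pi * (1 + br13 v) := by
  have hv2 : v ∈ ([3, 6, 9, 11, 12] : List (Fin 13)) := by
    revert hv; revert v; decide +kernel
  have hv3 : v.1 ∈ [3, 6, 11, 12] := by
    revert hv; revert v; decide +kernel
  refine discAngle_ne K13_surface ((K13_interior v).2 hv2) d.packing13 (d.inside_lt v hv2) ?_ ?_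
    (br13 v) ?_
  · intro h0
    have h1 : d.px v ^ 2 + d.py v ^ 2 = 0 := by
      rw [← normsq, h0]
      simp
    have p9 := d.p9
    have p10 := d.p10
    revert h1
    have k1 : 0 < d.cx ^ 2 := by positivity
    have k2 : 0 < d.cb ^ 2 := by positivity
    fin_cases v <;> first
      | (exfalso; revert hv; decide)
      | (simp only [px, py]; intro h1; nlinarith)
  · intro u w huw
    rw [crs13]
    exact d.cr_ok _ ((mem13' _ _ _).1 huw) hv3
  · refine Eq.trans (congrArg Finset.card (Finset.filter_congr ?_)) (count13 v hv)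
    rintro ⟨a, b, c⟩ hf
    rw [Finset.mem_filter] at hf
    obtain ⟨hf, rfl⟩ := hf
    exact d.sign13 hf hv3

theorem nine_list : ∀ u w : Fin 13, ((9 : Fin 13).1, u.1, w.1) ∈ list13 →
    (u = 12 ∧ w = 3) ∨ (u = 3 ∧ w = 11) ∨ (u = 11 ∧ w = 6) ∨ (u = 6 ∧ w = 12) := by
  decide +kernel

theorem angle9 : ∃ h, (d.P13 9).IsHypCenter h ∧ ∑ f ∈ K13.faces with f.1 = 9,
      hypAngle h ((d.P13 9).touch (d.P13 f.2.1)) ((d.P13 9).touch (d.P13 f.2.2)) =
        2 * Real.pi * (1 + (0 : ℕ)) := by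
  have p9 := d.p9
  have p10 := d.p10
  have hcx : 0 < d.cx := by linarith
  have hcb : 0 < d.cb := by linarith
  have k1 := mul_pos hcb hcx
  refine discAngle_zero K13_surface ((K13_interior 9).2 (by decide)) rfl ?_ 0 ?_
  · intro u w huw
    rw [cross13]
    rcases nine_list u w ((mem13' _ _ _).1 huw) with ⟨rfl, rfl⟩ | ⟨rfl, rfl⟩ | ⟨rfl, rfl⟩ |
      ⟨rfl, rfl⟩
    · show 0 < d.cb * d.cx - 0 * 0
      linarith
    · show 0 < 0 * 0 - d.cx * -d.cb
      linarith
    · show 0 < -d.cb * -d.cx - 0 * 0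
      linarith
    · show 0 < 0 * 0 - (-d.cx) * d.cb
      linarith
  · refine Eq.trans (congrArg Finset.card (Finset.filter_congr ?_)) count9
    rintro ⟨a, b, c⟩ hf
    rw [Finset.mem_filter] at hf
    obtain ⟨hf, rfl⟩ := hf
    rcases nine_list b c ((mem13' _ _ _).1 hf) with ⟨rfl, rfl⟩ | ⟨rfl, rfl⟩ | ⟨rfl, rfl⟩ |
      ⟨rfl, rfl⟩
    · refine iff_of_false (fun h => ?_) (fun h => absurd h.2 (by decide))
      have : d.cx < 0 := h.2
      linarith
    · refine iff_of_false (fun h => ?_) (fun h => absurd h.2 (by decide))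
      have : (0 : ℝ) < 0 := h.2
      linarith
    · refine iff_of_true ⟨?_, ?_⟩ ⟨by decide, by decide⟩
      · show (0 : ℝ) ≤ 0
        exact le_refl _
      · show -d.cx < 0
        linarith
    · refine iff_of_false (fun h => ?_) (fun h => absurd h.1 (by decide))
      have : (0 : ℝ) ≤ -d.cx := h.1
      linarith

theorem branch13 : DiscBranchSet K13 d.P13 {11, 12} := by
  refine ⟨?_, ?_⟩
  · have : ∀ v ∈ ({11, 12} : Multiset (Fin 13)), v ∈ ([3, 6, 9, 11, 12] : List (Fin 13)) := by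
      decide +kernel
    exact fun v hv => (K13_interior v).2 (this v hv)
  · intro v hv
    rw [K13_interior] at hv
    rw [cnt_beta]
    by_cases h9 : v = 9
    · subst h9
      exact d.angle9
    · exact d.angle13 v (by revert hv h9; revert v; decide +kernel)

include d in
theorem branchStructure : IsBranchStructure K13 {11, 12} :=
  ⟨d.P13, d.packing13, d.branch13, fun v hv => d.horocycle v (by rwa [K13_interior] at hv)⟩

end DDat

end Pool.Agent.Helper67.CP
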