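import Pool.Agent.Helper67.CP.Hyp

namespace Pool.Agent.Helper67.CP

open scoped InnerProductSpace ComplexConjugate
open OComplex

/-- The quantity whose sign is the orientation of two neighbours seen from the hyperbolic
centre. -/
noncomputable def crs (c u w : DiscCircle) : ℝ :=
  (1 - ‖c.center‖ ^ 2 - c.radius ^ 2) *
    ((conj c.center * w.center).im * ((conj c.center * u.center).re - ‖c.center‖ ^ 2) -
      (conj c.center * u.center).im * ((conj c.center * w.center).re - ‖c.center‖ ^ 2)) -
  2 * ‖c.center‖ ^ 2 * c.radius *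
    ((conj c.center * w.center).im * (c.radius + u.radius) -
      (conj c.center * u.center).im * (c.radius + w.radius))

theorem touch_norm {c d : DiscCircle} (h : c.Tangent d) : ‖c.touch d - c.center‖ = c.radius := by
  have h1 := c.radius_pos
  have h2 := d.radius_pos
  unfold DiscCircle.touch
  rw [add_sub_cancel_left, norm_mul, Complex.norm_real, Real.norm_of_nonneg (by positivity)]
  have h3 : ‖d.center - c.center‖ = c.radius + d.radius := by
    rw [← h, dist_comm, dist_eq_norm]
  rw [h3]
  field_simp

theorem touch_re (c d : DiscCircle) : (conj c.center * c.touch d).re =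
    ‖c.center‖ ^ 2 + c.radius / (c.radius + d.radius) *
      ((conj c.center * d.center).re - ‖c.center‖ ^ 2) := by
  have h : ‖c.center‖ ^ 2 = c.center.re ^ 2 + c.center.im ^ 2 := by
    rw [Complex.sq_norm, Complex.normSq_apply]; ring
  unfold DiscCircle.touch
  rw [h]
  simp [Complex.mul_re, Complex.mul_im, -Complex.ofReal_div]
  ring

theorem touch_im (c d : DiscCircle) : (conj c.center * c.touch d).im =
    c.radius / (c.radius + d.radius) * (conj c.center * d.center).im := by
  unfold DiscCircle.touch
  simp [Complex.mul_re, Complex.mul_im, -Complex.ofReal_div]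
  ring

section

variable {V : Type} [Fintype V] [DecidableEq V]

/-- The total angle of a disc packing at an interior vertex whose circle is not centred at the
origin. -/
theorem discAngle_ne {K : OComplex V} (hK : K.IsSurface) {v : V} (hv : K.IsInterior v)
    {P : V → DiscCircle} (hP : IsDiscPacking K P) (h1 : ‖(P v).center‖ + (P v).radius < 1)
    (ha : (P v).center ≠ 0) (hcr : ∀ u w, (v, u, w) ∈ K.faces → 0 < crs (P v) (P u) (P w))
    (k : ℕ) (hk : ((K.faces.filter fun f => f.1 = v).filter
        fun f => 0 ≤ (conj (P v).center * (P f.2.1).center).im ∧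
          (conj (P v).center * (P f.2.2).center).im < 0).card = 1 + k) :
    ∃ h, (P v).IsHypCenter h ∧
      ∑ f ∈ K.faces with f.1 = v, hypAngle h ((P v).touch (P f.2.1)) ((P v).touch (P f.2.2)) =
        2 * Real.pi * (1 + k) := by
  obtain ⟨l, hl⟩ := exists_Lam (P v) h1
  refine ⟨_, hl.isHypCenter, ?_⟩
  have hl1 := hl.one_lt
  have hc : 0 < (1 - l ^ 2 * ‖(P v).center‖ ^ 2) / l :=
    div_pos (by have := hl.lt_one; linarith) (by linarith)
  have hca : conj (P v).center ≠ 0 := by simpa using ha
  set T : ℂ → ℂ := fun p => (p - (l : ℂ) * (P v).center) / (1 - conj ((l : ℂ) * (P v).center) * p)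
    with hT
  set Z : V → ℂ := fun u => conj (P v).center * T ((P v).touch (P u)) with hZ
  have hZu : ∀ u, (P v).Tangent (P u) → ∃ μ : ℝ, 0 < μ ∧
      (Z u).re = μ * ((1 - ‖(P v).center‖ ^ 2 - (P v).radius ^ 2) *
        ((conj (P v).center * (P u).center).re - ‖(P v).center‖ ^ 2) -
          2 * ‖(P v).center‖ ^ 2 * (P v).radius * ((P v).radius + (P u).radius)) ∧
      (Z u).im = μ * ((1 - l ^ 2 * ‖(P v).center‖ ^ 2) / l *
        (conj (P v).center * (P u).center).im) := by
    intro u hu
    obtain ⟨μ, hμ, hμ2⟩ := hl.dir (touch_norm hu)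
    have r1 := (P v).radius_pos
    have r2 := (P u).radius_pos
    refine ⟨μ * ((P v).radius / ((P v).radius + (P u).radius)), by positivity, ?_, ?_⟩
    · simp only [hZ, hT]
      rw [hμ2, touch_re]
      simp only
      field_simp
      ring
    · simp only [hZ, hT]
      rw [hμ2, touch_im]
      simp only
      ring
  have hsum : ∑ f ∈ K.faces with f.1 = v,
      hypAngle ((l : ℂ) * (P v).center) ((P v).touch (P f.2.1)) ((P v).touch (P f.2.2)) =
      ∑ f ∈ K.faces with f.1 = v, InnerProductGeometry.angle (Z f.2.1) (Z f.2.2) := by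
    refine Finset.sum_congr rfl fun f _ => ?_
    simp only [hZ, hT]
    rw [Complex.angle_mul_left hca]
    rfl
  rw [hsum, sum_angle hK hv Z]
  · have h3 : ((K.faces.filter fun f => f.1 = v).filter
        fun f => 0 ≤ (Z f.2.1).im ∧ (Z f.2.2).im < 0) =
        ((K.faces.filter fun f => f.1 = v).filter
        fun f => 0 ≤ (conj (P v).center * (P f.2.1).center).im ∧
          (conj (P v).center * (P f.2.2).center).im < 0) := by
      refine Finset.filter_congr ?_
      rintro ⟨a, b, c⟩ hf
      rw [Finset.mem_filter] at hf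
      obtain ⟨hf, rfl⟩ := hf
      simp only
      obtain ⟨t1, t2, t3, _⟩ := hP _ _ _ hf
      have t3' : (P a).Tangent (P c) := by
        unfold DiscCircle.Tangent at *
        rw [dist_comm, t3, add_comm]
      obtain ⟨μ1, p1, _, q1⟩ := hZu b t1
      obtain ⟨μ2, p2, _, q2⟩ := hZu c t3'
      rw [q1, q2]
      have e1 : ∀ (μ x : ℝ), 0 < μ → (0 ≤ μ * ((1 - l ^ 2 * ‖(P a).center‖ ^ 2) / l * x) ↔
          0 ≤ x) := by
        intro μ x hμ
        rw [mul_nonneg_iff_of_pos_left hμ, mul_nonneg_iff_of_pos_left hc]
      have e2 : ∀ (μ x : ℝ), 0 < μ → (μ * ((1 - l ^ 2 * ‖(P a).center‖ ^ 2) / l * x) < 0 ↔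
          x < 0) := by
        intro μ x hμ
        rw [← not_iff_not, not_lt, not_lt, e1 μ x hμ]
      rw [e1 _ _ p1, e2 _ _ p2]
    rw [h3, hk]
    push_cast
    ring
  · rintro ⟨a, b, c⟩ hf rfl
    simp only
    obtain ⟨t1, t2, t3, _⟩ := hP _ _ _ hf
    have t3' : (P a).Tangent (P c) := by
      unfold DiscCircle.Tangent at *
      rw [dist_comm, t3, add_comm]
    obtain ⟨μ1, p1, x1, y1⟩ := hZu b t1
    obtain ⟨μ2, p2, x2, y2⟩ := hZu c t3'
    have hcr' := hcr b c hf
    have e : (conj (Z b) * Z c).im =
        μ1 * μ2 * ((1 - l ^ 2 * ‖(P a).center‖ ^ 2) / l) * crs (P a) (P b) (P c) := by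
      have : (conj (Z b) * Z c).im = (Z b).re * (Z c).im - (Z b).im * (Z c).re := by
        simp [Complex.mul_im]
        ring
      rw [this, x1, x2, y1, y2]
      unfold crs
      ring
    rw [e]
    positivity

/-- The total angle of a disc packing at an interior vertex whose circle is centred at the
origin. -/
theorem discAngle_zero {K : OComplex V} (hK : K.IsSurface) {v : V} (hv : K.IsInterior v)
    {P : V → DiscCircle} (ha : (P v).center = 0)
    (hcr : ∀ u w, (v, u, w) ∈ K.faces → 0 < (conj (P u).center * (P w).center).im)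
    (k : ℕ) (hk : ((K.faces.filter fun f => f.1 = v).filter
        fun f => 0 ≤ (P f.2.1).center.im ∧ (P f.2.2).center.im < 0).card = 1 + k) :
    ∃ h, (P v).IsHypCenter h ∧
      ∑ f ∈ K.faces with f.1 = v, hypAngle h ((P v).touch (P f.2.1)) ((P v).touch (P f.2.2)) =
        2 * Real.pi * (1 + k) := by
  refine ⟨0, ⟨by simp, (P v).radius, ?_⟩, ?_⟩
  · intro z hz
    rw [ha] at hz
    simpa using hz
  have hpos : ∀ u, 0 < (P v).radius / ((P v).radius + (P u).radius) := fun u =>
    div_pos (P v).radius_pos (add_pos (P v).radius_pos (P u).radius_pos)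
  have htouch : ∀ u, (P v).touch (P u) =
      (((P v).radius / ((P v).radius + (P u).radius) : ℝ) : ℂ) * (P u).center := by
    intro u
    unfold DiscCircle.touch
    rw [ha]
    ring
  have hsum : ∑ f ∈ K.faces with f.1 = v,
      hypAngle 0 ((P v).touch (P f.2.1)) ((P v).touch (P f.2.2)) =
      ∑ f ∈ K.faces with f.1 = v, InnerProductGeometry.angle
        ((fun u => (P u).center) f.2.1) ((fun u => (P u).center) f.2.2) := by
    refine Finset.sum_congr rfl fun f _ => ?_
    unfold hypAngle
    rw [htouch, htouch]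
    simp only [sub_zero, map_zero, zero_mul, div_one]
    rw [← Complex.real_smul, ← Complex.real_smul,
      InnerProductGeometry.angle_smul_left_of_pos _ _ (hpos _),
      InnerProductGeometry.angle_smul_right_of_pos _ _ (hpos _)]
  have h2 := sum_angle hK hv (fun u => (P u).center) (by
    rintro ⟨a, b, c⟩ hf rfl
    exact hcr _ _ hf)
  rw [hsum, h2]
  have h3 : ((K.faces.filter fun f => f.1 = v).filter
      fun f => 0 ≤ ((fun u => (P u).center) f.2.1).im ∧
        ((fun u => (P u).center) f.2.2).im < 0).card = 1 + k := hk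
  rw [h3]
  push_cast
  ring

end

end Pool.Agent.Helper67.CP
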