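import Pool.Agent.Helper67.CP.Comb

namespace Pool.Agent.Helper67.CP

open OComplex

/-- `(u, v)` is a boundary edge of the set of faces `S`. -/
def Bd (S : Finset (Fin 13 × Fin 13 × Fin 13)) (u v : Fin 13) : Prop :=
  (∃ w, (u, v, w) ∈ S) ∧ ¬ ∃ w, (v, u, w) ∈ S

section

variable {S : Finset (Fin 13 × Fin 13 × Fin 13)}

theorem bd_step (hS : S ⊆ K13.faces) {u v w : Fin 13} (w' : Fin 13) (h : (u, v, w) ∈ S)
    (hw : ∀ x, (v, u, x) ∈ K13.faces → x = w') : Bd S u v ∨ (v, u, w') ∈ S := by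
  by_cases hc : (v, u, w') ∈ S
  · exact Or.inr hc
  · refine Or.inl ⟨⟨w, h⟩, ?_⟩
    rintro ⟨x, hx⟩
    rw [hw x (hS hx)] at hx
    exact hc hx

theorem bd_end (hS : S ⊆ K13.faces) {u v w : Fin 13} (h : (u, v, w) ∈ S)
    (hw : ∀ x, (v, u, x) ∉ K13.faces) : Bd S u v :=
  ⟨⟨w, h⟩, fun ⟨x, hx⟩ => hw x (hS hx)⟩

theorem mem13 (u v w : Fin 13) : (u, v, w) ∈ K13.faces ↔ (u.1, v.1, w.1) ∈ list13 :=
  mem_ofList list13_lt u v w

/-- The face on the left of each oriented edge. -/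
theorem third (f : ℕ × ℕ × ℕ) (hf : f ∈ list13) (x : Fin 13) :
    ∀ u v : Fin 13, u.1 = f.1 → v.1 = f.2.1 → (u, v, x) ∈ K13.faces → x.1 = f.2.2 := by
  intro u v hu hv h
  rw [mem13] at h
  have : ∀ f ∈ list13, ∀ g ∈ list13, f.1 = g.1 → f.2.1 = g.2.1 → f.2.2 = g.2.2 := by
    decide +kernel
  exact this _ h _ hf hu hv

theorem third' {u v w : Fin 13} (hf : (u.1, v.1, w.1) ∈ list13) (x : Fin 13)
    (h : (u, v, x) ∈ K13.faces) : x = w :=
  Fin.ext (third _ hf x u v rfl rfl h)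

theorem nothird {u v : Fin 13} (hf : ∀ f ∈ list13, ¬ (f.1 = u.1 ∧ f.2.1 = v.1)) (x : Fin 13) :
    (u, v, x) ∉ K13.faces := by
  intro h
  rw [mem13] at h
  exact hf _ h ⟨rfl, rfl⟩

variable (hS : S ⊆ K13.faces) (rot : ∀ u v w, (u, v, w) ∈ S → (v, w, u) ∈ S)

include hS rot in
theorem star11 (hb : ∀ x, ¬ Bd S x 11) (h : ∃ u w, (11, u, w) ∈ S) :
    (11, 9, 3) ∈ S ∧ (11, 3, 2) ∈ S ∧ (11, 2, 8) ∈ S ∧ (11, 8, 5) ∈ S ∧ (11, 5, 6) ∈ S ∧
      (11, 6, 9) ∈ S := by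
  have nx : ∀ a b c : Fin 13, (11, a, b) ∈ S → (((11 : Fin 13).1, b.1, c.1) ∈ list13) →
      (11, b, c) ∈ S := by
    intro a b c h1 h2
    have h3 := rot _ _ _ (rot _ _ _ h1)
    rcases bd_step hS c h3 (fun x => third' h2 x) with h4 | h4
    · exact absurd h4 (hb _)
    · exact h4
  have h1 := nx 9 3 2
  have h2 := nx 3 2 8
  have h3 := nx 2 8 5
  have h4 := nx 8 5 6
  have h5 := nx 5 6 9
  have h6 := nx 6 9 3
  have m1 : ((11 : Fin 13).1, (3 : Fin 13).1, (2 : Fin 13).1) ∈ list13 := by decide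
  have m2 : ((11 : Fin 13).1, (2 : Fin 13).1, (8 : Fin 13).1) ∈ list13 := by decide
  have m3 : ((11 : Fin 13).1, (8 : Fin 13).1, (5 : Fin 13).1) ∈ list13 := by decide
  have m4 : ((11 : Fin 13).1, (5 : Fin 13).1, (6 : Fin 13).1) ∈ list13 := by decide
  have m5 : ((11 : Fin 13).1, (6 : Fin 13).1, (9 : Fin 13).1) ∈ list13 := by decide
  have m6 : ((11 : Fin 13).1, (9 : Fin 13).1, (3 : Fin 13).1) ∈ list13 := by decide
  have key : (11, 9, 3) ∈ S ∨ (11, 3, 2) ∈ S ∨ (11, 2, 8) ∈ S ∨ (11, 8, 5) ∈ S ∨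
      (11, 5, 6) ∈ S ∨ (11, 6, 9) ∈ S := by
    obtain ⟨u, w, huw⟩ := h
    have := hS huw
    rw [mem13] at this
    have hl : ∀ u w : Fin 13, ((11 : Fin 13).1, u.1, w.1) ∈ list13 →
        (u = 9 ∧ w = 3) ∨ (u = 3 ∧ w = 2) ∨ (u = 2 ∧ w = 8) ∨ (u = 8 ∧ w = 5) ∨
        (u = 5 ∧ w = 6) ∨ (u = 6 ∧ w = 9) := by decide +kernel
    rcases hl u w this with ⟨rfl, rfl⟩ | ⟨rfl, rfl⟩ | ⟨rfl, rfl⟩ | ⟨rfl, rfl⟩ | ⟨rfl, rfl⟩ |
      ⟨rfl, rfl⟩ <;> simp only [huw, true_or, or_true]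
  have k1 : (11, 9, 3) ∈ S := by
    rcases key with h | h | h | h | h | h
    · exact h
    · exact h6 (h5 (h4 (h3 (h2 h m2) m3) m4) m5) m6
    · exact h6 (h5 (h4 (h3 h m3) m4) m5) m6
    · exact h6 (h5 (h4 h m4) m5) m6
    · exact h6 (h5 h m5) m6
    · exact h6 h m6
  have k2 := h1 k1 m1
  have k3 := h2 k2 m2
  have k4 := h3 k3 m3
  have k5 := h4 k4 m4
  have k6 := h5 k5 m5
  exact ⟨k1, k2, k3, k4, k5, k6⟩

include hS rot in
theorem star12 (hb : ∀ x, ¬ Bd S x 12) (h : ∃ u w, (12, u, w) ∈ S) :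
    (12, 10, 4) ∈ S ∧ (12, 4, 3) ∈ S ∧ (12, 3, 9) ∈ S ∧ (12, 9, 6) ∈ S ∧ (12, 6, 7) ∈ S ∧
      (12, 7, 10) ∈ S := by
  have nx : ∀ a b c : Fin 13, (12, a, b) ∈ S → (((12 : Fin 13).1, b.1, c.1) ∈ list13) →
      (12, b, c) ∈ S := by
    intro a b c h1 h2
    have h3 := rot _ _ _ (rot _ _ _ h1)
    rcases bd_step hS c h3 (fun x => third' h2 x) with h4 | h4
    · exact absurd h4 (hb _)
    · exact h4
  have h1 := nx 10 4 3
  have h2 := nx 4 3 9
  have h3 := nx 3 9 6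
  have h4 := nx 9 6 7
  have h5 := nx 6 7 10
  have h6 := nx 7 10 4
  have m1 : ((12 : Fin 13).1, (4 : Fin 13).1, (3 : Fin 13).1) ∈ list13 := by decide
  have m2 : ((12 : Fin 13).1, (3 : Fin 13).1, (9 : Fin 13).1) ∈ list13 := by decide
  have m3 : ((12 : Fin 13).1, (9 : Fin 13).1, (6 : Fin 13).1) ∈ list13 := by decide
  have m4 : ((12 : Fin 13).1, (6 : Fin 13).1, (7 : Fin 13).1) ∈ list13 := by decide
  have m5 : ((12 : Fin 13).1, (7 : Fin 13).1, (10 : Fin 13).1) ∈ list13 := by decide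
  have m6 : ((12 : Fin 13).1, (10 : Fin 13).1, (4 : Fin 13).1) ∈ list13 := by decide
  have key : (12, 10, 4) ∈ S ∨ (12, 4, 3) ∈ S ∨ (12, 3, 9) ∈ S ∨ (12, 9, 6) ∈ S ∨
      (12, 6, 7) ∈ S ∨ (12, 7, 10) ∈ S := by
    obtain ⟨u, w, huw⟩ := h
    have := hS huw
    rw [mem13] at this
    have hl : ∀ u w : Fin 13, ((12 : Fin 13).1, u.1, w.1) ∈ list13 →
        (u = 10 ∧ w = 4) ∨ (u = 4 ∧ w = 3) ∨ (u = 3 ∧ w = 9) ∨ (u = 9 ∧ w = 6) ∨
        (u = 6 ∧ w = 7) ∨ (u = 7 ∧ w = 10) := by decide +kernel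
    rcases hl u w this with ⟨rfl, rfl⟩ | ⟨rfl, rfl⟩ | ⟨rfl, rfl⟩ | ⟨rfl, rfl⟩ | ⟨rfl, rfl⟩ |
      ⟨rfl, rfl⟩ <;> simp only [huw, true_or, or_true]
  have k1 : (12, 10, 4) ∈ S := by
    rcases key with h | h | h | h | h | h
    · exact h
    · exact h6 (h5 (h4 (h3 (h2 h m2) m3) m4) m5) m6
    · exact h6 (h5 (h4 (h3 h m3) m4) m5) m6
    · exact h6 (h5 (h4 h m4) m5) m6
    · exact h6 (h5 h m5) m6
    · exact h6 h m6
  have k2 := h1 k1 m1
  have k3 := h2 k2 m2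
  have k4 := h3 k3 m3
  have k5 := h4 k4 m4
  have k6 := h5 k5 m5
  exact ⟨k1, k2, k3, k4, k5, k6⟩

/-- Some boundary edge on the dual path through `3 2` and `0 2`. -/
theorem pathA (hS : S ⊆ K13.faces) (rot : ∀ u v w, (u, v, w) ∈ S → (v, w, u) ∈ S)
    (h : (11, 3, 2) ∈ S) : Bd S 3 2 ∨ Bd S 0 2 := by
  rcases bd_step hS 0 (rot _ _ _ h) (third' (by decide)) with h1 | h1
  · exact Or.inl h1
  · exact Or.inr (bd_end hS (rot _ _ _ (rot _ _ _ h1)) (nothird (by decide)))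

theorem pathB (hS : S ⊆ K13.faces) (rot : ∀ u v w, (u, v, w) ∈ S → (v, w, u) ∈ S)
    (h : (11, 5, 6) ∈ S) : Bd S 5 6 ∨ Bd S 5 1 := by
  rcases bd_step hS 1 (rot _ _ _ h) (third' (by decide)) with h1 | h1
  · exact Or.inl h1
  · exact Or.inr (bd_end hS (rot _ _ _ h1) (nothird (by decide)))

theorem pathC (hS : S ⊆ K13.faces) (rot : ∀ u v w, (u, v, w) ∈ S → (v, w, u) ∈ S)
    (h : (12, 4, 3) ∈ S) : Bd S 4 3 ∨ Bd S 4 0 := by
  rcases bd_step hS 0 (rot _ _ _ h) (third' (by decide)) with h1 | h1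
  · exact Or.inl h1
  · exact Or.inr (bd_end hS (rot _ _ _ h1) (nothird (by decide)))

theorem pathD (hS : S ⊆ K13.faces) (rot : ∀ u v w, (u, v, w) ∈ S → (v, w, u) ∈ S)
    (h : (12, 6, 7) ∈ S) : Bd S 6 7 ∨ Bd S 1 7 := by
  rcases bd_step hS 1 (rot _ _ _ h) (third' (by decide)) with h1 | h1
  · exact Or.inl h1
  · exact Or.inr (bd_end hS (rot _ _ _ (rot _ _ _ h1)) (nothird (by decide)))

theorem pathE (hS : S ⊆ K13.faces) (rot : ∀ u v w, (u, v, w) ∈ S → (v, w, u) ∈ S)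
    (h : (11, 9, 3) ∈ S) : Bd S 9 3 ∨ Bd S 12 3 ∨ Bd S 4 3 ∨ Bd S 4 0 := by
  rcases bd_step hS 12 (rot _ _ _ h) (third' (by decide)) with h1 | h1
  · exact Or.inl h1
  · rcases bd_step hS 4 (rot _ _ _ (rot _ _ _ h1)) (third' (by decide)) with h2 | h2
    · exact Or.inr (Or.inl h2)
    · exact Or.inr (Or.inr (pathC hS rot (rot _ _ _ h2)))

theorem pathF (hS : S ⊆ K13.faces) (rot : ∀ u v w, (u, v, w) ∈ S → (v, w, u) ∈ S)
    (h : (11, 6, 9) ∈ S) : Bd S 6 9 ∨ Bd S 6 12 ∨ Bd S 6 7 ∨ Bd S 1 7 := by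
  rcases bd_step hS 12 (rot _ _ _ h) (third' (by decide)) with h1 | h1
  · exact Or.inl h1
  · rcases bd_step hS 7 (rot _ _ _ h1) (third' (by decide)) with h2 | h2
    · exact Or.inr (Or.inl h2)
    · exact Or.inr (Or.inr (pathD hS rot h2))

theorem pathG (hS : S ⊆ K13.faces) (rot : ∀ u v w, (u, v, w) ∈ S → (v, w, u) ∈ S)
    (h : (12, 3, 9) ∈ S) : Bd S 3 9 ∨ Bd S 3 11 ∨ Bd S 3 2 ∨ Bd S 0 2 := by
  rcases bd_step hS 11 (rot _ _ _ h) (third' (by decide)) with h1 | h1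
  · exact Or.inl h1
  · rcases bd_step hS 2 (rot _ _ _ h1) (third' (by decide)) with h2 | h2
    · exact Or.inr (Or.inl h2)
    · exact Or.inr (Or.inr (pathA hS rot h2))

theorem pathH (hS : S ⊆ K13.faces) (rot : ∀ u v w, (u, v, w) ∈ S → (v, w, u) ∈ S)
    (h : (12, 9, 6) ∈ S) : Bd S 9 6 ∨ Bd S 11 6 ∨ Bd S 5 6 ∨ Bd S 5 1 := by
  rcases bd_step hS 11 (rot _ _ _ h) (third' (by decide)) with h1 | h1
  · exact Or.inl h1
  · rcases bd_step hS 5 (rot _ _ _ (rot _ _ _ h1)) (third' (by decide)) with h2 | h2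
    · exact Or.inr (Or.inl h2)
    · exact Or.inr (Or.inr (pathB hS rot (rot _ _ _ h2)))

end

open Classical in
theorem le_card (S : Finset (Fin 13 × Fin 13 × Fin 13)) (n : ℕ) (c : Fin 13 → Fin 13 → ℕ)
    (h : ∀ j < n, ∃ u v, Bd S u v ∧ c u v = j) :
    n ≤ (Finset.univ.filter fun e : Fin 13 × Fin 13 => Bd S e.1 e.2).card := by
  have h1 : Finset.range n ⊆ (Finset.univ.filter fun e : Fin 13 × Fin 13 =>
      Bd S e.1 e.2).image (fun e => c e.1 e.2) := by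
    intro j hj
    obtain ⟨u, v, hb, hc⟩ := h j (Finset.mem_range.1 hj)
    exact Finset.mem_image.2 ⟨(u, v), by simpa using hb, hc⟩
  have h2 := Finset.card_le_card h1
  rw [Finset.card_range] at h2
  exact h2.trans Finset.card_image_le

open Classical in
theorem card_le {k : ℕ} {γ : Fin (k + 3) → Fin 13} {S : Finset (Fin 13 × Fin 13 × Fin 13)}
    (h : K13.Encloses γ S) :
    (Finset.univ.filter fun e : Fin 13 × Fin 13 => Bd S e.1 e.2).card ≤ k + 3 := by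
  have h1 : (Finset.univ.filter fun e : Fin 13 × Fin 13 => Bd S e.1 e.2) ⊆
      (Finset.univ : Finset (Fin (k + 3))).image fun i => (γ i, γ (i + 1)) := by
    rintro ⟨u, v⟩ he
    rw [Finset.mem_filter] at he
    obtain ⟨i, hi, hi'⟩ := (h.bdry u v).1 he.2
    exact Finset.mem_image.2 ⟨i, Finset.mem_univ _, by rw [hi, hi']⟩
  refine (Finset.card_le_card h1).trans ?_
  refine Finset.card_image_le.trans ?_
  rw [Finset.card_univ, Fintype.card_fin]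

def c11 (u v : Fin 13) : ℕ :=
  if (u, v) = (2, 8) then 0 else if (u, v) = (8, 5) then 1 else
  if (u, v) ∈ [((3 : Fin 13), (2 : Fin 13)), (0, 2)] then 2 else
  if (u, v) ∈ [((5 : Fin 13), (6 : Fin 13)), (5, 1)] then 3 else
  if (u, v) ∈ [((9 : Fin 13), (3 : Fin 13)), (12, 3), (4, 3), (4, 0)] then 4 else 5

def c12 (u v : Fin 13) : ℕ :=
  if (u, v) = (10, 4) then 0 else if (u, v) = (7, 10) then 1 else
  if (u, v) ∈ [((4 : Fin 13), (3 : Fin 13)), (4, 0)] then 2 else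
  if (u, v) ∈ [((6 : Fin 13), (7 : Fin 13)), (1, 7)] then 3 else
  if (u, v) ∈ [((3 : Fin 13), (9 : Fin 13)), (3, 11), (3, 2), (0, 2)] then 4 else 5

def cb (u v : Fin 13) : ℕ :=
  if (u, v) = (2, 8) then 0 else if (u, v) = (8, 5) then 1 else
  if (u, v) = (10, 4) then 2 else if (u, v) = (7, 10) then 3 else
  if (u, v) ∈ [((3 : Fin 13), (2 : Fin 13)), (0, 2)] then 4 else
  if (u, v) ∈ [((5 : Fin 13), (6 : Fin 13)), (5, 1)] then 5 else
  if (u, v) ∈ [((4 : Fin 13), (3 : Fin 13)), (4, 0)] then 6 else 7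

section

variable {k : ℕ} {γ : Fin (k + 3) → Fin 13} {S : Finset (Fin 13 × Fin 13 × Fin 13)}

theorem nobd (h : K13.Encloses γ S) {v : Fin 13} (hv : v ∉ Set.range γ) (x : Fin 13) :
    ¬ Bd S x v := by
  intro hb
  obtain ⟨i, _, hi⟩ := (h.bdry x v).1 hb
  exact hv ⟨_, hi⟩

theorem six11 (h : K13.Encloses γ S) (hv : (11 : Fin 13) ∉ Set.range γ)
    (hf : ∃ u w, (11, u, w) ∈ S) : 6 ≤ k + 3 := by
  obtain ⟨k1, k2, k3, k4, k5, k6⟩ := star11 h.sub h.rot (nobd h hv) hf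
  refine (le_card S 6 c11 ?_).trans (card_le h)
  intro j hj
  interval_cases j
  · exact ⟨2, 8, bd_end h.sub (h.rot _ _ _ k3) (nothird (by decide)), by decide⟩
  · exact ⟨8, 5, bd_end h.sub (h.rot _ _ _ k4) (nothird (by decide)), by decide⟩
  · rcases pathA h.sub h.rot k2 with hh | hh
    · exact ⟨_, _, hh, by decide⟩
    · exact ⟨_, _, hh, by decide⟩
  · rcases pathB h.sub h.rot k5 with hh | hh
    · exact ⟨_, _, hh, by decide⟩
    · exact ⟨_, _, hh, by decide⟩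
  · rcases pathE h.sub h.rot k1 with hh | hh | hh | hh
    · exact ⟨_, _, hh, by decide⟩
    · exact ⟨_, _, hh, by decide⟩
    · exact ⟨_, _, hh, by decide⟩
    · exact ⟨_, _, hh, by decide⟩
  · rcases pathF h.sub h.rot k6 with hh | hh | hh | hh
    · exact ⟨_, _, hh, by decide⟩
    · exact ⟨_, _, hh, by decide⟩
    · exact ⟨_, _, hh, by decide⟩
    · exact ⟨_, _, hh, by decide⟩

theorem six12 (h : K13.Encloses γ S) (hv : (12 : Fin 13) ∉ Set.range γ)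
    (hf : ∃ u w, (12, u, w) ∈ S) : 6 ≤ k + 3 := by
  obtain ⟨k1, k2, k3, k4, k5, k6⟩ := star12 h.sub h.rot (nobd h hv) hf
  refine (le_card S 6 c12 ?_).trans (card_le h)
  intro j hj
  interval_cases j
  · exact ⟨10, 4, bd_end h.sub (h.rot _ _ _ k1) (nothird (by decide)), by decide⟩
  · exact ⟨7, 10, bd_end h.sub (h.rot _ _ _ k6) (nothird (by decide)), by decide⟩
  · rcases pathC h.sub h.rot k2 with hh | hh
    · exact ⟨_, _, hh, by decide⟩
    · exact ⟨_, _, hh, by decide⟩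
  · rcases pathD h.sub h.rot k5 with hh | hh
    · exact ⟨_, _, hh, by decide⟩
    · exact ⟨_, _, hh, by decide⟩
  · rcases pathG h.sub h.rot k3 with hh | hh | hh | hh
    · exact ⟨_, _, hh, by decide⟩
    · exact ⟨_, _, hh, by decide⟩
    · exact ⟨_, _, hh, by decide⟩
    · exact ⟨_, _, hh, by decide⟩
  · rcases pathH h.sub h.rot k4 with hh | hh | hh | hh
    · exact ⟨_, _, hh, by decide⟩
    · exact ⟨_, _, hh, by decide⟩
    · exact ⟨_, _, hh, by decide⟩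
    · exact ⟨_, _, hh, by decide⟩

theorem eight (h : K13.Encloses γ S) (hv : (11 : Fin 13) ∉ Set.range γ)
    (hf : ∃ u w, (11, u, w) ∈ S) (hv' : (12 : Fin 13) ∉ Set.range γ)
    (hf' : ∃ u w, (12, u, w) ∈ S) : 8 ≤ k + 3 := by
  obtain ⟨k1, k2, k3, k4, k5, k6⟩ := star11 h.sub h.rot (nobd h hv) hf
  obtain ⟨l1, l2, l3, l4, l5, l6⟩ := star12 h.sub h.rot (nobd h hv') hf'
  refine (le_card S 8 cb ?_).trans (card_le h)
  intro j hj
  interval_cases j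
  · exact ⟨2, 8, bd_end h.sub (h.rot _ _ _ k3) (nothird (by decide)), by decide⟩
  · exact ⟨8, 5, bd_end h.sub (h.rot _ _ _ k4) (nothird (by decide)), by decide⟩
  · exact ⟨10, 4, bd_end h.sub (h.rot _ _ _ l1) (nothird (by decide)), by decide⟩
  · exact ⟨7, 10, bd_end h.sub (h.rot _ _ _ l6) (nothird (by decide)), by decide⟩
  · rcases pathA h.sub h.rot k2 with hh | hh
    · exact ⟨_, _, hh, by decide⟩
    · exact ⟨_, _, hh, by decide⟩
  · rcases pathB h.sub h.rot k5 with hh | hh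
    · exact ⟨_, _, hh, by decide⟩
    · exact ⟨_, _, hh, by decide⟩
  · rcases pathC h.sub h.rot l2 with hh | hh
    · exact ⟨_, _, hh, by decide⟩
    · exact ⟨_, _, hh, by decide⟩
  · rcases pathD h.sub h.rot l5 with hh | hh
    · exact ⟨_, _, hh, by decide⟩
    · exact ⟨_, _, hh, by decide⟩

end

/-- Dubejko's condition for the disc `K13` and the branch vertices `11`, `12`. -/
theorem K13_dubejko : K13.Dubejko {11, 12} := by
  classical
  intro k γ S h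
  have hcount : ∀ p : Fin 13 → Prop, (inst : DecidablePred p) →
      ({11, 12} : Multiset (Fin 13)).countP p =
        (if p 11 then 1 else 0) + (if p 12 then 1 else 0) := by
    intro p _
    have : ({11, 12} : Multiset (Fin 13)) = 11 ::ₘ 12 ::ₘ 0 := rfl
    rw [this, Multiset.countP_cons, Multiset.countP_cons, Multiset.countP_zero]
    ring
  rw [hcount]
  split_ifs with h1 h2 h2
  · have := eight h h1.1 h1.2 h2.1 h2.2
    omega
  · have := six11 h h1.1 h1.2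
    omega
  · have := six12 h h2.1 h2.2
    omega
  · omega

end Pool.Agent.Helper67.CP
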