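import Pool.Agent.Helper67.CP.Angle

namespace Pool.Agent.Helper67.CP

open scoped InnerProductSpace ComplexConjugate
open OComplex

/-- The scalar `l` with `l * a` the hyperbolic centre of the circle with centre `a`, `|a| ^ 2 = A`,
and radius `ρ`. -/
theorem exists_lam {s ρ : ℝ} (hs : 0 ≤ s) (hρ : 0 < ρ) (h : s + ρ < 1) :
    ∃ l : ℝ, s ^ 2 * l ^ 2 + 1 = l * (1 + s ^ 2 - ρ ^ 2) ∧ 1 < l ∧ l ^ 2 * s ^ 2 < 1 := by
  set D := 1 + s ^ 2 - ρ ^ 2 with hD
  have hDpos : 0 < D := by nlinarith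
  have hdisc : 0 < D ^ 2 - 4 * s ^ 2 := by
    have : D ^ 2 - 4 * s ^ 2 = ((1 - s) ^ 2 - ρ ^ 2) * ((1 + s) ^ 2 - ρ ^ 2) := by
      rw [hD]; ring
    rw [this]
    apply mul_pos <;> nlinarith
  set E := Real.sqrt (D ^ 2 - 4 * s ^ 2) with hE
  have hEpos : 0 < E := Real.sqrt_pos.2 hdisc
  have hE2 : E ^ 2 = D ^ 2 - 4 * s ^ 2 := Real.sq_sqrt hdisc.le
  have hne : D + E ≠ 0 := by positivity
  have hDE : 0 < D + E := by positivity
  refine ⟨2 / (D + E), ?_, ?_, ?_⟩
  · field_simp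
    nlinarith
  · rw [lt_div_iff₀ hDE]
    have hD2 : D < 2 := by nlinarith
    have : E < 2 - D := by
      rw [← abs_of_pos hEpos, ← abs_of_pos (show (0 : ℝ) < 2 - D by linarith), ← sq_lt_sq]
      nlinarith [sq_pos_of_pos hρ]
    linarith
  · rw [div_pow, div_mul_eq_mul_div, div_lt_one (by positivity)]
    nlinarith

/-- Facts about the scalar of the hyperbolic centre. -/
structure Lam (c : DiscCircle) (l : ℝ) : Prop where
  eq : ‖c.center‖ ^ 2 * l ^ 2 + 1 = l * (1 + ‖c.center‖ ^ 2 - c.radius ^ 2)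
  one_lt : 1 < l
  lt_one : l ^ 2 * ‖c.center‖ ^ 2 < 1

theorem exists_Lam (c : DiscCircle) (h : ‖c.center‖ + c.radius < 1) : ∃ l, Lam c l := by
  obtain ⟨l, h1, h2, h3⟩ := exists_lam (norm_nonneg c.center) c.radius_pos h
  exact ⟨l, h1, h2, h3⟩

theorem norm_sub_sq' (z w : ℂ) : ‖z - w‖ ^ 2 = ‖z‖ ^ 2 - 2 * (conj w * z).re + ‖w‖ ^ 2 := by
  rw [Complex.sq_norm, Complex.sq_norm, Complex.sq_norm, Complex.normSq_apply,
    Complex.normSq_apply, Complex.normSq_apply]
  simp [Complex.mul_re]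
  ring

theorem norm_one_sub_sq (l : ℝ) (a z : ℂ) : ‖1 - conj ((l : ℂ) * a) * z‖ ^ 2 =
    1 - 2 * l * (conj a * z).re + l ^ 2 * ‖a‖ ^ 2 * ‖z‖ ^ 2 := by
  rw [Complex.sq_norm, Complex.sq_norm, Complex.sq_norm, Complex.normSq_apply,
    Complex.normSq_apply, Complex.normSq_apply]
  simp [Complex.mul_re, Complex.mul_im]
  ring

theorem Lam.isHypCenter {c : DiscCircle} {l : ℝ} (h : Lam c l) :
    c.IsHypCenter ((l : ℂ) * c.center) := by
  have hl := h.one_lt
  have hA : 0 ≤ ‖c.center‖ ^ 2 := sq_nonneg _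
  have hρ := c.radius_pos
  have hin := c.inside
  have hA1 : ‖c.center‖ ^ 2 < 1 := by nlinarith [norm_nonneg c.center]
  have hlA : l * ‖c.center‖ ^ 2 < 1 := by
    by_contra hc
    push Not at hc
    have h3 := h.lt_one
    nlinarith
  have hden : 0 < l * (1 - l * ‖c.center‖ ^ 2) := mul_pos (by linarith) (by linarith)
  refine ⟨?_, Real.sqrt ((l - 1) / (l * (1 - l * ‖c.center‖ ^ 2))), ?_⟩
  · rw [norm_mul, Complex.norm_real, Real.norm_of_nonneg (by linarith)]
    have h3 := h.lt_one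
    rw [← mul_pow] at h3
    have : 0 ≤ l * ‖c.center‖ := mul_nonneg (by linarith) (norm_nonneg _)
    nlinarith
  · intro z hz
    have hz2 : ‖z‖ ^ 2 - 2 * (conj c.center * z).re + ‖c.center‖ ^ 2 = c.radius ^ 2 := by
      rw [← norm_sub_sq', hz]
    set y := (conj c.center * z).re with hy
    have h1 : ‖z - (l : ℂ) * c.center‖ ^ 2 = ‖z‖ ^ 2 - 2 * l * y + l ^ 2 * ‖c.center‖ ^ 2 := by
      rw [norm_sub_sq', norm_mul, Complex.norm_real, mul_pow, Real.norm_eq_abs, sq_abs]
      have : (conj ((l : ℂ) * c.center) * z).re = l * y := by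
        rw [hy]
        simp [Complex.mul_re]
        ring
      rw [this]
      ring
    have h2 := norm_one_sub_sq l c.center z
    rw [← hy] at h2
    have h3 : ‖z - (l : ℂ) * c.center‖ ^ 2 =
        (l - 1) / (l * (1 - l * ‖c.center‖ ^ 2)) * ‖1 - conj ((l : ℂ) * c.center) * z‖ ^ 2 := by
      rw [h1, h2, div_mul_eq_mul_div, eq_div_iff hden.ne']
      have h4 := h.eq
      have hz3 : ‖z‖ ^ 2 = 2 * y - ‖c.center‖ ^ 2 + c.radius ^ 2 := by linarith
      rw [hz3]
      have hρ2 : l * c.radius ^ 2 = l * (1 + ‖c.center‖ ^ 2) - ‖c.center‖ ^ 2 * l ^ 2 - 1 := by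
        linarith
      generalize ‖c.center‖ ^ 2 = A at *
      linear_combination ((1 - l * A) - (l - 1) * l * A) * hρ2
    rw [← Real.sqrt_sq (norm_nonneg (z - (l : ℂ) * c.center)), h3, Real.sqrt_mul]
    · rw [Real.sqrt_sq (norm_nonneg _)]
    · exact div_nonneg (by linarith) hden.le

/-- The direction of a point of the circle seen from the hyperbolic centre, rotated by
`conj center`. -/
theorem Lam.dir {c : DiscCircle} {l : ℝ} (h : Lam c l) {p : ℂ} (hp : ‖p - c.center‖ = c.radius) :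
    ∃ μ : ℝ, 0 < μ ∧
      conj c.center * ((p - (l : ℂ) * c.center) / (1 - conj ((l : ℂ) * c.center) * p)) =
      (⟨μ * ((1 - ‖c.center‖ ^ 2 - c.radius ^ 2) * (conj c.center * p).re -
        ‖c.center‖ ^ 2 * (1 - ‖c.center‖ ^ 2 + c.radius ^ 2)),
        μ * ((1 - l ^ 2 * ‖c.center‖ ^ 2) / l * (conj c.center * p).im)⟩ : ℂ) := by
  have hl := h.one_lt
  have hl0 : l ≠ 0 := by positivity
  have hh := h.isHypCenter.1
  have hp1 : ‖p‖ ≤ 1 := by
    have h1 : ‖p‖ ≤ ‖p - c.center‖ + ‖c.center‖ := by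
      have := norm_add_le (p - c.center) c.center
      rwa [sub_add_cancel] at this
    have := c.inside
    linarith
  have hne : 1 - conj ((l : ℂ) * c.center) * p ≠ 0 := by
    intro h0
    have h1 : conj ((l : ℂ) * c.center) * p = 1 := by
      rw [sub_eq_zero] at h0
      exact h0.symm
    have h2 : ‖conj ((l : ℂ) * c.center) * p‖ = 1 := by rw [h1, norm_one]
    rw [norm_mul, RCLike.norm_conj] at h2
    nlinarith [norm_nonneg p, norm_nonneg ((l : ℂ) * c.center)]
  have hN : 0 < ‖1 - conj ((l : ℂ) * c.center) * p‖ ^ 2 := by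
    have := norm_pos_iff.2 hne
    positivity
  refine ⟨l / ‖1 - conj ((l : ℂ) * c.center) * p‖ ^ 2, div_pos (by linarith) hN, ?_⟩
  have hp2 : ‖p‖ ^ 2 - 2 * (conj c.center * p).re + ‖c.center‖ ^ 2 = c.radius ^ 2 := by
    rw [← norm_sub_sq', hp]
  have key : conj c.center * (p - (l : ℂ) * c.center) * (1 - (l : ℂ) * c.center * conj p) =
      (⟨l * ((1 - ‖c.center‖ ^ 2 - c.radius ^ 2) * (conj c.center * p).re -
        ‖c.center‖ ^ 2 * (1 - ‖c.center‖ ^ 2 + c.radius ^ 2)),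
        l * ((1 - l ^ 2 * ‖c.center‖ ^ 2) / l * (conj c.center * p).im)⟩ : ℂ) := by
    have h4 := h.eq
    have ec : ‖c.center‖ ^ 2 = c.center.re ^ 2 + c.center.im ^ 2 := by
      rw [Complex.sq_norm, Complex.normSq_apply]; ring
    have ep : ‖p‖ ^ 2 = p.re ^ 2 + p.im ^ 2 := by
      rw [Complex.sq_norm, Complex.normSq_apply]; ring
    rw [ep, ec] at hp2
    rw [ec] at h4
    rw [ec]
    have hp3 : (conj c.center * p).re = c.center.re * p.re + c.center.im * p.im := by
      simp [Complex.mul_re]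
    have hp4 : (conj c.center * p).im = c.center.re * p.im - c.center.im * p.re := by
      simp [Complex.mul_im]
      ring
    rw [hp3] at hp2
    rw [hp3, hp4]
    apply Complex.ext
    · simp [Complex.mul_re, Complex.mul_im]
      linear_combination (c.center.re * p.re + c.center.im * p.im) * h4 -
        l * (c.center.re ^ 2 + c.center.im ^ 2) * hp2
    · simp [Complex.mul_re, Complex.mul_im]
      field_simp
      ring
  have hconj : (p - (l : ℂ) * c.center) / (1 - conj ((l : ℂ) * c.center) * p) =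
      ((1 / ‖1 - conj ((l : ℂ) * c.center) * p‖ ^ 2 : ℝ) : ℂ) *
        ((p - (l : ℂ) * c.center) * (1 - (l : ℂ) * c.center * conj p)) := by
    have h5 : ((‖1 - conj ((l : ℂ) * c.center) * p‖ ^ 2 : ℝ) : ℂ) =
        (1 - conj ((l : ℂ) * c.center) * p) * (1 - (l : ℂ) * c.center * conj p) := by
      rw [← Complex.normSq_eq_norm_sq, ← Complex.mul_conj]
      congr 1
      simp
    have h6 : (1 - (l : ℂ) * c.center * conj p) ≠ 0 := by
      intro h0
      apply hne
      have := congrArg conj h0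
      simpa using this
    have hN' : ((‖1 - conj ((l : ℂ) * c.center) * p‖ ^ 2 : ℝ) : ℂ) ≠ 0 := by
      exact_mod_cast hN.ne'
    rw [Complex.ofReal_div, Complex.ofReal_one, h5]
    field_simp
  rw [hconj]
  have hcomm : conj c.center * (((1 / ‖1 - conj ((l : ℂ) * c.center) * p‖ ^ 2 : ℝ) : ℂ) *
        ((p - (l : ℂ) * c.center) * (1 - (l : ℂ) * c.center * conj p))) =
      ((1 / ‖1 - conj ((l : ℂ) * c.center) * p‖ ^ 2 : ℝ) : ℂ) *
      (conj c.center * (p - (l : ℂ) * c.center) * (1 - (l : ℂ) * c.center * conj p)) := by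
    ring
  rw [hcomm, key]
  apply Complex.ext
  · simp only [Complex.re_ofReal_mul]
    ring
  · simp only [Complex.im_ofReal_mul]
    ring

end Pool.Agent.Helper67.CP
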