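import Pool.Agent.Helper67.CP.Angle

namespace Pool.Agent.Helper67.CP

open scoped InnerProductSpace ComplexConjugate
open OComplex

/-- The vector with given coordinates. -/
noncomputable def v3 (a b c : ℝ) : EuclideanSpace ℝ (Fin 3) := !₂[a, b, c]

theorem v3_0 (a b c : ℝ) : v3 a b c 0 = a := rfl
theorem v3_1 (a b c : ℝ) : v3 a b c 1 = b := rfl
theorem v3_2 (a b c : ℝ) : v3 a b c 2 = c := rfl

theorem inner_v3 (a b c a' b' c' : ℝ) : ⟪v3 a b c, v3 a' b' c'⟫_ℝ = a * a' + b * b' + c * c' := by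
  rw [inner3_eq]
  simp only [v3_0, v3_1, v3_2]

theorem norm_v3 {a b c d : ℝ} (h : a ^ 2 + b ^ 2 + c ^ 2 = 1 + d ^ 2) :
    ‖v3 a b c‖ = Real.sqrt (1 + d ^ 2) := by
  rw [← h, ← Real.sqrt_sq (norm_nonneg (v3 a b c)), ← real_inner_self_eq_norm_sq, inner_v3]
  congr 1
  ring

/-- The circle on the sphere with Lorentz vector `(a, b, c; d)`. -/
noncomputable def mkC (a b c d : ℝ) (h : a ^ 2 + b ^ 2 + c ^ 2 = 1 + d ^ 2) : SphCircle where
  center := (Real.sqrt (1 + d ^ 2))⁻¹ • v3 a b c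
  radius := Real.arccos (d / Real.sqrt (1 + d ^ 2))
  norm_center := by
    rw [norm_smul, norm_v3 h, Real.norm_of_nonneg (inv_nonneg.2 (Real.sqrt_nonneg _)),
      inv_mul_cancel₀ (Real.sqrt_pos.2 (by positivity)).ne']
  radius_pos := by
    rw [Real.arccos_pos, div_lt_one (Real.sqrt_pos.2 (by positivity))]
    exact Real.lt_sqrt_of_sq_lt (by linarith)
  radius_lt := by
    have hs : 0 < Real.sqrt (1 + d ^ 2) := Real.sqrt_pos.2 (by positivity)
    have h1 : -1 < d / Real.sqrt (1 + d ^ 2) := by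
      rw [lt_div_iff₀ hs]
      have : -d < Real.sqrt (1 + d ^ 2) := Real.lt_sqrt_of_sq_lt (by nlinarith)
      linarith
    rcases lt_or_eq_of_le (Real.arccos_le_pi (d / Real.sqrt (1 + d ^ 2))) with h2 | h2
    · exact h2
    · rw [Real.arccos_eq_pi] at h2
      linarith

theorem tangent_mkC {a b c d a' b' c' d' : ℝ} (h : a ^ 2 + b ^ 2 + c ^ 2 = 1 + d ^ 2)
    (h' : a' ^ 2 + b' ^ 2 + c' ^ 2 = 1 + d' ^ 2) (hp : a * a' + b * b' + c * c' - d * d' = -1)
    (hd : 0 < d + d') : (mkC a b c d h).Tangent (mkC a' b' c' d' h') := by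
  have hs : 0 < Real.sqrt (1 + d ^ 2) := Real.sqrt_pos.2 (by positivity)
  have hs' : 0 < Real.sqrt (1 + d' ^ 2) := Real.sqrt_pos.2 (by positivity)
  have hr := (mkC a b c d h).radius_pos
  have hr' := (mkC a' b' c' d' h').radius_pos
  have hl := (mkC a b c d h).radius_lt
  have hl' := (mkC a' b' c' d' h').radius_lt
  have hcos : ∀ x : ℝ, Real.cos (Real.arccos (x / Real.sqrt (1 + x ^ 2))) =
      x / Real.sqrt (1 + x ^ 2) := by
    intro x
    have hx : 0 < Real.sqrt (1 + x ^ 2) := Real.sqrt_pos.2 (by positivity)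
    apply Real.cos_arccos
    · rw [le_div_iff₀ hx]
      have : -x < Real.sqrt (1 + x ^ 2) := Real.lt_sqrt_of_sq_lt (by nlinarith)
      linarith
    · rw [div_le_one hx]
      exact (Real.lt_sqrt_of_sq_lt (by nlinarith)).le
  have hsin : ∀ x : ℝ, Real.sin (Real.arccos (x / Real.sqrt (1 + x ^ 2))) =
      1 / Real.sqrt (1 + x ^ 2) := by
    intro x
    have hx : 0 < Real.sqrt (1 + x ^ 2) := Real.sqrt_pos.2 (by positivity)
    have hx2 : Real.sqrt (1 + x ^ 2) ^ 2 = 1 + x ^ 2 := Real.sq_sqrt (by positivity)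
    rw [Real.sin_arccos, div_pow, hx2]
    have : 1 - x ^ 2 / (1 + x ^ 2) = (1 / Real.sqrt (1 + x ^ 2)) ^ 2 := by
      rw [div_pow, hx2]
      have : (1 + x ^ 2) ≠ 0 := by positivity
      field_simp
      ring
    rw [this, Real.sqrt_sq (by positivity)]
  unfold SphCircle.Tangent InnerProductGeometry.angle
  rw [SphCircle.norm_center, SphCircle.norm_center]
  have hinner : ⟪(mkC a b c d h).center, (mkC a' b' c' d' h').center⟫_ℝ =
      Real.cos ((mkC a b c d h).radius + (mkC a' b' c' d' h').radius) := by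
    rw [Real.cos_add]
    show ⟪(Real.sqrt (1 + d ^ 2))⁻¹ • v3 a b c, (Real.sqrt (1 + d' ^ 2))⁻¹ • v3 a' b' c'⟫_ℝ =
      Real.cos (Real.arccos (d / Real.sqrt (1 + d ^ 2))) *
      Real.cos (Real.arccos (d' / Real.sqrt (1 + d' ^ 2))) -
      Real.sin (Real.arccos (d / Real.sqrt (1 + d ^ 2))) *
      Real.sin (Real.arccos (d' / Real.sqrt (1 + d' ^ 2)))
    rw [hcos, hcos, hsin, hsin, inner_smul_left, inner_smul_right, inner_v3]
    simp only [conj_trivial]
    have : a * a' + b * b' + c * c' = d * d' - 1 := by linarith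
    rw [this]
    field_simp
  rw [hinner, mul_one, div_one, Real.arccos_cos (by linarith)]
  have hsin2 : 0 < Real.sin ((mkC a b c d h).radius + (mkC a' b' c' d' h').radius) := by
    rw [Real.sin_add]
    show 0 < Real.sin (Real.arccos (d / Real.sqrt (1 + d ^ 2))) *
      Real.cos (Real.arccos (d' / Real.sqrt (1 + d' ^ 2))) +
      Real.cos (Real.arccos (d / Real.sqrt (1 + d ^ 2))) *
      Real.sin (Real.arccos (d' / Real.sqrt (1 + d' ^ 2)))
    rw [hcos, hcos, hsin, hsin]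
    have : 1 / Real.sqrt (1 + d ^ 2) * (d' / Real.sqrt (1 + d' ^ 2)) +
        d / Real.sqrt (1 + d ^ 2) * (1 / Real.sqrt (1 + d' ^ 2)) =
        (d + d') / (Real.sqrt (1 + d ^ 2) * Real.sqrt (1 + d' ^ 2)) := by
      field_simp
      ring
    rw [this]
    positivity
  by_contra hcon
  push Not at hcon
  have : Real.sin ((mkC a b c d h).radius + (mkC a' b' c' d' h').radius - 2 * Real.pi) ≤ 0 :=
    Real.sin_nonpos_of_nonpos_of_neg_pi_le (by linarith) (by linarith)
  rw [Real.sin_sub_two_pi] at this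
  linarith

theorem det3_smul (r s t : ℝ) (x y z : EuclideanSpace ℝ (Fin 3)) :
    det3 (r • x) (s • y) (t • z) = r * s * t * det3 x y z := by
  rw [det3_eq, det3_eq]
  simp only [PiLp.smul_apply, smul_eq_mul]
  ring

theorem det3_v3 (a b c a' b' c' a'' b'' c'' : ℝ) :
    det3 (v3 a b c) (v3 a' b' c') (v3 a'' b'' c'') =
      a * (b' * c'' - c' * b'') - b * (a' * c'' - c' * a'') + c * (a' * b'' - b' * a'') := by
  rw [det3_eq]
  simp only [v3_0, v3_1, v3_2]

end Pool.Agent.Helper67.CP
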