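import Pool.Agent.Helper67.CP.SphFinal

set_option linter.unusedVariables false

namespace Pool.Agent.Helper67.CP

open scoped InnerProductSpace ComplexConjugate
open OComplex

theorem stereo_sq (z : OnePoint ℂ) : stereo z 0 ^ 2 + stereo z 1 ^ 2 + stereo z 2 ^ 2 = 1 := by
  cases z with
  | infty =>
    show (0 : ℝ) ^ 2 + (0 : ℝ) ^ 2 + (-1 : ℝ) ^ 2 = 1
    norm_num
  | coe z =>
    show (2 * z.re / (1 + ‖z‖ ^ 2)) ^ 2 + (2 * z.im / (1 + ‖z‖ ^ 2)) ^ 2 +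
      ((1 - ‖z‖ ^ 2) / (1 + ‖z‖ ^ 2)) ^ 2 = 1
    have h : ‖z‖ ^ 2 = z.re ^ 2 + z.im ^ 2 := by
      rw [Complex.sq_norm, Complex.normSq_apply]
      ring
    rw [h]
    have : 1 + (z.re ^ 2 + z.im ^ 2) ≠ 0 := by positivity
    field_simp
    ring

theorem stereo_norm (z : OnePoint ℂ) : ‖stereo z‖ = 1 := by
  have h : ‖stereo z‖ ^ 2 = 1 := by
    rw [← real_inner_self_eq_norm_sq, inner3_eq, ← stereo_sq z]
    ring
  have h0 := norm_nonneg (stereo z)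
  nlinarith

theorem mem_toSet {a b c d : ℝ} (h : a ^ 2 + b ^ 2 + c ^ 2 = 1 + d ^ 2) (z : OnePoint ℂ) :
    z ∈ (mkC a b c d h).toSet ↔ a * stereo z 0 + b * stereo z 1 + c * stereo z 2 = d := by
  have hs : 0 < Real.sqrt (1 + d ^ 2) := Real.sqrt_pos.2 (by positivity)
  unfold SphCircle.toSet
  show InnerProductGeometry.angle (mkC a b c d h).center (stereo z) =
    Real.arccos (d / Real.sqrt (1 + d ^ 2)) ↔ _
  have hin : ⟪(mkC a b c d h).center, stereo z⟫_ℝ =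
      (a * stereo z 0 + b * stereo z 1 + c * stereo z 2) / Real.sqrt (1 + d ^ 2) := by
    show ⟪(Real.sqrt (1 + d ^ 2))⁻¹ • v3 a b c, stereo z⟫_ℝ = _
    rw [inner_smul_left, inner3_eq]
    simp only [v3_0, v3_1, v3_2, conj_trivial]
    field_simp
  unfold InnerProductGeometry.angle
  rw [SphCircle.norm_center, stereo_norm, mul_one, div_one]
  have habs := abs_real_inner_le_norm (mkC a b c d h).center (stereo z)
  rw [SphCircle.norm_center, stereo_norm, mul_one, abs_le] at habs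
  have hd : -1 ≤ d / Real.sqrt (1 + d ^ 2) ∧ d / Real.sqrt (1 + d ^ 2) ≤ 1 := by
    constructor
    · rw [le_div_iff₀ hs]
      have : -d < Real.sqrt (1 + d ^ 2) := Real.lt_sqrt_of_sq_lt (by nlinarith)
      linarith
    · rw [div_le_one hs]
      exact (Real.lt_sqrt_of_sq_lt (by nlinarith)).le
  rw [Real.arccos_inj habs.1 habs.2 hd.1 hd.2, hin, div_left_inj' hs.ne']

/-- Every point of the unit sphere other than the south pole is a stereographic image. -/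
theorem stereo_surj {X Y Z : ℝ} (h : X ^ 2 + Y ^ 2 + Z ^ 2 = 1) (hZ : -1 < Z) :
    ∃ z : OnePoint ℂ, stereo z 0 = X ∧ stereo z 1 = Y ∧ stereo z 2 = Z := by
  have h1 : 1 + Z ≠ 0 := by linarith
  have h1' : 0 < 1 + Z := by linarith
  refine ⟨((⟨X / (1 + Z), Y / (1 + Z)⟩ : ℂ) : OnePoint ℂ), ?_⟩
  have hn : ‖(⟨X / (1 + Z), Y / (1 + Z)⟩ : ℂ)‖ ^ 2 = (1 - Z) / (1 + Z) := by
    rw [Complex.sq_norm, Complex.normSq_apply]
    simp only
    field_simp
    nlinarith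
  have hden : 1 + (1 - Z) / (1 + Z) = 2 / (1 + Z) := by
    field_simp
    ring
  refine ⟨?_, ?_, ?_⟩
  · show 2 * (X / (1 + Z)) / (1 + ‖(⟨X / (1 + Z), Y / (1 + Z)⟩ : ℂ)‖ ^ 2) = X
    rw [hn, hden]
    field_simp
  · show 2 * (Y / (1 + Z)) / (1 + ‖(⟨X / (1 + Z), Y / (1 + Z)⟩ : ℂ)‖ ^ 2) = Y
    rw [hn, hden]
    field_simp
  · show (1 - ‖(⟨X / (1 + Z), Y / (1 + Z)⟩ : ℂ)‖ ^ 2) /
      (1 + ‖(⟨X / (1 + Z), Y / (1 + Z)⟩ : ℂ)‖ ^ 2) = Z
    rw [hn, hden]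
    field_simp
    ring

/-- In the first packing the circles of `N` and `m0` meet. -/
theorem meet (d : Dat) : ∃ z : OnePoint ℂ, z ∈ (d.P18 0).toSet ∧ z ∈ (d.P18 10).toSet := by
  have hn := d.p1
  have hμ := d.p2
  have e1 := d.hN
  have e2 := d.hμ
  have hY : (d.n0 / d.n1) ^ 2 = d.n0 ^ 2 / (1 + d.n0 ^ 2) := by rw [div_pow, e1]
  have hZ : (d.δ / d.μ) ^ 2 = d.δ ^ 2 / (1 + d.δ ^ 2) := by rw [div_pow, e2]
  have hle : (d.n0 / d.n1) ^ 2 + (d.δ / d.μ) ^ 2 ≤ 1 := by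
    rw [hY, hZ, div_add_div _ _ (by positivity) (by positivity), div_le_one (by positivity)]
    have h1 := d.b1
    have h2 := d.b2
    have h3 := d.b3
    have h4 := d.b4
    have h5 : d.n0 ^ 2 < 4 := by nlinarith
    have h6 : d.δ ^ 2 < 1 / 16 := by nlinarith
    nlinarith [sq_nonneg d.n0, sq_nonneg d.δ]
  obtain ⟨z, h0, h1, h2⟩ := stereo_surj (X := Real.sqrt (1 - ((d.n0 / d.n1) ^ 2 + (d.δ / d.μ) ^ 2)))
    (Y := d.n0 / d.n1) (Z := d.δ / d.μ) (by rw [Real.sq_sqrt (by linarith)]; ring)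
    (by have := div_pos d.b3 hμ; linarith)
  refine ⟨z, ?_, ?_⟩
  · refine (mem_toSet _ _).2 ?_
    show (0 : ℝ) * stereo z 0 + d.n1 * stereo z 1 + 0 * stereo z 2 = d.n0
    rw [h1]
    field_simp
    ring
  · refine (mem_toSet _ _).2 ?_
    show (0 : ℝ) * stereo z 0 + 0 * stereo z 1 + (-d.μ) * stereo z 2 = -d.δ
    rw [h2]
    field_simp
    ring

/-- In the second packing the circles of `N` and `m0` are disjoint. -/
theorem not_meet (d : Dat) (z : OnePoint ℂ) (h0 : z ∈ (d.P18 0).toSet)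
    (h1 : z ∈ (d.P18 11).toSet) : False := by
  have k0 := (mem_toSet _ _).1 h0
  have k1 := (mem_toSet _ _).1 h1
  change (0 : ℝ) * stereo z 0 + d.n1 * stereo z 1 + 0 * stereo z 2 = d.n0 at k0
  change d.M * stereo z 0 + 0 * stereo z 1 + 0 * stereo z 2 = d.m at k1
  have hs := stereo_sq z
  have e1 := d.hN
  have e2 := d.hM
  have k0' : d.n1 * stereo z 1 = d.n0 := by linarith
  have k1' : d.M * stereo z 0 = d.m := by linarith
  have k2 : (1 + d.n0 ^ 2) * stereo z 1 ^ 2 = d.n0 ^ 2 := by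
    rw [← e1, ← mul_pow, k0']
  have k3 : (1 + d.m ^ 2) * stereo z 0 ^ 2 = d.m ^ 2 := by
    rw [← e2, ← mul_pow, k1']
  have h3 : stereo z 0 ^ 2 + stereo z 1 ^ 2 ≤ 1 := by nlinarith [sq_nonneg (stereo z 2)]
  have b1 := d.b1
  have b5 := d.b5
  have h4 : 1 / 2 < stereo z 0 ^ 2 := by
    by_contra hc
    push Not at hc
    nlinarith
  have h5 : 1 / 2 < stereo z 1 ^ 2 := by
    by_contra hc
    push Not at hc
    nlinarith
  linarith

theorem not_image (d : Dat) : ¬ IsMoebiusImage (V := K13.DVert) (fun w => d.P18 (codeE w))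
    (fun w => d.P18 (rotE (codeE w))) := by
  rintro ⟨A, hA⟩
  obtain ⟨z, hz0, hz1⟩ := meet d
  have h0 := hA (Sum.inl 0)
  have h1 := hA (Sum.inl 8)
  simp only at h0 h1
  have c0 : codeE (Sum.inl 0) = 0 := rfl
  have c1 : codeE (Sum.inl 8) = 10 := rfl
  have r0 : rotE 0 = 0 := rfl
  have r1 : rotE 10 = 11 := rfl
  rw [c0, r0] at h0
  rw [c1, r1] at h1
  refine not_meet d (A • z) ?_ ?_
  · rw [← h0]
    exact ⟨z, hz0, rfl⟩
  · rw [← h1]
    exact ⟨z, hz1, rfl⟩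

end Pool.Agent.Helper67.CP
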