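import Pool.Agent.Helper67.CP.Sphere18

namespace Pool.Agent.Helper67.CP

open scoped InnerProductSpace ComplexConjugate
open OComplex

theorem mneg {x y : ℝ} (hx : 0 < x) : x * y < 0 ↔ y < 0 :=
  ⟨fun h => by by_contra hc; exact absurd h (not_lt.2 (mul_nonneg hx.le (not_lt.1 hc))),
    fun h => mul_neg_of_pos_of_neg hx h⟩

namespace Dat

variable (d : Dat)

/-- The packing of the sphere for `L18`. -/
noncomputable def P18 (k : Fin 18) : SphCircle :=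
  mkC (d.cx k) (d.cy k) (d.cz k) (d.cd k) (d.norm_ok k)

theorem rot18l : ∀ f ∈ list18, (f.2.1, f.2.2, f.1) ∈ list18 := by decide +kernel

theorem tang {u v w : Fin 18} (h : (u, v, w) ∈ L18.faces) : (d.P18 u).Tangent (d.P18 v) := by
  have hf := (mem_ofList list18_lt _ _ _).1 h
  have h1 := d.pr_ok _ hf
  have h2 := d.sum_ok _ hf
  exact tangent_mkC _ _ h1 h2

theorem lam_pos (k : Fin 18) : 0 < (Real.sqrt (1 + d.cd k ^ 2))⁻¹ :=
  inv_pos.2 (Real.sqrt_pos.2 (by positivity))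

theorem packing : IsSphPacking L18 d.P18 := by
  intro u v w h
  have h2 := L18_surface.rot _ _ _ h
  have h3 := L18_surface.rot _ _ _ h2
  refine ⟨d.tang h, d.tang h2, d.tang h3, ?_⟩
  have hf := (mem_ofList list18_lt _ _ _).1 h
  have h4 := d.dt_ok _ hf
  show 0 < det3 ((Real.sqrt (1 + d.cd u ^ 2))⁻¹ • v3 (d.cx u) (d.cy u) (d.cz u))
    ((Real.sqrt (1 + d.cd v ^ 2))⁻¹ • v3 (d.cx v) (d.cy v) (d.cz v))
    ((Real.sqrt (1 + d.cd w ^ 2))⁻¹ • v3 (d.cx w) (d.cy w) (d.cz w))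
  rw [det3_smul, det3_v3]
  exact mul_pos (mul_pos (mul_pos (d.lam_pos _) (d.lam_pos _)) (d.lam_pos _)) h4

theorem det_st (k c : Fin 18) : det3 (d.P18 k).center (v3 (tx k) (ty k) (tz k)) (d.P18 c).center =
    (Real.sqrt (1 + d.cd k ^ 2))⁻¹ * (Real.sqrt (1 + d.cd c ^ 2))⁻¹ * d.st k c := by
  have := det3_smul (Real.sqrt (1 + d.cd k ^ 2))⁻¹ 1 (Real.sqrt (1 + d.cd c ^ 2))⁻¹
    (v3 (d.cx k) (d.cy k) (d.cz k)) (v3 (tx k) (ty k) (tz k)) (v3 (d.cx c) (d.cy c) (d.cz c))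
  rw [one_smul, mul_one, det3_v3] at this
  exact this

theorem list18_next : ∀ f ∈ list18, ∃ g ∈ list18, g.1 = f.1 ∧ g.2.1 = f.2.2 := by
  decide +kernel

theorem sign_iff {a b c : Fin 18} (h : (a, b, c) ∈ L18.faces) :
    (0 ≤ det3 (d.P18 a).center (v3 (tx a) (ty a) (tz a)) (d.P18 b).center ∧
      det3 (d.P18 a).center (v3 (tx a) (ty a) (tz a)) (d.P18 c).center < 0) ↔
    ((a.1, b.1) ∉ neg ∧ (a.1, c.1) ∈ neg) := by
  have hf := (mem_ofList list18_lt _ _ _).1 h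
  obtain ⟨g, hg, hg1, hg2⟩ := list18_next _ hf
  have h1 := d.st_ok _ hf
  have h2 := d.st_ok _ hg
  rw [hg1, hg2] at h2
  simp only at h1 h2
  rw [det_st, det_st]
  have k1 : 0 < (Real.sqrt (1 + d.cd a ^ 2))⁻¹ * (Real.sqrt (1 + d.cd b ^ 2))⁻¹ :=
    mul_pos (d.lam_pos _) (d.lam_pos _)
  have k2 : 0 < (Real.sqrt (1 + d.cd a ^ 2))⁻¹ * (Real.sqrt (1 + d.cd c ^ 2))⁻¹ :=
    mul_pos (d.lam_pos _) (d.lam_pos _)
  rw [mul_nonneg_iff_of_pos_left k1, mneg k2]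
  rcases h1 with ⟨h1, h1'⟩ | ⟨h1, h1'⟩
  · exact ⟨fun h => absurd h.1 (not_le.2 h1'), fun h => absurd h1 h.1⟩
  · rcases h2 with ⟨h2, h2'⟩ | ⟨h2, h2'⟩
    · exact ⟨fun _ => ⟨h1, h2⟩, fun _ => ⟨h1', h2'⟩⟩
    · exact ⟨fun h => absurd h.2 (not_lt.2 h2'), fun h => absurd h.2 h2⟩

/-- The branching of the packing: the vertices `b0, b1, b2, b3` are simple branch points. -/
def br (v : Fin 18) : ℕ := if 14 ≤ v.1 then 1 else 0

theorem count_aux : ∀ v : Fin 18, ((L18.faces.filter fun f => f.1 = v).filter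
    fun f => (f.1.1, f.2.1.1) ∉ neg ∧ (f.1.1, f.2.2.1) ∈ neg).card = 1 + br v := by
  decide +kernel

theorem tvec (v : Fin 18) : ⟪(d.P18 v).center, v3 (tx v) (ty v) (tz v)⟫_ℝ = 0 := by
  show ⟪(Real.sqrt (1 + d.cd v ^ 2))⁻¹ • v3 (d.cx v) (d.cy v) (d.cz v),
    v3 (tx v) (ty v) (tz v)⟫_ℝ = 0
  rw [inner_smul_left, inner_v3]
  have : d.cx v * tx v + d.cy v * ty v + d.cz v * tz v = 0 := by
    fin_cases v <;> simp only [cx, cy, cz, tx, ty, tz] <;> ring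
  rw [this, mul_zero]

theorem tvec_ne (v : Fin 18) : v3 (tx v) (ty v) (tz v) ≠ 0 := by
  intro h
  have h0 : ⟪v3 (tx v) (ty v) (tz v), v3 (tx v) (ty v) (tz v)⟫_ℝ = 0 := by
    rw [h, inner_zero_left]
  rw [inner_v3] at h0
  revert h0
  fin_cases v <;> simp only [tx, ty, tz] <;> norm_num

theorem angleSum18 (v : Fin 18) : sphAngleSum L18 d.P18 v = 2 * Real.pi * (1 + br v) := by
  refine sphAngleSum_eq L18_surface (L18_interior v) d.packing (v3 (tx v) (ty v) (tz v))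
    (d.tvec v) (tvec_ne v) (br v) ?_
  refine Eq.trans (congrArg Finset.card (Finset.filter_congr ?_)) (count_aux v)
  rintro ⟨a, b, c⟩ hf
  rw [Finset.mem_filter] at hf
  obtain ⟨hf, rfl⟩ := hf
  exact d.sign_iff hf

end Dat

end Pool.Agent.Helper67.CP
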