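import Pool.Agent.Helper67.CP.DatVal
import Pool.Agent.Helper67.CP.Pack18
import Pool.Agent.Helper67.CP.Comb3

set_option linter.unusedSectionVars false

namespace Pool.Agent.Helper67.CP

open scoped InnerProductSpace ComplexConjugate
open OComplex

theorem exists_dat : Nonempty Dat := by
  have hq : Real.sqrt 41 ^ 2 = 41 := Real.sq_sqrt (by norm_num)
  have q1 : 6.4031 < Real.sqrt 41 := Real.lt_sqrt_of_sq_lt (by norm_num)
  have q2 : Real.sqrt 41 < 6.4032 := by
    rw [Real.sqrt_lt' (by norm_num)]
    norm_num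
  set q := Real.sqrt 41
  have hs : Real.sqrt (16 / 25 + 4 / 25 * q) ^ 2 = 16 / 25 + 4 / 25 * q :=
    Real.sq_sqrt (by linarith)
  have s1 : 1.29015 < Real.sqrt (16 / 25 + 4 / 25 * q) :=
    Real.lt_sqrt_of_sq_lt (by norm_num at q1 ⊢; linarith)
  have s2 : Real.sqrt (16 / 25 + 4 / 25 * q) < 1.29016 := by
    rw [Real.sqrt_lt' (by norm_num)]
    norm_num at q2 ⊢
    linarith
  set s := Real.sqrt (16 / 25 + 4 / 25 * q)
  have hp : Real.sqrt (116 / 25 + 4 / 25 * q) ^ 2 = 116 / 25 + 4 / 25 * q :=
    Real.sq_sqrt (by linarith)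
  have p1 : 0 < Real.sqrt (116 / 25 + 4 / 25 * q) := Real.sqrt_pos.2 (by linarith)
  set p := Real.sqrt (116 / 25 + 4 / 25 * q)
  exact ⟨datOf q s p hq hs hp q1 q2 s1 s2 p1 (by norm_num at *; nlinarith)
    (by norm_num at *; nlinarith)⟩

section Transport

variable {V W : Type} [Fintype V] [DecidableEq V] [Fintype W] [DecidableEq W]

theorem packing_transport {L : OComplex W} {K : OComplex V} (e : W ≃ V)
    (he : ∀ u v w, (u, v, w) ∈ L.faces ↔ (e u, e v, e w) ∈ K.faces) {P : V → SphCircle}
    (hP : IsSphPacking K P) : IsSphPacking L (fun w => P (e w)) :=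
  fun u v w h => hP _ _ _ ((he _ _ _).1 h)

theorem angle_transport {L : OComplex W} {K : OComplex V} (e : W ≃ V)
    (he : L.faces.image (fun f => (e f.1, e f.2.1, e f.2.2)) = K.faces) (P : V → SphCircle)
    (w : W) : sphAngleSum L (fun w => P (e w)) w = sphAngleSum K P (e w) := by
  have inj : Function.Injective (fun f : W × W × W => (e f.1, e f.2.1, e f.2.2)) := by
    rintro ⟨a, b, c⟩ ⟨a', b', c'⟩ h
    simp only [Prod.mk.injEq, e.injective.eq_iff] at h
    obtain ⟨h1, h2, h3⟩ := h
    rw [h1, h2, h3]
  unfold sphAngleSum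
  have hset : K.faces.filter (fun f => f.1 = e w) =
      (L.faces.filter fun f => f.1 = w).image (fun f => (e f.1, e f.2.1, e f.2.2)) := by
    rw [← he, Finset.filter_image]
    congr 1
    refine Finset.filter_congr fun f _ => ?_
    exact e.injective.eq_iff
  rw [hset, Finset.sum_image inj.injOn]

end Transport

theorem br_rot (v : Fin 18) : Dat.br (rotE v) = Dat.br v := by
  have : ∀ v : Fin 18, Dat.br (rot18 v) = Dat.br v := by decide +kernel
  exact this v

/-- The branch vertices of the disc. -/
def beta : Multiset (Fin 13) := {11, 12}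

theorem count_beta (v : K13.DVert) : (K13.doubleMul beta).count v = Dat.br (codeE v) := by
  have h1 : (K13.doubleMul beta).count v = ((K13.doubleMul beta).map codeE).count (codeE v) :=
    (Multiset.count_map_eq_count' _ _ codeE.injective _).symm
  have h2 : (K13.doubleMul beta).map codeE = {15, 16, 14, 17} := by
    have h3 : K13.doubleMul beta = {Sum.inl 11, Sum.inl 12, K13.star 11, K13.star 12} := rfl
    rw [h3]
    show ({codeE (Sum.inl 11), codeE (Sum.inl 12), codeE (K13.star 11), codeE (K13.star 12)} :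
      Multiset (Fin 18)) = {15, 16, 14, 17}
    rw [codeE_apply, codeE_apply, codeE_apply, codeE_apply, code_star, code_star]
    rfl
  rw [h1, h2]
  generalize codeE v = x
  revert x
  decide +kernel

theorem branch_of (Q : Fin 18 → SphCircle)
    (hQ : ∀ v, sphAngleSum L18 Q v = 2 * Real.pi * (1 + Dat.br v)) :
    SphBranchSet K13.double (fun w => Q (codeE w)) (K13.doubleMul beta) := by
  refine ⟨fun v _ => double_sphere.2.1 v, fun v _ => ?_⟩
  rw [angle_transport codeE double_image, hQ, count_beta]

theorem rotE_mem (u v w : Fin 18) : (u, v, w) ∈ L18.faces ↔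
    (rotE u, rotE v, rotE w) ∈ L18.faces := by
  constructor
  · intro h
    rw [← rot_image]
    exact Finset.mem_image.2 ⟨_, h, rfl⟩
  · intro h
    rw [← rot_image, Finset.mem_image] at h
    obtain ⟨⟨a, b, c⟩, hf, h⟩ := h
    simp only [Prod.mk.injEq, rotE.injective.eq_iff] at h
    obtain ⟨rfl, rfl, rfl⟩ := h
    exact hf

theorem sphere_part (d : Dat) :
    IsSphPacking K13.double (fun w => d.P18 (codeE w)) ∧
    SphBranchSet K13.double (fun w => d.P18 (codeE w)) (K13.doubleMul beta) ∧
    IsSphPacking K13.double (fun w => d.P18 (rotE (codeE w))) ∧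
    SphBranchSet K13.double (fun w => d.P18 (rotE (codeE w))) (K13.doubleMul beta) := by
  have h1 : IsSphPacking K13.double (fun w => d.P18 (codeE w)) :=
    packing_transport (P := d.P18) codeE codeE_mem d.packing
  have h2 : SphBranchSet K13.double (fun w => d.P18 (codeE w)) (K13.doubleMul beta) :=
    branch_of d.P18 d.angleSum18
  have h3 : IsSphPacking L18 (fun v => d.P18 (rotE v)) :=
    packing_transport (P := d.P18) rotE rotE_mem d.packing
  have h4 : IsSphPacking K13.double (fun w => d.P18 (rotE (codeE w))) :=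
    packing_transport (P := fun v => d.P18 (rotE v)) codeE codeE_mem h3
  have h5 : ∀ v, sphAngleSum L18 (fun v => d.P18 (rotE v)) v = 2 * Real.pi * (1 + Dat.br v) := by
    intro v
    rw [angle_transport (K := L18) rotE rot_image d.P18 v, d.angleSum18, br_rot]
  have h6 : SphBranchSet K13.double (fun w => d.P18 (rotE (codeE w))) (K13.doubleMul beta) :=
    branch_of (fun v => d.P18 (rotE v)) h5
  exact ⟨h1, h2, h4, h6⟩

end Pool.Agent.Helper67.CP
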