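import Pool.Agent.Helper67.CP.Mk
import Pool.Agent.Helper67.CP.Comb2

namespace Pool.Agent.Helper67.CP

open scoped InnerProductSpace ComplexConjugate
open OComplex

/-- The coordinates of the circles of the packing. -/
structure Dat where
  (n0 n1 μ δ M m e f g h i l u v κ : ℝ)
  hN : n1 ^ 2 = 1 + n0 ^ 2
  hμ : μ ^ 2 = 1 + δ ^ 2
  hM : M ^ 2 = 1 + m ^ 2
  he : e ^ 2 + f ^ 2 = 1 + g ^ 2
  hh : h ^ 2 + i ^ 2 = 1 + l ^ 2
  hu : u ^ 2 + v ^ 2 = 1 + κ ^ 2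
  t1 : e * n1 + g * n0 = 1
  t2 : v * n1 - κ * n0 = -1
  t3 : e * v + g * κ = 1
  t4 : i * f - l * g = -1
  t5 : h * u - l * κ = -1
  t6 : i * μ - l * δ = 1
  t7 : h * M - l * m = -1
  t8 : f * μ - g * δ = 1
  t9 : u * M - κ * m = -1
  p1 : 0 < n1
  p2 : 0 < μ
  p3 : 0 < M
  p4 : 0 < e
  p5 : 0 < f
  p6 : 0 < h
  p7 : 0 < i
  p8 : 0 < u
  p9 : 0 < v
  d1 : 0 < n0 + g
  d2 : 0 < n0 + κ
  d3 : 0 < g + κ
  d4 : 0 < l + g
  d5 : 0 < l + κ
  d6 : 0 < l - δ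
  d7 : 0 < l + m
  d8 : 0 < g - δ
  d9 : 0 < κ + m
  hdet : i * u * e < h * v * f
  b1 : 1 < n0
  b2 : n0 < 2
  b3 : 0 < δ
  b4 : δ < 1 / 4
  b5 : 1 < m

namespace Dat

variable (d : Dat)

def cx : ℕ → ℝ
  | 3 => d.u | 5 => -d.u | 7 => d.u | 9 => -d.u | 11 => d.M | 13 => -d.M
  | 14 => -d.h | 15 => d.h | 16 => d.h | 17 => -d.h | _ => 0

def cy : ℕ → ℝ
  | 0 => d.n1 | 1 => -d.n1 | 2 => -d.e | 3 => d.v | 4 => -d.e | 5 => d.v
  | 6 => d.e | 7 => -d.v | 8 => d.e | 9 => -d.v | _ => 0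

def cz : ℕ → ℝ
  | 2 => d.f | 4 => -d.f | 6 => d.f | 8 => -d.f | 10 => -d.μ | 12 => d.μ
  | 14 => d.i | 15 => d.i | 16 => -d.i | 17 => -d.i | _ => 0

def cd : ℕ → ℝ
  | 0 => d.n0 | 1 => d.n0 | 2 => d.g | 3 => d.κ | 4 => d.g | 5 => d.κ
  | 6 => d.g | 7 => d.κ | 8 => d.g | 9 => d.κ | 10 => -d.δ | 11 => d.m | 12 => -d.δ | 13 => d.m
  | 14 => d.l | 15 => d.l | 16 => d.l | 17 => d.l | _ => 0

/-- The tangent vectors from which the angles are counted. -/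
def tx : ℕ → ℝ
  | 0 => 1 | 1 => 1 | 2 => 1 | 4 => 1 | 6 => 1 | 8 => 1 | 10 => 1 | 12 => 1 | _ => 0

def ty : ℕ → ℝ
  | 11 => 1 | 13 => 1 | 14 => 1 | 15 => 1 | 16 => 1 | 17 => 1 | _ => 0

def tz : ℕ → ℝ
  | 3 => 1 | 5 => 1 | 7 => 1 | 9 => 1 | _ => 0

theorem norm_ok (k : Fin 18) : d.cx k ^ 2 + d.cy k ^ 2 + d.cz k ^ 2 = 1 + d.cd k ^ 2 := by
  have h1 := d.hN
  have h2 := d.hμ
  have h3 := d.hM
  have h4 := d.he
  have h5 := d.hh
  have h6 := d.hu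
  fin_cases k <;> simp only [cx, cy, cz, cd] <;> linarith

/-- The Lorentz product. -/
def pr (a b : ℕ) : ℝ :=
  d.cx a * d.cx b + d.cy a * d.cy b + d.cz a * d.cz b - d.cd a * d.cd b

/-- The determinant of the space parts. -/
def dt (a b c : ℕ) : ℝ :=
  d.cx a * (d.cy b * d.cz c - d.cz b * d.cy c) - d.cy a * (d.cx b * d.cz c - d.cz b * d.cx c) +
    d.cz a * (d.cx b * d.cy c - d.cy b * d.cx c)

/-- The determinant deciding on which side of the tangent vector at `a` the circle `c` lies. -/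
def st (a c : ℕ) : ℝ :=
  d.cx a * (ty a * d.cz c - tz a * d.cy c) - d.cy a * (tx a * d.cz c - tz a * d.cx c) +
    d.cz a * (tx a * d.cy c - ty a * d.cx c)

theorem pr_ok : ∀ f ∈ list18, d.pr f.1 f.2.1 = -1 := by
  have h1 := d.t1
  have h2 := d.t2
  have h3 := d.t3
  have h4 := d.t4
  have h5 := d.t5
  have h6 := d.t6
  have h7 := d.t7
  have h8 := d.t8
  have h9 := d.t9
  intro f hf
  unfold list18 at hf
  fin_cases hf <;> simp only [pr, cx, cy, cz, cd] <;> linarith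

theorem sum_ok : ∀ f ∈ list18, 0 < d.cd f.1 + d.cd f.2.1 := by
  have h1 := d.d1
  have h2 := d.d2
  have h3 := d.d3
  have h4 := d.d4
  have h5 := d.d5
  have h6 := d.d6
  have h7 := d.d7
  have h8 := d.d8
  have h9 := d.d9
  intro f hf
  unfold list18 at hf
  fin_cases hf <;> simp only [cd] <;> linarith

theorem dt_ok : ∀ f ∈ list18, 0 < d.dt f.1 f.2.1 f.2.2 := by
  have h1 := mul_pos (mul_pos d.p1 d.p5) d.p8
  have h2 := d.hdet
  have h3 := mul_pos (mul_pos d.p6 d.p4) d.p2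
  have h4 := mul_pos (mul_pos d.p7 d.p3) d.p9
  intro f hf
  unfold list18 at hf
  fin_cases hf <;> simp only [dt, cx, cy, cz] <;> linarith

/-- The pairs for which the determinant `st` is negative. -/
def neg : List (ℕ × ℕ) :=
  [(0, 2), (1, 8), (2, 10), (3, 0), (4, 0), (4, 3), (4, 5), (4, 16), (4, 17), (5, 2), (5, 4),
   (5, 13), (5, 14), (5, 17), (6, 1), (6, 7), (6, 9), (6, 14), (6, 15), (7, 6), (7, 8), (7, 11),
   (7, 15), (7, 16), (8, 12), (9, 1), (10, 6), (11, 16), (12, 4), (13, 14), (14, 2), (14, 6),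
   (15, 3), (15, 7), (15, 10), (15, 11), (16, 4), (16, 8), (17, 5), (17, 9), (17, 12), (17, 13)]

theorem st_ok : ∀ f ∈ list18, ((f.1, f.2.1) ∈ neg ∧ d.st f.1 f.2.1 < 0) ∨
    ((f.1, f.2.1) ∉ neg ∧ 0 ≤ d.st f.1 f.2.1) := by
  have q1 := mul_pos d.p7 d.p3
  have q2 := mul_pos d.p7 d.p8
  have q3 := mul_pos d.p6 d.p5
  have q4 := mul_pos d.p6 d.p2
  have q5 := mul_pos d.p5 d.p9
  have q6 := mul_pos d.p5 d.p1
  have q7 := mul_pos d.p4 d.p7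
  have q8 := mul_pos d.p4 d.p2
  have q9 := mul_pos d.p8 d.p4
  have q10 := mul_pos d.p8 d.p1
  have q11 := mul_pos d.p9 d.p6
  have q12 := mul_pos d.p9 d.p3
  have q13 := mul_pos d.p1 d.p5
  have q14 := mul_pos d.p2 d.p4
  have q15 := mul_pos d.p3 d.p7
  intro f hf
  unfold list18 at hf
  fin_cases hf <;>
    first
    | (refine Or.inl ⟨by decide, ?_⟩; simp only [st, cx, cy, cz, tx, ty, tz]; linarith)
    | (refine Or.inr ⟨by decide, ?_⟩; simp only [st, cx, cy, cz, tx, ty, tz]; linarith)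

end Dat

end Pool.Agent.Helper67.CP
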